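import Pool.Agent.H78.NS.Defs
import Pool.Agent.H3.NC.BRN

/-!
# Module BRS: the branches in the spherical setting

PROOF of `sbd`: `(rat a b)^[i] ∞ = ∞` for all `i` (`h.inf`, `Function.iterate_fixed`). If `(rat a b)^[i] z = ∞` for some `i ≤ n` then `(rat a b)^[n] z = (rat a b)^[n - i] ∞ = ∞`, against `hz`. So all `(rat a b)^[i] z`, `i ≤ n`, are finite; induction as in `orb` (H57/CP/BAS) or `bdo` (H3/NC/BRN): a zero of `b` is mapped to `∞` (`rat_coe`, `pt`), otherwise `rat a b z = gg a b z` (`rat_coe_of_ne`).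
`sbrn`: copy of `brn` (H3/NC/BRN, proved) with `sbd` in the place of `bdo`. The complex derivative: `gg^[n] ∘ G = id` near `P n = (gg a b)^[n] v`, `deriv G (P n) = (tD n v)⁻¹`, `deriv (gg^[k] ∘ G) (P n) = tD k v * (tD n v)⁻¹`. `(rat a b)^[n] v = P n`: `hG.inv` at the centre and `hG.val`.
`spt`: for `u` in the ball, `z = ps G k u`: `(rat a b)^[n - k] z = u` (`sbrn`), so `sbd` gives the orbit; `gg^[n - k] ∘ ps G k = id` on the ball, chain rule (`bra_it`, H57/CP/BRA): `tD (n - k) z * deriv (ps G k) u = 1`.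
`spz`: continuity of `rat a b` at `∞` (`Pool.Agent.H44.Fatou.rat_continuous`) and `h.inf`: the preimage of the neighbourhood `{∞} ∪ {‖w‖ > R}` of `∞` contains `{‖z‖ ≥ L}`; with `L ≥ L0`, `b.eval z ≠ 0` and `rat a b z = gg a b z`.
-/

set_option autoImplicit false

open Filter Topology Polynomial Metric Set MeasureTheory

namespace Pool.Agent.H78.NS

open Pool.Agent.H44.Fatou (rat)
open Pool.Agent.H80.AJ (Br KK)
open Pool.Agent.H61.TT Pool.Agent.H57.CP Pool.Agent.H3.NC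
open Pool.Agent.H1.PU (KA)

variable {d : ℕ} {a b : Polynomial ℂ} {L0 θ : ℝ}

theorem sbd (h : SP d a b L0 θ) {n : ℕ} {z u : ℂ} (hz : (rat a b)^[n] (z : OnePoint ℂ) = (u : OnePoint ℂ)) :
    (gg a b)^[n] z = u ∧ (∀ i ≤ n, (rat a b)^[i] (z : OnePoint ℂ) = ((gg a b)^[i] z : ℂ)) ∧
      ∀ i < n, b.eval ((gg a b)^[i] z) ≠ 0 := by
  have hsplit : ∀ i ≤ n, (rat a b)^[n - i] ((rat a b)^[i] (z : OnePoint ℂ)) = (u : OnePoint ℂ) := by
    intro i hi
    rw [← Function.iterate_add_apply, Nat.sub_add_cancel hi, hz]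
  have hinf : ∀ i ≤ n, (rat a b)^[i] (z : OnePoint ℂ) ≠ OnePoint.infty := by
    intro i hi h1
    have h2 := hsplit i hi
    rw [h1, Function.iterate_fixed h.inf] at h2
    exact OnePoint.infty_ne_coe _ h2
  have key : ∀ i ≤ n, (rat a b)^[i] (z : OnePoint ℂ) = ((gg a b)^[i] z : ℂ) ∧
      ∀ j < i, b.eval ((gg a b)^[j] z) ≠ 0 := by
    intro i
    induction i with
    | zero => intro _; exact ⟨rfl, fun j hj => absurd hj (by omega)⟩
    | succ i ih =>
      intro hi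
      obtain ⟨h1, h2⟩ := ih (by omega)
      have hb : b.eval ((gg a b)^[i] z) ≠ 0 := by
        intro h0
        apply hinf (i + 1) hi
        rw [Function.iterate_succ_apply', h1, Pool.Agent.H44.Fatou.rat_coe, h0]
        unfold Pool.Agent.H44.Fatou.pt
        rw [if_pos rfl]
      refine ⟨?_, ?_⟩
      · rw [Function.iterate_succ_apply', h1, Function.iterate_succ_apply',
          Pool.Agent.H44.Fatou.rat_coe_of_ne hb]
        rfl
      · intro j hj
        rcases Nat.lt_succ_iff_lt_or_eq.1 hj with h3 | rfl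
        · exact h2 j h3
        · exact hb
  refine ⟨?_, fun i hi => (key i hi).1, (key n le_rfl).2⟩
  have h1 := (key n le_rfl).1
  rw [hz] at h1
  exact (OnePoint.coe_injective h1).symm

theorem sbrn (h : SP d a b L0 θ) {v : ℂ} {δ : ℝ} (hδ : 0 < δ) {n : ℕ} {G : ℂ → ℂ} (hG : Cal a b v δ n G) {k : ℕ}
    (hk : k ≤ n) : Br (rat a b) (n - k) ((gg a b)^[n] v) δ ((gg a b)^[k] v) (ps a b G k) ∧
      InjOn (ps a b G k) (ball ((gg a b)^[n] v) δ) ∧ 0 < Dk a b v n ∧ 0 < Dk a b v k ∧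
      deriv (ps a b G k) ((gg a b)^[n] v) = tD a b k v / tD a b n v ∧
      ‖deriv (ps a b G k) ((gg a b)^[n] v)‖ = Dk a b v k / Dk a b v n := by
  have hb : ∀ u ∈ ball ((gg a b)^[n] v) δ, (gg a b)^[n] (G u) = u ∧
      (∀ i ≤ n, (rat a b)^[i] (G u : OnePoint ℂ) = ((gg a b)^[i] (G u) : ℂ)) ∧
      ∀ i < n, b.eval ((gg a b)^[i] (G u)) ≠ 0 :=
    fun u hu => sbd h (hG.inv u hu)
  have hd : ∀ j ≤ n, ∀ u ∈ ball ((gg a b)^[n] v) δ,
      HasDerivAt ((gg a b)^[j] ∘ G) (tD a b j (G u) * deriv G u) u := by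
    intro j hj u hu
    have h4 : HasDerivAt G (deriv G u) u := (hG.diff.differentiableAt (isOpen_ball.mem_nhds hu)).hasDerivAt
    exact (bra_it (fun i hi => (hb u hu).2.2 i (by omega))).hasDerivAt.comp u h4
  have hBr : Br (rat a b) (n - k) ((gg a b)^[n] v) δ ((gg a b)^[k] v) ((gg a b)^[k] ∘ G) := by
    refine ⟨fun u hu => (hd k hk u hu).differentiableAt.differentiableWithinAt, ?_, fun u hu => ?_⟩
    · exact congrArg _ hG.val
    · change (rat a b)^[n - k] (((gg a b)^[k] (G u) : ℂ) : OnePoint ℂ) = (u : OnePoint ℂ)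
      rw [← (hb u hu).2.1 k hk, ← Function.iterate_add_apply, Nat.sub_add_cancel hk]
      exact hG.inv u hu
  have hc : (gg a b)^[n] v ∈ ball ((gg a b)^[n] v) δ := mem_ball_self hδ
  have h1 : tD a b n v * deriv G ((gg a b)^[n] v) = 1 := by
    have h5 := hd n le_rfl _ hc
    have h6 : (gg a b)^[n] ∘ G =ᶠ[𝓝 ((gg a b)^[n] v)] id := by
      filter_upwards [isOpen_ball.mem_nhds hc] with w hw
      exact (hb w hw).1
    have h7 : HasDerivAt ((gg a b)^[n] ∘ G) 1 ((gg a b)^[n] v) := (hasDerivAt_id _).congr_of_eventuallyEq h6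
    have h8 := h5.unique h7
    rwa [hG.val] at h8
  have hn0 : tD a b n v ≠ 0 := left_ne_zero_of_mul_eq_one h1
  have hk0 : tD a b k v ≠ 0 := by
    intro h0
    apply hn0
    rw [← Nat.add_sub_cancel' hk, tD_add, h0, zero_mul]
  have hDn : 0 < Dk a b v n := norm_pos_iff.2 hn0
  have hDk : 0 < Dk a b v k := norm_pos_iff.2 hk0
  have hder : deriv (ps a b G k) ((gg a b)^[n] v) = tD a b k v / tD a b n v := by
    unfold ps
    rw [(hd k hk _ hc).deriv, hG.val, eq_div_iff hn0, mul_assoc, mul_comm (deriv G _), h1, mul_one]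
  refine ⟨hBr, ?_, hDn, hDk, hder, ?_⟩
  · intro u hu u' hu' he
    have h2 := hBr.inv u hu
    have he' : ((gg a b)^[k] ∘ G) u = ((gg a b)^[k] ∘ G) u' := he
    rw [he', hBr.inv u' hu'] at h2
    exact (OnePoint.coe_injective h2).symm
  · rw [hder, norm_div]
    rfl

theorem spt (h : SP d a b L0 θ) {v : ℂ} {δ : ℝ} (hδ : 0 < δ) {n : ℕ} {G : ℂ → ℂ} (hG : Cal a b v δ n G) {k : ℕ}
    (hk : k ≤ n) {u : ℂ} (hu : u ∈ ball ((gg a b)^[n] v) δ) : (∀ i < n - k, b.eval ((gg a b)^[i] (ps a b G k u)) ≠ 0) ∧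
      (gg a b)^[n - k] (ps a b G k u) = u ∧ tD a b (n - k) (ps a b G k u) * deriv (ps a b G k) u = 1 := by
  have _ := hδ
  have hb : ∀ u ∈ ball ((gg a b)^[n] v) δ, (gg a b)^[n] (G u) = u ∧
      (∀ i ≤ n, (rat a b)^[i] (G u : OnePoint ℂ) = ((gg a b)^[i] (G u) : ℂ)) ∧
      ∀ i < n, b.eval ((gg a b)^[i] (G u)) ≠ 0 :=
    fun u hu => sbd h (hG.inv u hu)
  have hne : ∀ i < n - k, b.eval ((gg a b)^[i] (ps a b G k u)) ≠ 0 := by
    intro i hi
    unfold ps
    rw [Function.comp_apply, ← Function.iterate_add_apply]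
    exact (hb u hu).2.2 (i + k) (by omega)
  have hval : ∀ w ∈ ball ((gg a b)^[n] v) δ, (gg a b)^[n - k] (ps a b G k w) = w := by
    intro w hw
    unfold ps
    rw [Function.comp_apply, ← Function.iterate_add_apply, Nat.sub_add_cancel hk]
    exact (hb w hw).1
  refine ⟨hne, hval u hu, ?_⟩
  have h4 : HasDerivAt G (deriv G u) u := (hG.diff.differentiableAt (isOpen_ball.mem_nhds hu)).hasDerivAt
  have h5 : HasDerivAt (ps a b G k) (tD a b k (G u) * deriv G u) u :=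
    (bra_it (fun i hi => (hb u hu).2.2 i (by omega))).hasDerivAt.comp u h4
  have h6 : HasDerivAt ((gg a b)^[n - k] ∘ ps a b G k)
      (tD a b (n - k) (ps a b G k u) * deriv (ps a b G k) u) u :=
    (bra_it hne).hasDerivAt.comp u h5.differentiableAt.hasDerivAt
  have h7 : (gg a b)^[n - k] ∘ ps a b G k =ᶠ[𝓝 u] id := by
    filter_upwards [isOpen_ball.mem_nhds hu] with w hw
    exact hval w hw
  have h8 : HasDerivAt ((gg a b)^[n - k] ∘ ps a b G k) 1 u := (hasDerivAt_id u).congr_of_eventuallyEq h7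
  exact h6.unique h8

theorem spz (h : SP d a b L0 θ) (R : ℝ) : ∃ L : ℝ, 0 < L ∧ ∀ z : ℂ, L ≤ ‖z‖ → b.eval z ≠ 0 ∧ R ≤ ‖gg a b z‖ := by
  have hV : IsOpen ((fun z : ℂ => (z : OnePoint ℂ)) '' closedBall (0 : ℂ) R)ᶜ :=
    OnePoint.isOpen_compl_image_coe.2 ⟨isClosed_closedBall, isCompact_closedBall 0 R⟩
  have hU := hV.preimage (Pool.Agent.H44.Fatou.rat_continuous h.rt.cop)
  have hm : OnePoint.infty ∈ rat a b ⁻¹' ((fun z : ℂ => (z : OnePoint ℂ)) '' closedBall (0 : ℂ) R)ᶜ := by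
    rw [mem_preimage, h.inf]
    rintro ⟨z, -, hz⟩
    exact OnePoint.coe_ne_infty _ hz
  obtain ⟨L1, hL1⟩ := ((OnePoint.isOpen_iff_of_mem hm).1 hU).2.isBounded.subset_closedBall (0 : ℂ)
  refine ⟨max (L1 + 1) L0, lt_max_of_lt_right h.hL, fun z hz => ?_⟩
  have hb := (h.con z ((le_max_right _ _).trans hz)).1
  refine ⟨hb, ?_⟩
  have h1 : L1 + 1 ≤ ‖z‖ := (le_max_left _ _).trans hz
  by_contra hcon
  have h2 : z ∈ ((fun z : ℂ => (z : OnePoint ℂ)) ⁻¹'
      (rat a b ⁻¹' ((fun z : ℂ => (z : OnePoint ℂ)) '' closedBall (0 : ℂ) R)ᶜ))ᶜ := by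
    intro h3
    apply h3
    refine ⟨gg a b z, ?_, ?_⟩
    · rw [mem_closedBall_zero_iff]
      exact le_of_lt (not_le.1 hcon)
    · change ((gg a b z : ℂ) : OnePoint ℂ) = rat a b (z : OnePoint ℂ)
      rw [Pool.Agent.H44.Fatou.rat_coe_of_ne hb]
      rfl
  have h4 := mem_closedBall_zero_iff.1 (hL1 h2)
  linarith

theorem ps_add (G : ℂ → ℂ) (s k : ℕ) (w : ℂ) : ps a b G (s + k) w = (gg a b)^[k] (ps a b G s w) := by
  unfold ps
  rw [Function.comp_apply, Function.comp_apply, add_comm s k, Function.iterate_add_apply]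

end Pool.Agent.H78.NS
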