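import Pool.Agent.H78.NS.Defs

/-!
# The phase `ν = conj q / |q|` on `S`
-/

set_option autoImplicit false

open Filter Topology Polynomial Metric Set MeasureTheory

namespace Pool.Agent.H78.NS

open Pool.Agent.H44.Fatou (rat)
open Pool.Agent.H80.AJ (Br KK)
open Pool.Agent.H61.TT Pool.Agent.H57.CP Pool.Agent.H3.NC
open Pool.Agent.H1.PU (KA)

/-- the phase of `q` on `S` -/
noncomputable def nu (q : ℂ → ℂ) (S : Set ℂ) : ℂ → ℂ :=
  S.indicator fun w => (starRingEnd ℂ) (q w) / (‖q w‖ : ℂ)

theorem nu_le (q : ℂ → ℂ) (S : Set ℂ) (w : ℂ) : ‖nu q S w‖ ≤ 1 := by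
  unfold nu
  by_cases hw : w ∈ S
  · rw [indicator_of_mem hw, norm_div, RCLike.norm_conj, Complex.norm_real, norm_norm]
    exact div_self_le_one _
  · rw [indicator_of_notMem hw, norm_zero]
    exact zero_le_one

theorem nu_meas {q : ℂ → ℂ} {S : Set ℂ} (hS : MeasurableSet S) (hq : ContinuousOn q S) (hq0 : ∀ w ∈ S, q w ≠ 0) :
    Measurable (nu q S) := by
  classical
  unfold nu
  rw [← Set.piecewise_eq_indicator]
  refine ContinuousOn.measurable_piecewise ?_ continuousOn_const hS
  refine ContinuousOn.div (Complex.continuous_conj.comp_continuousOn hq)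
    (Complex.continuous_ofReal.comp_continuousOn hq.norm) fun w hw => ?_
  rw [Ne, Complex.ofReal_eq_zero, norm_eq_zero]
  exact hq0 w hw

end Pool.Agent.H78.NS
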