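import Pool.Agent.H78.NS.FFM
import Pool.Agent.H78.NS.NUD
import Pool.Agent.H78.NS.BRS

/-!
# Module EDN: the end

PROOF. `S = ball w0 ρ0`, `N j = FF (U j) (φ j)`, `ν = nu q S`. (1) Pass to a subsequence with `N j → ν` a.e. on `S` (`TendstoInMeasure` from `L ^ 2`: `tendstoInMeasure_of_tendsto_eLpNorm`, `TendstoInMeasure.exists_seq_tendsto_ae`; or choose `∫⁻ ≤ 4^(-j)` and `lintegral_tsum`) and, for every `l < i`, `∑_j volume (pre^[l] (U j)) < ∞` (choose the subsequence with `volume (pre^[l] (U j)) ≤ 2^(-j)` for all `l < i`), so by Borel-Cantelli (`measure_limsup_atTop_eq_zero`, `ae_eventually_notMem`) for a.e. `u` and all `l < i`: `u ∉ pre^[l] (U j)` for large `j`.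
(2) `W = ball u0 r`: small enough that `W ⊆ S`, all `u ∈ W` have no poles in `u, .., gg^[i-1] u`, and `gg^[i] u ∈ S` (`hb`, `hi`, continuity: `bra_it`, H57/CP/BRA). `D u = tD i u` is holomorphic on `W` (the derivative of `gg^[i]`), `D u0 = 0`.
(3) For a.e. `u ∈ W`: for large `j`, `gg^[l] u ∉ U j` for all `l < i` (as `u ∉ pre^[l] (U j)` and no poles), so `N j u = pb i (N j) u = N j (gg^[i] u) * (conj (D u) / D u)` (`ff_it`). `N j u → ν u` for a.e. `u ∈ W`, and `N j (gg^[i] u) → ν (gg^[i] u)` for a.e. `u ∈ W` (the exceptional null set `Z ⊆ S` has `pre^[i] Z` null: `null_pre` of H61/TT/Area, iterated; `u ∈ pre^[i] Z` iff `gg^[i] u ∈ Z` for `u ∈ W`).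
So `ν u = ν (gg^[i] u) * (conj (D u) / D u)` for a.e. `u ∈ W`. With `ν = conj q / ‖q‖ = ‖q‖ / q`: `q (gg^[i] u) * D u ^ 2 / q u` is real and `≥ 0` for a.e. `u ∈ W` (if `D u ≠ 0`: it equals `‖q (gg^[i] u)‖ ‖D u‖ ^ 2 / ‖q u‖`; if `D u = 0` it is `0`).
(4) `H u = q (gg^[i] u) * D u ^ 2 / q u` is holomorphic on `W`, real a.e., so real everywhere (continuity, a null set has dense complement: `Measure.IsOpenPosMeasure`), so constant (open mapping: `AnalyticOnNhd.is_constant_or_isOpen`, or `deriv = 0` by Cauchy-Riemann), so `H = H u0 = 0`, and `D = 0` on `W` (`q ≠ 0` on `S`). But `D u = ∏ dg (gg^[l] u)` and `dg ≠ 0` a.e. (`ae_ww`), `null_pre`: the set of `u ∈ W` with `D u = 0` is a null set, against `volume W > 0`.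
-/

set_option autoImplicit false

open Filter Topology Polynomial Metric Set MeasureTheory

namespace Pool.Agent.H78.NS

open Pool.Agent.H44.Fatou (rat)
open Pool.Agent.H80.AJ (Br KK)
open Pool.Agent.H61.TT Pool.Agent.H57.CP Pool.Agent.H3.NC
open Pool.Agent.H1.PU (KA)

variable {d : ℕ} {a b : Polynomial ℂ} {L0 θ : ℝ}

private theorem mem_itE {i : ℕ} {T : Set ℂ} : ∀ {u : ℂ}, (∀ l < i, b.eval ((gg a b)^[l] u) ≠ 0) →
    (u ∈ (pre a b)^[i] T ↔ (gg a b)^[i] u ∈ T) := by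
  induction i with
  | zero => intro u _; exact Iff.rfl
  | succ i ih =>
    intro u hb
    rw [mem_pre', Function.iterate_succ_apply]
    have h0 : b.eval u ≠ 0 := hb 0 (by omega)
    have h1 : ∀ l < i, b.eval ((gg a b)^[l] (gg a b u)) ≠ 0 := by
      intro l hl
      rw [← Function.iterate_succ_apply]
      exact hb (l + 1) (by omega)
    rw [ih h1]
    exact and_iff_right h0

private theorem null_itE (h : RatD d a b) {Z : Set ℂ} (hZ : volume Z = 0) (l : ℕ) :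
    volume ((pre a b)^[l] Z) = 0 := by
  induction l with
  | zero => exact hZ
  | succ l ih =>
    rw [Function.iterate_succ_apply']
    exact null_pre h ih

private theorem ae_limE {S : Set ℂ} {f : ℕ → ℂ → ℂ} (hf : ∀ k, Measurable (f k))
    (hs : ∑' k, ∫⁻ w in S, ‖f k w‖ₑ ^ 2 ≠ ⊤) :
    ∀ᵐ w ∂(volume.restrict S), Tendsto (fun k => f k w) atTop (𝓝 0) := by
  have hfm : ∀ k, Measurable (fun w => ‖f k w‖ₑ ^ 2) := fun k => (hf k).enorm.pow_const 2
  have h1 : ∫⁻ w in S, ∑' k, ‖f k w‖ₑ ^ 2 ≠ ⊤ := by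
    rw [lintegral_tsum fun k => (hfm k).aemeasurable]
    exact hs
  filter_upwards [ae_lt_top (Measurable.ennreal_tsum hfm) h1] with w hw
  have h3 : Tendsto (fun k => ‖f k w‖ₑ ^ 2) atTop (𝓝 0) :=
    ENNReal.tendsto_atTop_zero_of_tsum_ne_top hw.ne
  have h4 : Tendsto (fun k => (‖f k w‖ₑ ^ 2).toReal) atTop (𝓝 0) :=
    (ENNReal.tendsto_toReal ENNReal.zero_ne_top).comp h3
  have h5 : Tendsto (fun k => ‖f k w‖ ^ 2) atTop (𝓝 0) := by
    refine h4.congr fun k => ?_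
    rw [ENNReal.toReal_pow, toReal_enorm]
  have h6 : Tendsto (fun k => Real.sqrt (‖f k w‖ ^ 2)) atTop (𝓝 (Real.sqrt 0)) :=
    (Real.continuous_sqrt.tendsto 0).comp h5
  rw [Real.sqrt_zero] at h6
  rw [tendsto_zero_iff_norm_tendsto_zero]
  refine h6.congr fun k => ?_
  rw [Real.sqrt_sq (norm_nonneg _)]

private theorem im_zeroE {x Q D : ℂ} (hx : x ≠ 0) (hQ : Q ≠ 0)
    (h : (starRingEnd ℂ) x / (‖x‖ : ℂ) =
      (starRingEnd ℂ) Q / (‖Q‖ : ℂ) * ((starRingEnd ℂ) D / D)) : (Q * D ^ 2 / x).im = 0 := by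
  by_cases hD : D = 0
  · simp [hD]
  have nx : (‖x‖ : ℂ) ≠ 0 := by
    rw [Ne, Complex.ofReal_eq_zero, norm_eq_zero]
    exact hx
  have nQ : (‖Q‖ : ℂ) ≠ 0 := by
    rw [Ne, Complex.ofReal_eq_zero, norm_eq_zero]
    exact hQ
  have e1 : x * (starRingEnd ℂ) x = (‖x‖ : ℂ) ^ 2 := by
    rw [Complex.mul_conj, Complex.normSq_eq_norm_sq]
    push_cast
    rfl
  have e2 : Q * (starRingEnd ℂ) Q = (‖Q‖ : ℂ) ^ 2 := by
    rw [Complex.mul_conj, Complex.normSq_eq_norm_sq]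
    push_cast
    rfl
  have e3 : D * (starRingEnd ℂ) D = (‖D‖ : ℂ) ^ 2 := by
    rw [Complex.mul_conj, Complex.normSq_eq_norm_sq]
    push_cast
    rfl
  have k0 : (starRingEnd ℂ) x * ((‖Q‖ : ℂ) * D) =
      (starRingEnd ℂ) Q * (starRingEnd ℂ) D * (‖x‖ : ℂ) := by
    rw [div_mul_div_comm, div_eq_div_iff nx (mul_ne_zero nQ hD)] at h
    exact h
  have k1 : (‖x‖ : ℂ) * Q * D = (‖Q‖ : ℂ) * (starRingEnd ℂ) D * x := by
    apply mul_left_cancel₀ (mul_ne_zero nx nQ)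
    linear_combination (x * Q) * k0 - Q * (‖Q‖ : ℂ) * D * e1 +
      x * (starRingEnd ℂ) D * (‖x‖ : ℂ) * e2
  have k2 : Q * D ^ 2 / x = ((‖Q‖ * ‖D‖ ^ 2 / ‖x‖ : ℝ) : ℂ) := by
    push_cast
    rw [div_eq_div_iff hx nx]
    linear_combination D * k1 + (‖Q‖ : ℂ) * x * e3
  rw [k2, Complex.ofReal_im]

private theorem dgdE {z : ℂ} (hz : b.eval z ≠ 0) : DifferentiableAt ℂ (dg a b) z := by
  unfold dg
  exact ((ww a b).differentiableAt).div (b.differentiableAt.pow 2) (pow_ne_zero 2 hz)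

private theorem tDdE {i : ℕ} {u : ℂ} (hb : ∀ l < i, b.eval ((gg a b)^[l] u) ≠ 0) :
    DifferentiableAt ℂ (tD a b i) u := by
  unfold tD
  refine DifferentiableAt.fun_finsetProd fun l hl => ?_
  have hl' := Finset.mem_range.1 hl
  exact (dgdE (hb l hl')).comp u
    (bra_it fun l' hl2 => hb l' (by omega)).hasDerivAt.differentiableAt

theorem end_false (h : SP d a b L0 θ) {w0 : ℂ} {ρ0 : ℝ} {q : ℂ → ℂ} (hqd : DifferentiableOn ℂ q (ball w0 ρ0))
    (hq0 : ∀ w ∈ ball w0 ρ0, q w ≠ 0) {U : ℕ → Set ℂ} {φ : ℕ → ℂ → ℂ} (hU : ∀ j, MeasurableSet (U j))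
    (hφm : ∀ j, Measurable (φ j)) (hφ : ∀ j z, ‖φ j z‖ ≤ 1)
    (hv : ∀ l : ℕ, Tendsto (fun j => volume ((pre a b)^[l] (U j))) atTop (𝓝 0))
    (hl : Tendsto (fun j => ∫⁻ w in ball w0 ρ0, ‖FF a b (U j) (φ j) w - nu q (ball w0 ρ0) w‖ₑ ^ 2) atTop (𝓝 0))
    {i : ℕ} {u0 : ℂ} (hu0 : u0 ∈ ball w0 ρ0) (hb : ∀ l < i, b.eval ((gg a b)^[l] u0) ≠ 0)
    (hi : (gg a b)^[i] u0 ∈ ball w0 ρ0) (hD : tD a b i u0 = 0) : False := by
  set S := ball w0 ρ0 with hS
  have hSm : MeasurableSet S := isOpen_ball.measurableSet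
  set N : ℕ → ℂ → ℂ := fun j => FF a b (U j) (φ j) with hN
  have hNm : ∀ j, Measurable (N j) := fun j => ff_meas (hU j) (hφm j)
  have hνm : Measurable (nu q S) := nu_meas hSm hqd.continuousOn hq0
  -- the subsequence
  have hsel : ∀ k : ℕ, ∃ j : ℕ,
      (∫⁻ w in S, ‖N j w - nu q S w‖ₑ ^ 2 ≤ (2⁻¹ : ENNReal) ^ k) ∧
      ∀ l < i, volume ((pre a b)^[l] (U j)) ≤ (2⁻¹ : ENNReal) ^ k := by
    intro k
    have hpos : (0 : ENNReal) < 2⁻¹ ^ k := ENNReal.pow_pos (by simp) k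
    have e1 : ∀ᶠ j in atTop, ∫⁻ w in S, ‖N j w - nu q S w‖ₑ ^ 2 ≤ (2⁻¹ : ENNReal) ^ k :=
      hl.eventually (Iic_mem_nhds hpos)
    have e2 : ∀ᶠ j in atTop, ∀ l ∈ Finset.range i,
        volume ((pre a b)^[l] (U j)) ≤ (2⁻¹ : ENNReal) ^ k :=
      (eventually_all_finset (Finset.range i)).2 fun l _ =>
        (hv l).eventually (Iic_mem_nhds hpos)
    obtain ⟨j, h1, h2⟩ := (e1.and e2).exists
    exact ⟨j, h1, fun l hl => h2 l (Finset.mem_range.2 hl)⟩
  choose J hJ1 hJ2 using hsel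
  have hsum : ∑' k : ℕ, (2⁻¹ : ENNReal) ^ k ≠ ⊤ := by
    rw [ENNReal.tsum_geometric_two]
    simp
  have hA : ∀ᵐ w : ℂ, w ∈ S → Tendsto (fun k => N (J k) w) atTop (𝓝 (nu q S w)) := by
    rw [← ae_restrict_iff' hSm]
    have h1 := ae_limE (S := S) (f := fun k w => N (J k) w - nu q S w)
      (fun k => (hNm _).sub hνm) (ne_top_of_le_ne_top hsum (ENNReal.tsum_le_tsum hJ1))
    filter_upwards [h1] with w hw
    have h2 := hw.add_const (nu q S w)
    rw [zero_add] at h2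
    exact h2.congr fun k => sub_add_cancel _ _
  have hB : ∀ᵐ u : ℂ, ∀ l, l < i → ∀ᶠ k in atTop, u ∉ (pre a b)^[l] (U (J k)) := by
    rw [ae_all_iff]
    intro l
    by_cases hl' : l < i
    · have h1 : ∀ᵐ u : ℂ, ∀ᶠ k in atTop, u ∉ (pre a b)^[l] (U (J k)) :=
        ae_eventually_notMem
          (ne_top_of_le_ne_top hsum (ENNReal.tsum_le_tsum fun k => hJ2 k l hl'))
      filter_upwards [h1] with u hu _ using hu
    · exact ae_of_all _ fun u h1 => absurd h1 hl'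
  have hZ : volume {w | ¬ (w ∈ S → Tendsto (fun k => N (J k) w) atTop (𝓝 (nu q S w)))} = 0 :=
    ae_iff.1 hA
  have hZ' : ∀ᵐ u : ℂ, u ∉ (pre a b)^[i]
      {w | ¬ (w ∈ S → Tendsto (fun k => N (J k) w) atTop (𝓝 (nu q S w)))} :=
    measure_eq_zero_iff_ae_notMem.1 (null_itE h.rt hZ i)
  -- the small disc
  have hcont : ∀ l ≤ i, ContinuousAt (gg a b)^[l] u0 := fun l hl' =>
    (bra_it fun l' hl2 => hb l' (by omega)).hasDerivAt.continuousAt
  obtain ⟨r, hr, hW⟩ : ∃ r > 0, ∀ u ∈ ball u0 r, u ∈ S ∧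
      (∀ l < i, b.eval ((gg a b)^[l] u) ≠ 0) ∧ (gg a b)^[i] u ∈ S := by
    rw [← Metric.eventually_nhds_iff_ball]
    have e1 : ∀ᶠ u in 𝓝 u0, u ∈ S := isOpen_ball.mem_nhds hu0
    have e2 : ∀ᶠ u in 𝓝 u0, ∀ l ∈ Finset.range i, b.eval ((gg a b)^[l] u) ≠ 0 := by
      refine (eventually_all_finset _).2 fun l hl' => ?_
      have hl2 := Finset.mem_range.1 hl'
      have h1 : ContinuousAt (fun u => b.eval ((gg a b)^[l] u)) u0 :=
        ContinuousAt.comp (f := (gg a b)^[l]) (g := fun z => b.eval z)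
          b.continuous.continuousAt (hcont l hl2.le)
      exact h1.eventually_ne (hb l hl2)
    have e3 : ∀ᶠ u in 𝓝 u0, (gg a b)^[i] u ∈ S :=
      (hcont i le_rfl).eventually (isOpen_ball.mem_nhds hi)
    filter_upwards [e1, e2, e3] with u h1 h2 h3
    exact ⟨h1, fun l hl' => h2 l (Finset.mem_range.2 hl'), h3⟩
  have key : ∀ᵐ u : ℂ, u ∈ ball u0 r → nu q S u = nu q S ((gg a b)^[i] u) *
      ((starRingEnd ℂ) (tD a b i u) / tD a b i u) := by
    filter_upwards [hB, hA, hZ'] with u h1 h2 h3 huW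
    obtain ⟨hs, hb', hi'⟩ := hW u huW
    have t1 : Tendsto (fun k => N (J k) u) atTop (𝓝 (nu q S u)) := h2 hs
    have t2 : Tendsto (fun k => N (J k) ((gg a b)^[i] u)) atTop
        (𝓝 (nu q S ((gg a b)^[i] u))) := by
      by_contra hc
      apply h3
      rw [mem_itE hb']
      exact fun h4 => hc (h4 hi')
    have e : ∀ᶠ k in atTop, N (J k) ((gg a b)^[i] u) *
        ((starRingEnd ℂ) (tD a b i u) / tD a b i u) = N (J k) u := by
      have e1 : ∀ᶠ k in atTop, ∀ l ∈ Finset.range i, u ∉ (pre a b)^[l] (U (J k)) :=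
        (eventually_all_finset _).2 fun l hl' => h1 l (Finset.mem_range.1 hl')
      filter_upwards [e1] with k hk
      refine (ff_it (φ (J k)) (m := i) fun l hl' => ⟨hb' l hl', fun hmem => ?_⟩).symm
      exact hk l (Finset.mem_range.2 hl') ((mem_itE fun l' hl2 => hb' l' (by omega)).2 hmem)
    exact tendsto_nhds_unique t1 ((t2.mul_const _).congr' e)
  -- the holomorphic function
  set H : ℂ → ℂ := fun u => q ((gg a b)^[i] u) * tD a b i u ^ 2 / q u with hH
  have hHd : DifferentiableOn ℂ H (ball u0 r) := by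
    intro u hu
    obtain ⟨hs, hb', hi'⟩ := hW u hu
    have d1 : DifferentiableAt ℂ q u := hqd.differentiableAt (isOpen_ball.mem_nhds hs)
    have d2 : DifferentiableAt ℂ q ((gg a b)^[i] u) :=
      hqd.differentiableAt (isOpen_ball.mem_nhds hi')
    have d3 : DifferentiableAt ℂ (gg a b)^[i] u := (bra_it hb').hasDerivAt.differentiableAt
    have d4 : DifferentiableAt ℂ (fun u => q ((gg a b)^[i] u)) u := d2.comp u d3
    exact (((d4.mul ((tDdE hb').pow 2)).div d1 (hq0 u hs))).differentiableWithinAt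
  have him : ∀ᵐ u ∂(volume.restrict (ball u0 r)), (H u).im = 0 := by
    rw [ae_restrict_iff' isOpen_ball.measurableSet]
    filter_upwards [key] with u hk hu
    obtain ⟨hs, hb', hi'⟩ := hW u hu
    have h1 := hk hu
    unfold nu at h1
    rw [indicator_of_mem hs, indicator_of_mem hi'] at h1
    exact im_zeroE (hq0 u hs) (hq0 _ hi') h1
  have him2 : ∀ u ∈ ball u0 r, (H u).im = 0 := by
    have h1 : (fun u => (H u).im) =ᵐ[volume.restrict (ball u0 r)] fun _ => (0 : ℝ) := him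
    exact Measure.eqOn_open_of_ae_eq h1 isOpen_ball
      (Complex.continuous_im.comp_continuousOn hHd.continuousOn) continuousOn_const
  have hc : ∀ u ∈ ball u0 r, H u = 0 := by
    rcases (hHd.analyticOnNhd isOpen_ball).is_constant_or_isOpen
      (convex_ball u0 r).isPreconnected with ⟨w, hw⟩ | hop
    · intro u hu
      rw [hw u hu, ← hw u0 (mem_ball_self hr)]
      show q ((gg a b)^[i] u0) * tD a b i u0 ^ 2 / q u0 = 0
      rw [hD]
      simp
    · exfalso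
      have h1 := hop (ball u0 r) subset_rfl isOpen_ball
      have hmem : H u0 ∈ H '' ball u0 r := mem_image_of_mem _ (mem_ball_self hr)
      obtain ⟨ε, hε, hball⟩ := Metric.isOpen_iff.1 h1 _ hmem
      have h2 : H u0 + ((ε / 2 : ℝ) : ℂ) * Complex.I ∈ ball (H u0) ε := by
        rw [mem_ball, dist_eq_norm, add_sub_cancel_left, norm_mul, Complex.norm_I, mul_one,
          Complex.norm_real, Real.norm_of_nonneg (by positivity)]
        linarith
      obtain ⟨u, hu, he⟩ := hball h2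
      have h3 := him2 u hu
      rw [he, Complex.add_im, him2 u0 (mem_ball_self hr), Complex.mul_im, Complex.ofReal_re,
        Complex.ofReal_im, Complex.I_im, Complex.I_re] at h3
      linarith
  have hz : ∀ u ∈ ball u0 r, tD a b i u = 0 := by
    intro u hu
    obtain ⟨hs, hb', hi'⟩ := hW u hu
    have h1 := hc u hu
    have h2 : q ((gg a b)^[i] u) * tD a b i u ^ 2 / q u = 0 := h1
    rw [div_eq_zero_iff, or_iff_left (hq0 u hs), mul_eq_zero,
      or_iff_right (hq0 _ hi')] at h2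
    exact pow_eq_zero_iff (two_ne_zero) |>.1 h2
  have hsub : ball u0 r ⊆ ⋃ l ∈ Finset.range i, (pre a b)^[l] {y : ℂ | (ww a b).eval y = 0} := by
    intro u hu
    obtain ⟨hs, hb', hi'⟩ := hW u hu
    have h1 := hz u hu
    unfold tD at h1
    obtain ⟨l, hl1, hl2⟩ := Finset.prod_eq_zero_iff.1 h1
    have hl3 := Finset.mem_range.1 hl1
    refine mem_iUnion₂.2 ⟨l, hl1, ?_⟩
    rw [mem_itE fun l' hl' => hb' l' (by omega)]
    have h2 : (ww a b).eval ((gg a b)^[l] u) / b.eval ((gg a b)^[l] u) ^ 2 = 0 := hl2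
    rw [div_eq_zero_iff, or_iff_left (pow_ne_zero 2 (hb' l hl3))] at h2
    exact h2
  have hnull : volume (ball u0 r) = 0 := by
    refine measure_mono_null hsub ?_
    exact (measure_biUnion_null_iff (Finset.range i).countable_toSet).2 fun l _ =>
      null_itE h.rt ((finite_ww h.rt).measure_zero volume) l
  exact (measure_ball_pos volume u0 hr).ne' hnull

end Pool.Agent.H78.NS
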