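import Pool.Agent.H78.NS.FFM

/-!
# Module ENI: the field on `U = ψ(S)` in the coordinate of `S`

`S` open, `ψ` holomorphic and injective on `S`, `g^m ψ = id`, `φ = (g^m)^* ν`, `E` the early returns.
PROOF. Change of variables (`integral_image_eq_integral_abs_det_fderiv_smul`, the real derivative of `ψ` at `w ∈ S` is multiplication by `deriv ψ w`, determinant `‖deriv ψ w‖ ^ 2`: `abs_det_smulRight` of H61/TT/Area): `∫ z in ψ '' S, f z = ∫ w in S, ‖deriv ψ w‖ ^ 2 • f (ψ w)`.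
Let `w ∈ S`, `z = ψ w`, `D = deriv ψ w`, so `tD m z = D⁻¹`, `D ≠ 0`. `FF z = φ z = pb m ν z = ν w * (conj D⁻¹ / D⁻¹)` (`ff_in`), times `‖D‖ ^ 2` it is `ν w * D ^ 2`.
If `w ∉ E`: `gg^[k] z ∉ U` for `0 < k < m`, so `ff_it` for `gg z` and `m - 1`, `pb 1 FF z = pb 1 (pb (m - 1) FF) z = pb m FF z = FF w * (conj D⁻¹ / D⁻¹)` (`gg^[m] z = w`), times `‖D‖ ^ 2` it is `FF w * D ^ 2` (`m ≥ 1`; the denominators are not 0: `hb`).
So the two integrands agree on `S \ E`, and on `E` their difference has norm at most `‖D ^ 2 * α z‖ (‖pb 1 FF z‖ + ‖FF w‖) ≤ 2 ‖D ^ 2 * α z‖`. `E` is measurable: finite union over `k` of the preimages of the measurable set `U` (image of an open set under an injective continuous map: `MeasurableSet.image_of_continuousOn_injOn`) under the continuous maps `gg^[k] ∘ ψ` on `S` (or `ContinuousOn.measurable..`; `gg` is measurable, `ψ` is measurable on `S`).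
`w ↦ deriv ψ w ^ 2 * α (ψ w)` is integrable on `S` by the change of variables (`integrableOn_image_iff_integrableOn_abs_det_fderiv_smul`).
-/

set_option autoImplicit false

open Filter Topology Polynomial Metric Set MeasureTheory

namespace Pool.Agent.H78.NS

open Pool.Agent.H44.Fatou (rat)
open Pool.Agent.H80.AJ (Br KK)
open Pool.Agent.H61.TT Pool.Agent.H57.CP Pool.Agent.H3.NC
open Pool.Agent.H1.PU (KA)

variable {a b : Polynomial ℂ}

private theorem conj_id {D t : ℂ} (h : t * D = 1) (x : ℂ) :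
    ((‖D‖ ^ 2 : ℝ) : ℂ) * (x * ((starRingEnd ℂ) t / t)) = D ^ 2 * x := by
  have hD : D ≠ 0 := by
    rintro rfl
    rw [mul_zero] at h
    exact zero_ne_one h
  have ht : t ≠ 0 := by
    rintro rfl
    rw [zero_mul] at h
    exact zero_ne_one h
  have h1 : (starRingEnd ℂ) t * (starRingEnd ℂ) D = 1 := by
    rw [← map_mul, h, map_one]
  have h2 : ((‖D‖ ^ 2 : ℝ) : ℂ) = D * (starRingEnd ℂ) D := by
    rw [Complex.mul_conj, Complex.normSq_eq_norm_sq]
  have h3 : (starRingEnd ℂ) D * ((starRingEnd ℂ) t / t) = D := by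
    have h4 : (1 : ℂ) / t = D := by
      rw [div_eq_iff ht, mul_comm]
      exact h.symm
    rw [mul_div_assoc', mul_comm ((starRingEnd ℂ) D), h1, h4]
  rw [h2]
  calc D * (starRingEnd ℂ) D * (x * ((starRingEnd ℂ) t / t)) =
      D * x * ((starRingEnd ℂ) D * ((starRingEnd ℂ) t / t)) := by ring
    _ = D * x * D := by rw [h3]
    _ = D ^ 2 * x := by ring

private theorem meas_sub {S : Set ℂ} (hS : IsOpen S) {ψ : ℂ → ℂ} (hc : ContinuousOn ψ S) {V : Set ℂ}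
    (hV : MeasurableSet V) : MeasurableSet {w | w ∈ S ∧ ψ w ∈ V} := by
  have h1 : Measurable (S.restrict ψ) := (continuousOn_iff_continuous_restrict.1 hc).measurable
  have h2 : {w | w ∈ S ∧ ψ w ∈ V} = Subtype.val '' ((S.restrict ψ) ⁻¹' V) := by
    ext w
    constructor
    · rintro ⟨h3, h4⟩
      exact ⟨⟨w, h3⟩, h4, rfl⟩
    · rintro ⟨⟨w, h3⟩, h4, rfl⟩
      exact ⟨h3, h4⟩
  rw [h2]
  exact MeasurableSet.subtype_image hS.measurableSet (h1 hV)

theorem eni {S : Set ℂ} (hS : IsOpen S) {ψ : ℂ → ℂ} (hd : DifferentiableOn ℂ ψ S) (hi : InjOn ψ S) {m : ℕ} (hm0 : 0 < m)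
    (hb : ∀ w ∈ S, ∀ i < m, b.eval ((gg a b)^[i] (ψ w)) ≠ 0) (hg : ∀ w ∈ S, (gg a b)^[m] (ψ w) = w)
    (ht : ∀ w ∈ S, tD a b m (ψ w) * deriv ψ w = 1) {ν : ℂ → ℂ} (hνm : Measurable ν) (hν : ∀ w, ‖ν w‖ ≤ 1) {α : ℂ → ℂ}
    (hm : Measurable α) (hα : Integrable α) {E : Set ℂ}
    (hE : E = {w | w ∈ S ∧ ∃ k : ℕ, 0 < k ∧ k < m ∧ (gg a b)^[k] (ψ w) ∈ ψ '' S}) {N : ℂ → ℂ}
    (hN : N = FF a b (ψ '' S) (pb a b m ν)) :
    ‖(∫ z in ψ '' S, α z * (N z - pb a b 1 N z)) - ∫ w in S, deriv ψ w ^ 2 * α (ψ w) * (ν w - N w)‖ ≤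
      2 * ∫ w in E, ‖deriv ψ w ^ 2 * α (ψ w)‖ ∧ MeasurableSet E ∧ MeasurableSet (ψ '' S) ∧
      IntegrableOn (fun w => deriv ψ w ^ 2 * α (ψ w)) S := by
  have hSm := hS.measurableSet
  have hUm : MeasurableSet (ψ '' S) := hSm.image_of_continuousOn_injOn hd.continuousOn hi
  have hEm : MeasurableSet E := by
    have h1 : E = ⋃ k ∈ Finset.Ioo 0 m, {w | w ∈ S ∧ ψ w ∈ (gg a b)^[k] ⁻¹' (ψ '' S)} := by
      rw [hE]
      ext w
      simp only [Set.mem_setOf_eq, Set.mem_iUnion, Finset.mem_Ioo, Set.mem_preimage, exists_prop]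
      constructor
      · rintro ⟨h1, k, h2, h3, h4⟩
        exact ⟨k, ⟨h2, h3⟩, h1, h4⟩
      · rintro ⟨k, ⟨h2, h3⟩, h1, h4⟩
        exact ⟨h1, k, h2, h3, h4⟩
    rw [h1]
    exact Finset.measurableSet_biUnion _ fun k _ => meas_sub hS hd.continuousOn (measurable_gg.iterate k hUm)
  have hES : E ⊆ S := by
    rw [hE]
    exact fun w hw => hw.1
  have hder : ∀ w ∈ S, HasFDerivWithinAt ψ ((ContinuousLinearMap.smulRight (1 : ℂ →L[ℂ] ℂ) (deriv ψ w)).restrictScalars ℝ)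
      S w := by
    intro w hw
    exact ((hd.differentiableAt (hS.mem_nhds hw)).hasDerivAt.hasFDerivAt.restrictScalars ℝ).hasFDerivWithinAt
  have hψm : AEMeasurable ψ (volume.restrict S) := hd.continuousOn.aemeasurable hSm
  have hDm : Measurable (deriv ψ) := measurable_deriv ψ
  have hαψ : AEMeasurable (fun w => deriv ψ w ^ 2 * α (ψ w)) (volume.restrict S) :=
    (hDm.pow_const 2).aemeasurable.mul (hm.comp_aemeasurable hψm)
  have hnrm : ∀ w, ‖deriv ψ w ^ 2 * α (ψ w)‖ = ‖deriv ψ w‖ ^ 2 * ‖α (ψ w)‖ := by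
    intro w
    rw [norm_mul, norm_pow]
  have hint : IntegrableOn (fun w => deriv ψ w ^ 2 * α (ψ w)) S := by
    have h1 := (integrableOn_image_iff_integrableOn_abs_det_fderiv_smul volume hSm hder hi α).1 hα.integrableOn
    refine Integrable.mono h1 hαψ.aestronglyMeasurable (Filter.Eventually.of_forall fun w => ?_)
    rw [hnrm, norm_smul, abs_det_smulRight, Real.norm_eq_abs, abs_of_nonneg (by positivity)]
  refine ⟨?_, hEm, hUm, hint⟩
  have hNm : Measurable N := by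
    rw [hN]
    exact ff_meas hUm (pb_meas hνm m)
  have hN1 : ∀ z, ‖N z‖ ≤ 1 := by
    intro z
    rw [hN]
    exact ff_le (pb_le hν m) z
  have hP1 : ∀ z, ‖pb a b 1 N z‖ ≤ 1 := pb_le hN1 1
  have hPm : Measurable (pb a b 1 N) := pb_meas hNm 1
  -- the two integrands
  have hI1 : IntegrableOn (fun w => ((‖deriv ψ w‖ ^ 2 : ℝ) : ℂ) * (α (ψ w) * (N (ψ w) - pb a b 1 N (ψ w)))) S := by
    refine Integrable.mono' ((hint.norm).const_mul 2) ?_ (Filter.Eventually.of_forall fun w => ?_)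
    · refine AEMeasurable.aestronglyMeasurable ?_
      refine AEMeasurable.mul ?_ ?_
      · exact (Complex.measurable_ofReal.comp ((hDm.norm).pow_const 2)).aemeasurable
      · exact (hm.comp_aemeasurable hψm).mul ((hNm.comp_aemeasurable hψm).sub (hPm.comp_aemeasurable hψm))
    · rw [norm_mul, norm_mul, hnrm, Complex.norm_real, Real.norm_eq_abs, abs_of_nonneg (by positivity)]
      have h1 : ‖N (ψ w) - pb a b 1 N (ψ w)‖ ≤ 2 := (norm_sub_le _ _).trans (by linarith [hN1 (ψ w), hP1 (ψ w)])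
      have h2 : 0 ≤ ‖deriv ψ w‖ ^ 2 * ‖α (ψ w)‖ := by positivity
      calc ‖deriv ψ w‖ ^ 2 * (‖α (ψ w)‖ * ‖N (ψ w) - pb a b 1 N (ψ w)‖) =
          (‖deriv ψ w‖ ^ 2 * ‖α (ψ w)‖) * ‖N (ψ w) - pb a b 1 N (ψ w)‖ := by ring
        _ ≤ (‖deriv ψ w‖ ^ 2 * ‖α (ψ w)‖) * 2 := mul_le_mul_of_nonneg_left h1 h2
        _ = 2 * (‖deriv ψ w‖ ^ 2 * ‖α (ψ w)‖) := by ring
  have hI2 : IntegrableOn (fun w => deriv ψ w ^ 2 * α (ψ w) * (ν w - N w)) S := by
    refine Integrable.mono' ((hint.norm).const_mul 2) ?_ (Filter.Eventually.of_forall fun w => ?_)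
    · exact (hαψ.mul (hνm.sub hNm).aemeasurable).aestronglyMeasurable
    · rw [norm_mul]
      have h1 : ‖ν w - N w‖ ≤ 2 := (norm_sub_le _ _).trans (by linarith [hN1 w, hν w])
      calc ‖deriv ψ w ^ 2 * α (ψ w)‖ * ‖ν w - N w‖ ≤ ‖deriv ψ w ^ 2 * α (ψ w)‖ * 2 :=
            mul_le_mul_of_nonneg_left h1 (norm_nonneg _)
        _ = 2 * ‖deriv ψ w ^ 2 * α (ψ w)‖ := by ring
  have hcv : ∫ z in ψ '' S, α z * (N z - pb a b 1 N z) =
      ∫ w in S, ((‖deriv ψ w‖ ^ 2 : ℝ) : ℂ) * (α (ψ w) * (N (ψ w) - pb a b 1 N (ψ w))) := by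
    rw [integral_image_eq_integral_abs_det_fderiv_smul volume hSm hder hi]
    refine setIntegral_congr_fun hSm fun w _ => ?_
    beta_reduce
    rw [abs_det_smulRight, Complex.real_smul]
  rw [hcv, ← integral_sub hI1 hI2]
  have hpt : ∀ w ∈ S, ‖((‖deriv ψ w‖ ^ 2 : ℝ) : ℂ) * (α (ψ w) * (N (ψ w) - pb a b 1 N (ψ w))) -
      deriv ψ w ^ 2 * α (ψ w) * (ν w - N w)‖ ≤ E.indicator (fun w => 2 * ‖deriv ψ w ^ 2 * α (ψ w)‖) w := by
    intro w hw
    have hzU : ψ w ∈ ψ '' S := ⟨w, hw, rfl⟩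
    have hNz : N (ψ w) = ν w * ((starRingEnd ℂ) (tD a b m (ψ w)) / tD a b m (ψ w)) := by
      rw [hN, ff_in _ hzU]
      show ν ((gg a b)^[m] (ψ w)) * _ = _
      rw [hg w hw]
    have e1 : ((‖deriv ψ w‖ ^ 2 : ℝ) : ℂ) * (α (ψ w) * N (ψ w)) = deriv ψ w ^ 2 * (α (ψ w) * ν w) := by
      rw [← conj_id (ht w hw), hNz]
      ring
    have e2 : ((‖deriv ψ w‖ ^ 2 : ℝ) : ℂ) * (α (ψ w) * (N (ψ w) - pb a b 1 N (ψ w))) -
        deriv ψ w ^ 2 * α (ψ w) * (ν w - N w) =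
        deriv ψ w ^ 2 * α (ψ w) * N w - ((‖deriv ψ w‖ ^ 2 : ℝ) : ℂ) * (α (ψ w) * pb a b 1 N (ψ w)) := by
      linear_combination e1
    rw [e2]
    by_cases hwE : w ∈ E
    · rw [Set.indicator_of_mem hwE]
      refine (norm_sub_le _ _).trans ?_
      have h1 : ‖deriv ψ w ^ 2 * α (ψ w) * N w‖ ≤ ‖deriv ψ w ^ 2 * α (ψ w)‖ := by
        rw [norm_mul]
        exact mul_le_of_le_one_right (norm_nonneg _) (hN1 w)
      have h2 : ‖((‖deriv ψ w‖ ^ 2 : ℝ) : ℂ) * (α (ψ w) * pb a b 1 N (ψ w))‖ ≤ ‖deriv ψ w ^ 2 * α (ψ w)‖ := by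
        rw [norm_mul, norm_mul, hnrm, Complex.norm_real, Real.norm_eq_abs, abs_of_nonneg (by positivity)]
        refine mul_le_mul_of_nonneg_left ?_ (by positivity)
        exact mul_le_of_le_one_right (norm_nonneg _) (hP1 _)
      linarith
    · rw [Set.indicator_of_notMem hwE]
      obtain ⟨m', rfl⟩ : ∃ m', m = m' + 1 := ⟨m - 1, by omega⟩
      have h1 : N (gg a b (ψ w)) = pb a b m' N (gg a b (ψ w)) := by
        rw [hN]
        refine ff_it _ fun i hi' => ⟨?_, fun h2 => hwE ?_⟩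
        · have := hb w hw (i + 1) (by omega)
          rwa [Function.iterate_succ_apply] at this
        · rw [hE]
          refine ⟨hw, i + 1, by omega, by omega, ?_⟩
          rw [Function.iterate_succ_apply]
          exact h2
      have h2 : pb a b 1 N (ψ w) = N w * ((starRingEnd ℂ) (tD a b (m' + 1) (ψ w)) / tD a b (m' + 1) (ψ w)) := by
        have h3 : pb a b 1 N (ψ w) = pb a b 1 (pb a b m' N) (ψ w) := by
          show N ((gg a b)^[1] (ψ w)) * _ = pb a b m' N ((gg a b)^[1] (ψ w)) * _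
          have h4 : (gg a b)^[1] (ψ w) = gg a b (ψ w) := rfl
          rw [h4, ← h1]
        rw [h3, ← pb_add, add_comm 1 m']
        show N ((gg a b)^[m' + 1] (ψ w)) * _ = _
        rw [hg w hw]
      have h3 : ((‖deriv ψ w‖ ^ 2 : ℝ) : ℂ) * (α (ψ w) * pb a b 1 N (ψ w)) = deriv ψ w ^ 2 * (α (ψ w) * N w) := by
        rw [← conj_id (ht w hw), h2]
        ring
      rw [h3]
      have h4 : deriv ψ w ^ 2 * α (ψ w) * N w - deriv ψ w ^ 2 * (α (ψ w) * N w) = 0 := by ring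
      rw [h4, norm_zero]
  have hbd : ∫ w in S, E.indicator (fun w => 2 * ‖deriv ψ w ^ 2 * α (ψ w)‖) w =
      2 * ∫ w in E, ‖deriv ψ w ^ 2 * α (ψ w)‖ := by
    rw [setIntegral_indicator hEm, Set.inter_eq_self_of_subset_right hES, integral_const_mul]
  rw [← hbd]
  refine norm_integral_le_of_norm_le ?_ ?_
  · exact ((hint.norm).const_mul 2).indicator hEm
  · rw [ae_restrict_iff' hSm]
    exact Filter.Eventually.of_forall hpt

end Pool.Agent.H78.NS
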