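import Pool.Agent.H78.NS.MDU

/-!
# Module ERA: the area of the returns at time `k`

PROOF. `C = 4 π KK ^ 4 ρ0 ^ 2`. `P i = gg^[i] v`, `r i = Dk i / Dk (n j)` (positive), `ψ i = ps (G j) i`, `S = ball w0 ρ0 ⊆ closedBall (P (n j)) (δ / 4)` (`mdu1`), `E = {w ∈ S | ψ (s+k) w ∈ ψ s '' S}` (`ψ (s+k)` continuous on `S`, `ψ s '' S` open or measurable, so `E` is measurable; or bound the outer measure of the measurable hull).
`ψ (s+k)` is holomorphic and injective on `S` with `‖deriv‖ ≥ r (s+k) / KK` (`skb4`): `volume (ψ (s+k) '' E) = ∫⁻ w in E, ofReal (‖deriv (ψ (s+k)) w‖ ^ 2) ≥ ofReal ((r (s+k) / KK) ^ 2) * volume E` (`lintegral_image_eq_lintegral_abs_det_fderiv_mul` with the constant 1, `abs_det_smulRight` of H61/TT/Area).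
`ψ (s+k) '' E ⊆ ψ s '' S ⊆ closedBall (ψ s w0) (KK r s ρ0)` (`skb1`), of measure at most `π (KK r s ρ0) ^ 2` (`Complex.volume_closedBall`). So `volume E ≤ π KK ^ 4 ρ0 ^ 2 (r s / r (s+k)) ^ 2` and `r s / r (s+k) = Dk s / Dk (s+k)`.
-/

set_option autoImplicit false

open Filter Topology Polynomial Metric Set MeasureTheory

namespace Pool.Agent.H78.NS

open Pool.Agent.H44.Fatou (rat)
open Pool.Agent.H80.AJ (Br KK)
open Pool.Agent.H61.TT Pool.Agent.H57.CP Pool.Agent.H3.NC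
open Pool.Agent.H1.PU (KA)

variable {d : ℕ} {a b : Polynomial ℂ} {L0 θ δ : ℝ} {v y x0 : ℂ} {n s : ℕ → ℕ} {G : ℕ → ℂ → ℂ}

/-- a map which expands distances on `E` by `1 / K`: the area of `E` is at most `K ^ 2` times that of its image -/
private theorem vol_anti {f : ℂ → ℂ} {E T : Set ℂ} {K0 : ℝ} (hK0 : 0 ≤ K0)
    (hf0 : ∀ u ∈ E, ∀ u' ∈ E, ‖u - u'‖ ≤ K0 * ‖f u - f u'‖) (hT : f '' E ⊆ T) :
    volume E ≤ ENNReal.ofReal K0 ^ 2 * volume T := by
  obtain ⟨K, hK⟩ : ∃ K : NNReal, (K : ℝ) = K0 := ⟨⟨K0, hK0⟩, rfl⟩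
  have hf : ∀ u ∈ E, ∀ u' ∈ E, ‖u - u'‖ ≤ K * ‖f u - f u'‖ := by rw [hK]; exact hf0
  rw [← hK, ENNReal.ofReal_coe_nnreal]
  have hinj : InjOn f E := by
    intro u hu u' hu' he
    have h1 := hf u hu u' hu'
    rw [he, sub_self, norm_zero, mul_zero] at h1
    exact sub_eq_zero.1 (norm_le_zero_iff.1 h1)
  have hl : LipschitzOnWith K (Function.invFunOn f E) (f '' E) := by
    refine LipschitzOnWith.of_dist_le_mul ?_
    rintro _ ⟨u, hu, rfl⟩ _ ⟨u', hu', rfl⟩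
    rw [hinj.leftInvOn_invFunOn hu, hinj.leftInvOn_invFunOn hu', dist_eq_norm, dist_eq_norm]
    exact hf u hu u' hu'
  have him : Function.invFunOn f E '' (f '' E) = E := by
    exact hinj.leftInvOn_invFunOn.image_image
  haveI hH : (Measure.hausdorffMeasure (2 : ℝ) : Measure ℂ).IsAddHaarMeasure := by
    have h2 := @isAddHaarMeasure_hausdorffMeasure ℂ _ _ _ _ _
    rw [Complex.finrank_real_complex] at h2
    exact_mod_cast h2
  have h1 := hl.hausdorffMeasure_image_le (d := 2) (by norm_num)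
  rw [him] at h1
  have hv := Measure.isAddLeftInvariant_eq_smul (volume : Measure ℂ) (Measure.hausdorffMeasure (2 : ℝ) : Measure ℂ)
  rw [hv, Measure.smul_apply, Measure.smul_apply, ENNReal.smul_def, ENNReal.smul_def, smul_eq_mul, smul_eq_mul]
  have h3 : (K : ENNReal) ^ (2 : ℝ) = (K : ENNReal) ^ 2 := by
    rw [← ENNReal.rpow_natCast]
    norm_num
  rw [h3] at h1
  calc _ ≤ _ * ((K : ENNReal) ^ 2 * Measure.hausdorffMeasure (2 : ℝ) (f '' E)) := mul_le_mul_right h1 _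
    _ ≤ _ * ((K : ENNReal) ^ 2 * Measure.hausdorffMeasure (2 : ℝ) T) :=
        mul_le_mul_right (mul_le_mul_right (measure_mono hT) _) _
    _ = _ := by ring

theorem era (h : SP d a b L0 θ) (hs : SQS a b v y x0 δ n s G) {w0 : ℂ} {ρ0 : ℝ} (hρ : 0 < ρ0)
    (hsub : ball w0 (2 * ρ0) ⊆ ball y (δ / 8)) : ∃ C : ℝ, 0 ≤ C ∧ ∀ᶠ j in atTop, ∀ k : ℕ, k < n j - s j →
      volume {w | w ∈ ball w0 ρ0 ∧ ps a b (G j) (s j + k) w ∈ ps a b (G j) (s j) '' ball w0 ρ0} ≤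
        ENNReal.ofReal (C * (Dk a b v (s j) / Dk a b v (s j + k)) ^ 2) := by
  have hK := Pool.Agent.H80.AJ.KK_pos
  have hδ := hs.hδ
  refine ⟨256 * KK ^ 4 * ρ0 ^ 2 * Real.pi, by positivity, ?_⟩
  have hSs : ball w0 ρ0 ⊆ ball y (δ / 8) := (ball_subset_ball (by linarith)).trans hsub
  filter_upwards [mdu1 h hs hSs] with j hj k hk
  obtain ⟨hSc, -⟩ := hj
  have hcal := hs.cal j
  have hsk : s j + k ≤ n j := by omega
  have hsj : s j ≤ n j := by omega
  have hp0 := hs.sq.pos j (s j) hsj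
  have hp1 := hs.sq.pos j (s j + k) hsk
  have hpn := hs.sq.pos j (n j) le_rfl
  set r0 := Dk a b v (s j) with hr0
  set r1 := Dk a b v (s j + k) with hr1
  set rn := Dk a b v (n j) with hrn
  have hKn : 0 ≤ 16 * KK * (rn / r1) := by positivity
  have hw0 : w0 ∈ ball w0 ρ0 := mem_ball_self hρ
  have h2 : closedBall ((gg a b)^[n j] v) (δ / 4) ⊆ closedBall ((gg a b)^[n j] v) (δ / 2) :=
    closedBall_subset_closedBall (by linarith)
  have key := vol_anti (f := ps a b (G j) (s j + k))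
    (E := {w | w ∈ ball w0 ρ0 ∧ ps a b (G j) (s j + k) w ∈ ps a b (G j) (s j) '' ball w0 ρ0})
    (T := closedBall (ps a b (G j) (s j) w0) (KK * (r0 / rn) * ρ0)) (K0 := 16 * KK * (rn / r1)) hKn ?_ ?_
  · refine key.trans (le_of_eq ?_)
    rw [Complex.volume_closedBall]
    have e2 : (NNReal.pi : ENNReal) = ENNReal.ofReal Real.pi := by
      rw [← NNReal.coe_real_pi, ENNReal.ofReal_coe_nnreal]
    rw [e2, ← ENNReal.ofReal_pow hKn, ← ENNReal.ofReal_pow (by positivity), ← ENNReal.ofReal_mul (by positivity),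
      ← ENNReal.ofReal_mul (by positivity)]
    congr 1
    field_simp
    ring
  · rintro u ⟨hu, -⟩ u' ⟨hu', -⟩
    have h5 := skb5 h hδ hcal hsk (hSc hu) (hSc hu')
    calc ‖u - u'‖ = 16 * KK * (rn / r1) * (r1 / rn / (16 * KK) * ‖u - u'‖) := by field_simp
      _ ≤ _ := mul_le_mul_of_nonneg_left h5 hKn
  · rintro _ ⟨u, ⟨hu, u', hu', he⟩, rfl⟩
    rw [← he, mem_closedBall, dist_eq_norm]
    refine (skb1 h hδ hcal hsj (h2 (hSc hu')) (h2 (hSc hw0))).trans ?_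
    refine mul_le_mul_of_nonneg_left ?_ (by positivity)
    rw [mem_ball, dist_eq_norm] at hu'
    exact hu'.le

end Pool.Agent.H78.NS
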