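import Pool.Agent.H78.NS.MDU

/-!
# Module ERC: no return at a fixed time `k`

PROOF. `ψ = ps (G j) (s j)`, `S = ball w0 ρ0`, `ps (G j) (s j + k) w = gg^[k] (ψ w)` (`ps_add`). Eventually `k < n j - s j` (`hs.sq.ns`), so the orbit of `ψ w` has no poles up to the time `k` (`mdu1`) and `(rat a b)^[k] (ψ w) = gg^[k] (ψ w)` (`rat_it`, H57/CP/BAS).
CASE `(rat a b)^[k] x0 ≠ x0` in the sphere: `(rat a b)^[k]` is continuous (`rat_continuous`, coprime), so there are `ε > 0` and a neighbourhood `V` of `x0` with `(rat a b)^[k] z ∉ coe '' ball x0 ε` for `z ∈ V`; eventually `ψ w ∈ V` and `ψ w' ∈ ball x0 ε` for all `w, w' ∈ S` (`mdu2`).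
CASE `(rat a b)^[k] x0 = x0`: `ε` from `hκ.2 k`. Eventually `‖ψ w - x0‖ < ε` for `w ∈ S`. If `gg^[k] (ψ w) = ψ w'`, `w, w' ∈ S`: `(1 + κ) ‖ψ w - x0‖ ≤ ‖ψ w' - x0‖ ≤ ‖ψ w' - ψ w‖ + ‖ψ w - x0‖`, so `κ ‖ψ w - x0‖ ≤ ‖ψ w - ψ w'‖`, against `sep`.
-/

set_option autoImplicit false

open Filter Topology Polynomial Metric Set MeasureTheory

namespace Pool.Agent.H78.NS

open Pool.Agent.H44.Fatou (rat)
open Pool.Agent.H80.AJ (Br KK)
open Pool.Agent.H61.TT Pool.Agent.H57.CP Pool.Agent.H3.NC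
open Pool.Agent.H1.PU (KA)

variable {d : ℕ} {a b : Polynomial ℂ} {L0 θ δ : ℝ} {v y x0 : ℂ} {n s : ℕ → ℕ} {G : ℕ → ℂ → ℂ}

theorem erc (h : SP d a b L0 θ) (hs : SQS a b v y x0 δ n s G) {w0 : ℂ} {ρ0 κ : ℝ}
    (hsub : ball w0 (2 * ρ0) ⊆ ball y (δ / 8)) (hρ : 0 < ρ0) (hκ : Kap a b x0 κ)
    (sep : ∀ᶠ j in atTop, ∀ w ∈ ball w0 ρ0, ∀ w' ∈ ball w0 ρ0,
      ‖ps a b (G j) (s j) w - ps a b (G j) (s j) w'‖ < κ * ‖ps a b (G j) (s j) w - x0‖) {k : ℕ} (hk : 0 < k) :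
    ∀ᶠ j in atTop, ∀ w ∈ ball w0 ρ0, ps a b (G j) (s j + k) w ∉ ps a b (G j) (s j) '' ball w0 ρ0 := by
  have hS : ball w0 ρ0 ⊆ ball y (δ / 8) :=
    (ball_subset_ball (by linarith)).trans hsub
  have hk' : ∀ᶠ j in atTop, k < n j - s j := hs.sq.ns.eventually_gt_atTop k
  by_cases hx : (rat a b)^[k] (x0 : OnePoint ℂ) = (x0 : OnePoint ℂ)
  · obtain ⟨ε, hε, hexp⟩ := hκ.2 k hk hx
    filter_upwards [mdu2 h hs hS hε, sep] with j h2 h3 w hw
    rintro ⟨w', hw', he⟩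
    rw [ps_add] at he
    have h4 := hexp _ (h2 w hw)
    rw [← he] at h4
    have h5 := h3 w hw w' hw'
    have h6 : ‖ps a b (G j) (s j) w' - x0‖ ≤
        ‖ps a b (G j) (s j) w - ps a b (G j) (s j) w'‖ + ‖ps a b (G j) (s j) w - x0‖ := by
      rw [norm_sub_rev (ps a b (G j) (s j) w)]
      have e : ps a b (G j) (s j) w' - x0 = (ps a b (G j) (s j) w' - ps a b (G j) (s j) w) +
          (ps a b (G j) (s j) w - x0) := by ring
      rw [e]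
      exact norm_add_le _ _
    linarith
  · have hcont : Continuous (fun z : ℂ => (rat a b)^[k] (z : OnePoint ℂ)) :=
      ((Pool.Agent.H44.Fatou.rat_continuous h.rt.cop).iterate k).comp
        OnePoint.continuous_coe
    obtain ⟨U, V, hU, hV, hxU, hxV, hd⟩ := t2_separation hx
    have hU' : (fun z : ℂ => (rat a b)^[k] (z : OnePoint ℂ)) ⁻¹' U ∈ 𝓝 x0 :=
      hcont.continuousAt.preimage_mem_nhds (hU.mem_nhds hxU)
    have hV' : (fun z : ℂ => (z : OnePoint ℂ)) ⁻¹' V ∈ 𝓝 x0 :=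
      OnePoint.continuous_coe.continuousAt.preimage_mem_nhds (hV.mem_nhds hxV)
    obtain ⟨ε, hε, hball⟩ := Metric.mem_nhds_iff.1 (Filter.inter_mem hU' hV')
    filter_upwards [mdu2 h hs hS hε, mdu1 h hs hS, hk'] with j h2 h1 h3 w hw
    rintro ⟨w', hw', he⟩
    rw [ps_add] at he
    have h4 := (hball (mem_ball_iff_norm.2 (h2 w hw))).1
    have h5 := (hball (mem_ball_iff_norm.2 (h2 w' hw'))).2
    have h6 : (rat a b)^[k] ((ps a b (G j) (s j) w : ℂ) : OnePoint ℂ) =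
        (((gg a b)^[k] (ps a b (G j) (s j) w) : ℂ) : OnePoint ℂ) :=
      rat_it (n := k) (fun i hi => h1.2.2.2.2.1 w hw i (hi.trans h3)) k le_rfl
    rw [Set.mem_preimage] at h4 h5
    rw [h6, ← he] at h4
    exact Set.disjoint_left.1 hd h4 h5

end Pool.Agent.H78.NS
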