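import Pool.Agent.H78.NS.ERL
import Pool.Agent.H78.NS.ERA
import Pool.Agent.H78.NS.ERC
import Pool.Agent.H3.NC.CNT

/-!
# Module ERT: the early returns have small area

PROOF. `S = ball w0 ρ0`, `E k = {w ∈ S | ps (G j) (s j + k) w ∈ ps (G j) (s j) '' S}`: `EN .. ⊆ ⋃_(0 < k < n j - s j) E k` (`ps_add`: `ps (s + k) w = gg^[k] (ps s w)`). `x k = Dk (s j) / Dk (s j + k)`, `0 ≤ x k ≤ 1` for `s j + k < n j` (`hd.sqs.sq.mn`, `pos`).
`C` from `era`, `N2` from `erl` with `K = 2`. Let `K ≥ 1`, `N1` from `erl` with `K`. Eventually: for `0 < k ≤ N1` `E k = ∅` (`erc`, finitely many `k`). `I = {k | N1 < k < n j - s j, E k ≠ ∅}` (finite set, filter of a range): for `k ∈ I`, `erl` for the pair `0 < k` (`E 0 ≠ ∅`: `w0`) gives `x k ≤ 1 / K`;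
for `k, l ∈ I`, `N2 < l - k`: `2 x l ≤ x k` (`erl` with 2, `Dk > 0`). `cnt` (H3/NC/CNT) with `ε = 1 / K`, `N = N2`: `∑_I x k ≤ 2 (N2 + 1) / K`. `volume (EN ..) ≤ ∑_(k ∈ I) volume (E k) ≤ ∑_I ofReal (C (x k) ^ 2) ≤ ofReal (C 2 (N2 + 1) / K)` (`(x k) ^ 2 ≤ x k`; `measure_biUnion_finset_le`). `K` is arbitrary: the limit is `0` (`ENNReal.tendsto_atTop_zero` or `tendsto_order`).
-/

set_option autoImplicit false

open Filter Topology Polynomial Metric Set MeasureTheory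

namespace Pool.Agent.H78.NS

open Pool.Agent.H44.Fatou (rat)
open Pool.Agent.H80.AJ (Br KK)
open Pool.Agent.H61.TT Pool.Agent.H57.CP Pool.Agent.H3.NC
open Pool.Agent.H1.PU (KA)

variable {d : ℕ} {a b : Polynomial ℂ} {L0 θ δ ρ0 κ : ℝ} {v y x0 w0 : ℂ} {n s : ℕ → ℕ} {G : ℕ → ℂ → ℂ} {M : ℕ → ℝ}
  {q : ℂ → ℂ}

open Classical in
/-- the bound for a fixed `K` -/
private theorem ert_bd (h : SP d a b L0 θ) (hd : SD a b v y x0 δ n s G M w0 ρ0 κ q) {C : ℝ}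
    (hC : ∀ᶠ j in atTop, ∀ k : ℕ, k < n j - s j →
      volume {w | w ∈ ball w0 ρ0 ∧ ps a b (G j) (s j + k) w ∈ ps a b (G j) (s j) '' ball w0 ρ0} ≤
        ENNReal.ofReal (C * (Dk a b v (s j) / Dk a b v (s j + k)) ^ 2)) (hC0 : 0 ≤ C) {N2 : ℕ}
    (hN2 : ∀ᶠ j in atTop, ∀ k l : ℕ, k < l → l < n j - s j → N2 < l - k →
      (∃ w ∈ ball w0 ρ0, ps a b (G j) (s j + k) w ∈ ps a b (G j) (s j) '' ball w0 ρ0) →
      (∃ w ∈ ball w0 ρ0, ps a b (G j) (s j + l) w ∈ ps a b (G j) (s j) '' ball w0 ρ0) →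
      2 * Dk a b v (s j + k) ≤ Dk a b v (s j + l)) {K : ℝ} (hK : 1 ≤ K) :
    ∀ᶠ j in atTop, volume (EN a b (G j) (n j) (s j) (ball w0 ρ0)) ≤
      ENNReal.ofReal (C * (2 * (N2 + 1) * (1 / K))) := by
  have hK0 : 0 < K := by linarith
  have hw0 : w0 ∈ ball w0 ρ0 := mem_ball_self hd.hρ
  obtain ⟨N1, hN1⟩ := erl h hd.sqs hd.hρ hd.hρs hd.sub hK
  have h0 : ∀ᶠ j in atTop, ∀ k ∈ Finset.range (N1 + 1), 0 < k →
      ∀ w ∈ ball w0 ρ0, ps a b (G j) (s j + k) w ∉ ps a b (G j) (s j) '' ball w0 ρ0 := by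
    rw [Filter.eventually_all_finset]
    intro k _
    rcases Nat.eq_zero_or_pos k with hk | hk
    · exact Eventually.of_forall fun j hk' => absurd hk (by omega)
    · filter_upwards [erc h hd.sqs hd.sub hd.hρ hd.kap hd.sep hk] with j hj _
      exact hj
  filter_upwards [hC, hN2, hN1, h0] with j hCj h2j h1j h0j
  obtain ⟨E, hE⟩ : ∃ E : ℕ → Set ℂ, ∀ k, E k = {w | w ∈ ball w0 ρ0 ∧
      ps a b (G j) (s j + k) w ∈ ps a b (G j) (s j) '' ball w0 ρ0} := ⟨_, fun _ => rfl⟩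
  obtain ⟨x, hx⟩ : ∃ x : ℕ → ℝ, ∀ k, x k = Dk a b v (s j) / Dk a b v (s j + k) := ⟨_, fun _ => rfl⟩
  obtain ⟨I, hI⟩ : ∃ I : Finset ℕ, I = (Finset.range (n j - s j)).filter (fun k => N1 < k ∧
      ∃ w ∈ ball w0 ρ0, ps a b (G j) (s j + k) w ∈ ps a b (G j) (s j) '' ball w0 ρ0) := ⟨_, rfl⟩
  have hIm : ∀ k, k ∈ I ↔ k < n j - s j ∧ N1 < k ∧
      ∃ w ∈ ball w0 ρ0, ps a b (G j) (s j + k) w ∈ ps a b (G j) (s j) '' ball w0 ρ0 := by
    intro k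
    rw [hI, Finset.mem_filter, Finset.mem_range]
  have hlt := hd.sqs.sq.lt j
  have hp0 : 0 < Dk a b v (s j) := hd.sqs.sq.pos j (s j) hlt.le
  have hp : ∀ k ∈ I, 0 < Dk a b v (s j + k) := by
    intro k hk
    have h1 := ((hIm k).1 hk).1
    exact hd.sqs.sq.pos j (s j + k) (by omega)
  have hx0 : ∀ k ∈ I, 0 ≤ x k := by
    intro k hk
    rw [hx]
    exact (div_pos hp0 (hp k hk)).le
  have hxK : ∀ k ∈ I, x k ≤ 1 / K := by
    intro k hk
    obtain ⟨h1, h2, h3⟩ := (hIm k).1 hk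
    have h4 := h1j 0 k (by omega) h1 (by omega) ⟨w0, hw0, w0, hw0, rfl⟩ h3
    rw [add_zero] at h4
    rw [hx, div_le_div_iff₀ (hp k hk) hK0]
    linarith
  have hx2 : ∀ k ∈ I, ∀ l ∈ I, N2 < l - k → 2 * x l ≤ x k := by
    intro k hk l hl hkl
    obtain ⟨h1, h2, h3⟩ := (hIm k).1 hk
    obtain ⟨h4, h5, h6⟩ := (hIm l).1 hl
    have h7 := h2j k l (by omega) h4 hkl h3 h6
    rw [hx, hx, ← mul_div_assoc, div_le_div_iff₀ (hp l hl) (hp k hk)]
    nlinarith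
  have hsum := cnt (I := I) (x := x) (N := N2) (ε := 1 / K) (by positivity) hx0 hxK hx2
  have hsub : EN a b (G j) (n j) (s j) (ball w0 ρ0) ⊆ ⋃ k ∈ I, E k := by
    rintro w ⟨hw, k, hk0, hk1, hk2⟩
    rw [← ps_add] at hk2
    rw [Set.mem_iUnion₂]
    refine ⟨k, ?_, ?_⟩
    · rw [hIm]
      refine ⟨hk1, ?_, w, hw, hk2⟩
      by_contra hcon
      exact h0j k (Finset.mem_range.2 (by omega)) hk0 w hw hk2
    · rw [hE]
      exact ⟨hw, hk2⟩
  calc volume (EN a b (G j) (n j) (s j) (ball w0 ρ0))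
      ≤ volume (⋃ k ∈ I, E k) := measure_mono hsub
    _ ≤ ∑ k ∈ I, volume (E k) := measure_biUnion_finset_le I E
    _ ≤ ∑ k ∈ I, ENNReal.ofReal (C * x k) := by
        refine Finset.sum_le_sum fun k hk => ?_
        have h1 := hCj k ((hIm k).1 hk).1
        rw [← hE, ← hx] at h1
        refine h1.trans (ENNReal.ofReal_le_ofReal (mul_le_mul_of_nonneg_left ?_ hC0))
        have h2 := hx0 k hk
        have h3 : x k ≤ 1 := (hxK k hk).trans (by rw [div_le_one hK0]; exact hK)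
        nlinarith
    _ = ENNReal.ofReal (∑ k ∈ I, C * x k) :=
        (ENNReal.ofReal_sum_of_nonneg fun k hk => mul_nonneg hC0 (hx0 k hk)).symm
    _ ≤ ENNReal.ofReal (C * (2 * (N2 + 1) * (1 / K))) := by
        refine ENNReal.ofReal_le_ofReal ?_
        rw [← Finset.mul_sum]
        exact mul_le_mul_of_nonneg_left hsum hC0

theorem ert (h : SP d a b L0 θ) (hd : SD a b v y x0 δ n s G M w0 ρ0 κ q) :
    Tendsto (fun j => volume (EN a b (G j) (n j) (s j) (ball w0 ρ0))) atTop (𝓝 0) := by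
  obtain ⟨C, hC0, hC⟩ := era h hd.sqs hd.hρ hd.sub
  obtain ⟨N2, hN2⟩ := erl h hd.sqs hd.hρ hd.hρs hd.sub one_le_two
  rw [ENNReal.tendsto_nhds_zero]
  intro ε hε
  have h1 : Tendsto (fun K : ℝ => ENNReal.ofReal (C * (2 * ((N2 : ℝ) + 1) * (1 / K)))) atTop (𝓝 0) := by
    have h2 : Tendsto (fun K : ℝ => C * (2 * ((N2 : ℝ) + 1) * (1 / K))) atTop
        (𝓝 (C * (2 * ((N2 : ℝ) + 1) * 0))) := by
      exact Tendsto.const_mul C (Tendsto.const_mul _ (tendsto_const_nhds.div_atTop tendsto_id))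
    rw [mul_zero, mul_zero] at h2
    have h3 := (ENNReal.continuous_ofReal.tendsto 0).comp h2
    rw [ENNReal.ofReal_zero] at h3
    exact h3
  obtain ⟨K, hK1, hK2⟩ := ((eventually_ge_atTop (1 : ℝ)).and ((ENNReal.tendsto_nhds_zero.1 h1) ε hε)).exists
  filter_upwards [ert_bd h hd hC hC0 hN2 hK1] with j hj
  exact hj.trans hK2

end Pool.Agent.H78.NS
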