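import Pool.Agent.H78.NS.NUD

/-!
# Module L2C: the fields tend to `ν` in `L ^ 2(S)`

PROOF. `ν = nu q S`, on `S`: `ν = conj q / ‖q‖`, so `q ν = ‖q‖`, `q = ‖q‖ conj ν`, `‖ν‖ = 1`. `D j = ∫⁻ w in S, ‖c j w / M j - q w‖ₑ → 0`. `‖∫_S c j (ν - N j)‖ / M j ≤ (‖I j‖ + 2 ∫_(E j) ‖c j‖) / M j ≤ ‖I j‖ + 2 ∫_(E j) ‖c j / M j‖ ≤ ‖I j‖ + 2 D j + 2 B volume (E j) → 0` (`M j ≥ 1`).
`‖∫_S q (ν - N j)‖ ≤ ‖∫_S (c j / M j) (ν - N j)‖ + 2 D j → 0`. For `w ∈ S`, `N = N j w`: `Re (q (ν - N)) = ‖q‖ (1 - Re (N conj ν)) ≥ κ (1 - Re (N conj ν))` (the bracket is `≥ 0`) and `‖N - ν‖ ^ 2 = ‖N‖ ^ 2 + 1 - 2 Re (N conj ν) ≤ 2 (1 - Re (N conj ν))`. So `∫_S ‖N j - ν‖ ^ 2 ≤ (2 / κ) Re ∫_S q (ν - N j) → 0`.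
(Everything is integrable on `S`: bounded measurable functions on a set of finite measure. `∫⁻` of `‖.‖ₑ ^ 2` is `ENNReal.ofReal` of the integral: `ofReal_integral_eq_lintegral_ofReal`.)
-/

set_option autoImplicit false

open Filter Topology Polynomial Metric Set MeasureTheory

namespace Pool.Agent.H78.NS

open Pool.Agent.H44.Fatou (rat)
open Pool.Agent.H80.AJ (Br KK)
open Pool.Agent.H61.TT Pool.Agent.H57.CP Pool.Agent.H3.NC
open Pool.Agent.H1.PU (KA)

private theorem l2c_pt {q N : ℂ} {κ : ℝ} (hκ : 0 < κ) (hq : κ ≤ ‖q‖) (hN : ‖N‖ ≤ 1) :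
    ‖N - (starRingEnd ℂ) q / (‖q‖ : ℂ)‖ ^ 2 ≤
      2 / κ * (q * ((starRingEnd ℂ) q / (‖q‖ : ℂ) - N)).re := by
  have hr : 0 < ‖q‖ := lt_of_lt_of_le hκ hq
  have hrc : (‖q‖ : ℂ) ≠ 0 := by
    rw [Ne, Complex.ofReal_eq_zero]
    exact hr.ne'
  set ν : ℂ := (starRingEnd ℂ) q / (‖q‖ : ℂ) with hν
  have hν1 : ‖ν‖ = 1 := by
    rw [hν, norm_div, RCLike.norm_conj, Complex.norm_real, norm_norm, div_self hr.ne']
  have hcν : (starRingEnd ℂ) ν = q / (‖q‖ : ℂ) := by
    rw [hν, map_div₀, Complex.conj_conj, Complex.conj_ofReal]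
  have hqν : q = (‖q‖ : ℂ) * (starRingEnd ℂ) ν := by
    rw [hcν]
    field_simp
  have hX : (N * (starRingEnd ℂ) ν).re ≤ 1 := by
    refine (Complex.re_le_norm _).trans ?_
    rw [norm_mul, RCLike.norm_conj, hν1, mul_one]
    exact hN
  have h1 : (q * (ν - N)).re = ‖q‖ * (1 - (N * (starRingEnd ℂ) ν).re) := by
    have e1 : q * (ν - N) = (‖q‖ : ℂ) * ((starRingEnd ℂ) ν * ν - N * (starRingEnd ℂ) ν) := by
      conv_lhs => rw [hqν]
      ring
    have e2 : (starRingEnd ℂ) ν * ν = 1 := by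
      rw [mul_comm, Complex.mul_conj, Complex.normSq_eq_norm_sq, hν1]
      norm_num
    rw [e1, e2, Complex.re_ofReal_mul, Complex.sub_re, Complex.one_re]
  have h2 : ‖N - ν‖ ^ 2 ≤ 2 * (1 - (N * (starRingEnd ℂ) ν).re) := by
    rw [← Complex.normSq_eq_norm_sq, Complex.normSq_sub, Complex.normSq_eq_norm_sq,
      Complex.normSq_eq_norm_sq, hν1]
    nlinarith [norm_nonneg N]
  rw [h1]
  refine h2.trans ?_
  have h3 : 2 / κ * (‖q‖ * (1 - (N * (starRingEnd ℂ) ν).re)) =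
      2 * (1 - (N * (starRingEnd ℂ) ν).re) * (‖q‖ / κ) := by
    field_simp
  rw [h3]
  have h4 : 1 ≤ ‖q‖ / κ := (one_le_div hκ).2 hq
  have h5 : 0 ≤ 2 * (1 - (N * (starRingEnd ℂ) ν).re) := by linarith
  nlinarith

theorem l2c {S : Set ℂ} (hS : MeasurableSet S) (hSv : volume S ≠ ⊤) {q : ℂ → ℂ} (hq : ContinuousOn q S) {κ B : ℝ}
    (hκ : 0 < κ) (hqκ : ∀ w ∈ S, κ ≤ ‖q w‖) (hqB : ∀ w ∈ S, ‖q w‖ ≤ B) {c : ℕ → ℂ → ℂ} {M : ℕ → ℝ} (hM : ∀ j, 1 ≤ M j)
    (hc : ∀ j, IntegrableOn (c j) S) {N : ℕ → ℂ → ℂ} (hNm : ∀ j, Measurable (N j)) (hN : ∀ j w, ‖N j w‖ ≤ 1)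
    {E : ℕ → Set ℂ} (hE : ∀ j, MeasurableSet (E j)) (hES : ∀ j, E j ⊆ S)
    (hEv : Tendsto (fun j => volume (E j)) atTop (𝓝 0))
    (cv : Tendsto (fun j => ∫⁻ w in S, ‖c j w / (M j : ℂ) - q w‖ₑ) atTop (𝓝 0)) {I : ℕ → ℂ}
    (hI : Tendsto I atTop (𝓝 0))
    (hle : ∀ j, ‖I j - ∫ w in S, c j w * (nu q S w - N j w)‖ ≤ 2 * ∫ w in E j, ‖c j w‖) :
    Tendsto (fun j => ∫⁻ w in S, ‖N j w - nu q S w‖ₑ ^ 2) atTop (𝓝 0) := by
  have hμ : IsFiniteMeasure (volume.restrict S) :=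
    ⟨by rw [Measure.restrict_apply_univ]; exact hSv.lt_top⟩
  have hq0 : ∀ w ∈ S, q w ≠ 0 := fun w hw h0 => by
    have h1 := hqκ w hw
    rw [h0, norm_zero] at h1
    linarith
  have hνm : Measurable (nu q S) := nu_meas hS hq hq0
  have hqi : Integrable q (volume.restrict S) :=
    Integrable.of_bound (hq.aestronglyMeasurable hS) B
      ((ae_restrict_iff' hS).2 (ae_of_all _ hqB))
  have hdm : ∀ j, Measurable (fun w => nu q S w - N j w) := fun j => hνm.sub (hNm j)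
  have hd2 : ∀ j w, ‖nu q S w - N j w‖ ≤ 2 := fun j w =>
    (norm_sub_le _ _).trans (by linarith [nu_le q S w, hN j w])
  have hri : ∀ j, Integrable (fun w => q w * (nu q S w - N j w)) (volume.restrict S) :=
    fun j => hqi.mul_bdd (hdm j).aestronglyMeasurable (ae_of_all _ (hd2 j))
  have hcd : ∀ j, Integrable (fun w => c j w / (M j : ℂ)) (volume.restrict S) :=
    fun j => (hc j).div_const _
  have hci : ∀ j, Integrable (fun w => c j w / (M j : ℂ) * (nu q S w - N j w))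
      (volume.restrict S) :=
    fun j => (hcd j).mul_bdd (hdm j).aestronglyMeasurable (ae_of_all _ (hd2 j))
  have hgi : ∀ j, Integrable (fun w => c j w / (M j : ℂ) - q w) (volume.restrict S) :=
    fun j => (hcd j).sub hqi
  have hgn : ∀ j, Integrable (fun w => (c j w / (M j : ℂ) - q w) * (nu q S w - N j w))
      (volume.restrict S) :=
    fun j => (hgi j).mul_bdd (hdm j).aestronglyMeasurable (ae_of_all _ (hd2 j))
  have hD0 : Tendsto (fun j => ∫ w in S, ‖c j w / (M j : ℂ) - q w‖) atTop (𝓝 0) := by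
    have e : ∀ j, ∫ w in S, ‖c j w / (M j : ℂ) - q w‖ =
        (∫⁻ w in S, ‖c j w / (M j : ℂ) - q w‖ₑ).toReal := fun j =>
      integral_norm_eq_lintegral_enorm (hgi j).aestronglyMeasurable
    simp_rw [e]
    exact (ENNReal.tendsto_toReal ENNReal.zero_ne_top).comp cv
  have hE0 : Tendsto (fun j => volume.real (E j)) atTop (𝓝 0) :=
    (ENNReal.tendsto_toReal ENNReal.zero_ne_top).comp hEv
  have hR : ∀ j, ‖∫ w in S, q w * (nu q S w - N j w)‖ ≤ ‖I j‖ +
      4 * (∫ w in S, ‖c j w / (M j : ℂ) - q w‖) + 2 * (B * volume.real (E j)) := by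
    intro j
    have hMj : (0 : ℝ) < M j := lt_of_lt_of_le one_pos (hM j)
    have h1 : ∫ w in S, q w * (nu q S w - N j w) =
        (∫ w in S, c j w / (M j : ℂ) * (nu q S w - N j w)) -
        ∫ w in S, (c j w / (M j : ℂ) - q w) * (nu q S w - N j w) := by
      rw [← integral_sub (hci j) (hgn j)]
      refine integral_congr_ae (ae_of_all _ fun w => ?_)
      show q w * (nu q S w - N j w) = c j w / (M j : ℂ) * (nu q S w - N j w) -
        (c j w / (M j : ℂ) - q w) * (nu q S w - N j w)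
      ring
    have h2 : ‖∫ w in S, (c j w / (M j : ℂ) - q w) * (nu q S w - N j w)‖ ≤
        2 * ∫ w in S, ‖c j w / (M j : ℂ) - q w‖ := by
      rw [← integral_const_mul]
      refine norm_integral_le_of_norm_le ((hgi j).norm.const_mul 2) (ae_of_all _ fun w => ?_)
      rw [norm_mul, mul_comm]
      exact mul_le_mul_of_nonneg_right (hd2 j w) (norm_nonneg _)
    have h3 : ∫ w in S, c j w / (M j : ℂ) * (nu q S w - N j w) =
        (∫ w in S, c j w * (nu q S w - N j w)) / (M j : ℂ) := by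
      rw [← integral_div]
      refine integral_congr_ae (ae_of_all _ fun w => ?_)
      show c j w / (M j : ℂ) * (nu q S w - N j w) = c j w * (nu q S w - N j w) / (M j : ℂ)
      ring
    have h4 : ‖∫ w in S, c j w * (nu q S w - N j w)‖ ≤ ‖I j‖ + 2 * ∫ w in E j, ‖c j w‖ := by
      have h5 := hle j
      have h6 := norm_sub_norm_le (∫ w in S, c j w * (nu q S w - N j w)) (I j)
      rw [norm_sub_rev] at h6
      linarith
    have h7 : (∫ w in E j, ‖c j w‖) / M j = ∫ w in E j, ‖c j w / (M j : ℂ)‖ := by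
      rw [← integral_div]
      refine integral_congr_ae (ae_of_all _ fun w => ?_)
      show ‖c j w‖ / M j = ‖c j w / (M j : ℂ)‖
      rw [norm_div, Complex.norm_real, Real.norm_of_nonneg hMj.le]
    have hgE : IntegrableOn (fun w => ‖c j w / (M j : ℂ) - q w‖) (E j) :=
      IntegrableOn.mono_set (hgi j).norm (hES j)
    have hqE : IntegrableOn (fun w => ‖q w‖) (E j) := IntegrableOn.mono_set hqi.norm (hES j)
    have hcE : IntegrableOn (fun w => ‖c j w / (M j : ℂ)‖) (E j) :=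
      IntegrableOn.mono_set (hcd j).norm (hES j)
    have hEt : volume (E j) ≠ ⊤ := ne_top_of_le_ne_top hSv (measure_mono (hES j))
    have h8 : ∫ w in E j, ‖c j w / (M j : ℂ)‖ ≤
        (∫ w in S, ‖c j w / (M j : ℂ) - q w‖) + B * volume.real (E j) := by
      calc ∫ w in E j, ‖c j w / (M j : ℂ)‖
          ≤ ∫ w in E j, (‖c j w / (M j : ℂ) - q w‖ + ‖q w‖) := by
            refine setIntegral_mono_on hcE (hgE.add hqE) (hE j) fun w _ => ?_
            calc ‖c j w / (M j : ℂ)‖ = ‖(c j w / (M j : ℂ) - q w) + q w‖ := by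
                  rw [sub_add_cancel]
              _ ≤ _ := norm_add_le _ _
        _ = (∫ w in E j, ‖c j w / (M j : ℂ) - q w‖) + ∫ w in E j, ‖q w‖ :=
            integral_add hgE hqE
        _ ≤ (∫ w in S, ‖c j w / (M j : ℂ) - q w‖) + B * volume.real (E j) := by
            refine add_le_add ?_ ?_
            · exact setIntegral_mono_set (hgi j).norm
                (ae_of_all _ fun w => norm_nonneg _) (HasSubset.Subset.eventuallyLE (hES j))
            · calc ∫ w in E j, ‖q w‖ ≤ ∫ w in E j, B := by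
                    refine setIntegral_mono_on hqE (integrableOn_const hEt) (hE j)
                      fun w hw => hqB w (hES j hw)
                _ = B * volume.real (E j) := by
                    rw [setIntegral_const, smul_eq_mul, mul_comm]
    have h9 : ‖∫ w in S, c j w / (M j : ℂ) * (nu q S w - N j w)‖ ≤
        ‖I j‖ + 2 * ((∫ w in S, ‖c j w / (M j : ℂ) - q w‖) + B * volume.real (E j)) := by
      rw [h3, norm_div, Complex.norm_real, Real.norm_of_nonneg hMj.le]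
      calc ‖∫ w in S, c j w * (nu q S w - N j w)‖ / M j
          ≤ (‖I j‖ + 2 * ∫ w in E j, ‖c j w‖) / M j :=
            div_le_div_of_nonneg_right h4 hMj.le
        _ = ‖I j‖ / M j + 2 * ((∫ w in E j, ‖c j w‖) / M j) := by ring
        _ ≤ ‖I j‖ + 2 * ((∫ w in S, ‖c j w / (M j : ℂ) - q w‖) + B * volume.real (E j)) := by
            rw [h7]
            have h10 : ‖I j‖ / M j ≤ ‖I j‖ := div_le_self (norm_nonneg _) (hM j)
            linarith
    rw [h1]
    refine (norm_sub_le _ _).trans ?_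
    linarith
  have hlim : Tendsto (fun j => ENNReal.ofReal (2 / κ * (‖I j‖ +
      4 * (∫ w in S, ‖c j w / (M j : ℂ) - q w‖) + 2 * (B * volume.real (E j))))) atTop (𝓝 0) := by
    have h1 : Tendsto (fun j => 2 / κ * (‖I j‖ +
        4 * (∫ w in S, ‖c j w / (M j : ℂ) - q w‖) + 2 * (B * volume.real (E j)))) atTop
        (𝓝 (2 / κ * (0 + 4 * 0 + 2 * (B * 0)))) := by
      refine Tendsto.const_mul _ ((Tendsto.add ?_ (hD0.const_mul 4)).add
        ((hE0.const_mul B).const_mul 2))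
      simpa using hI.norm
    have h2 := ENNReal.tendsto_ofReal h1
    have h3 : ENNReal.ofReal (2 / κ * (0 + 4 * 0 + 2 * (B * 0))) = 0 := by
      rw [mul_zero, mul_zero, mul_zero, add_zero, add_zero, mul_zero, ENNReal.ofReal_zero]
    rwa [h3] at h2
  refine tendsto_of_tendsto_of_tendsto_of_le_of_le tendsto_const_nhds hlim
    (fun j => zero_le) fun j => ?_
  show ∫⁻ w in S, ‖N j w - nu q S w‖ₑ ^ 2 ≤ _
  have hpt : ∀ w ∈ S, ‖N j w - nu q S w‖ ^ 2 ≤ 2 / κ * (q w * (nu q S w - N j w)).re := by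
    intro w hw
    have h1 : nu q S w = (starRingEnd ℂ) (q w) / (‖q w‖ : ℂ) := by
      unfold nu
      rw [indicator_of_mem hw]
    rw [h1]
    exact l2c_pt hκ (hqκ w hw) (hN j w)
  have hint : Integrable (fun w => 2 / κ * (q w * (nu q S w - N j w)).re)
      (volume.restrict S) := (hri j).re.const_mul _
  calc ∫⁻ w in S, ‖N j w - nu q S w‖ₑ ^ 2
      ≤ ∫⁻ w in S, ENNReal.ofReal (2 / κ * (q w * (nu q S w - N j w)).re) := by
        refine lintegral_mono_ae ((ae_restrict_iff' hS).2 (ae_of_all _ fun w hw => ?_))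
        rw [← ofReal_norm, ← ENNReal.ofReal_pow (norm_nonneg _)]
        exact ENNReal.ofReal_le_ofReal (hpt w hw)
    _ = ENNReal.ofReal (∫ w in S, 2 / κ * (q w * (nu q S w - N j w)).re) := by
        refine (ofReal_integral_eq_lintegral_ofReal hint ?_).symm
        exact (ae_restrict_iff' hS).2 (ae_of_all _ fun w hw => (sq_nonneg _).trans (hpt w hw))
    _ ≤ _ := by
        apply ENNReal.ofReal_le_ofReal
        rw [integral_const_mul]
        refine mul_le_mul_of_nonneg_left ?_ (by positivity)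
        have h1 : ∫ w in S, (q w * (nu q S w - N j w)).re =
            (∫ w in S, q w * (nu q S w - N j w)).re := integral_re (hri j)
        rw [h1]
        exact (Complex.re_le_norm _).trans (hR j)

end Pool.Agent.H78.NS
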