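import Pool.Agent.H78.NS.KBS

/-!
# Module MDU: the branches on a set near `y`, along the selected sequence

PROOF. `P k = gg^[k] v`. Eventually `‖P (n j) - y‖ < δ / 8` (`hs.yl`), so `S ⊆ ball y (δ / 8) ⊆ closedBall (P (n j)) (δ / 4) ⊆ ball (P (n j)) δ`. `s j < n j` (`hs.sq.lt`). `sbrn` with `k = s j ≤ n j`: `ps (G j) (s j)` is holomorphic (`Br.diff`) and injective on the ball; `spt` for the other three.
`mdu2`: `skb1` with `u = w`, `u' = P (n j)` (`ps (G j) (s j) (P (n j)) = P (s j)`: `Br.val`): `‖ps w - P (s j)‖ ≤ KK (Dk (s j) / Dk (n j)) δ → 0` (`hs.sq.r0`), `P (s j) → x0` (`hs.sq.x0`). `mdu3`: for every `ε > 0` eventually `ps '' S ⊆ ball x0 ε`, of measure at most `π ε ^ 2` (`Complex.volume_ball`).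
-/

set_option autoImplicit false

open Filter Topology Polynomial Metric Set MeasureTheory

namespace Pool.Agent.H78.NS

open Pool.Agent.H44.Fatou (rat)
open Pool.Agent.H80.AJ (Br KK)
open Pool.Agent.H61.TT Pool.Agent.H57.CP Pool.Agent.H3.NC
open Pool.Agent.H1.PU (KA)

variable {d : ℕ} {a b : Polynomial ℂ} {L0 θ δ : ℝ} {v y x0 : ℂ} {n s : ℕ → ℕ} {G : ℕ → ℂ → ℂ}

/-- the set is eventually in the small disc -/
private theorem mdu_sub (hs : SQS a b v y x0 δ n s G) {S : Set ℂ} (hS : S ⊆ ball y (δ / 8)) :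
    ∀ᶠ j in atTop, S ⊆ closedBall ((gg a b)^[n j] v) (δ / 4) := by
  have hδ := hs.hδ
  have h1 : ∀ᶠ j in atTop, dist ((gg a b)^[n j] v) y < δ / 8 :=
    (Metric.tendsto_nhds.1 hs.yl) (δ / 8) (by positivity)
  filter_upwards [h1] with j hj w hw
  have h2 := mem_ball.1 (hS hw)
  rw [mem_closedBall]
  have h3 := dist_triangle_right w ((gg a b)^[n j] v) y
  linarith

theorem mdu1 (h : SP d a b L0 θ) (hs : SQS a b v y x0 δ n s G) {S : Set ℂ} (hS : S ⊆ ball y (δ / 8)) :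
    ∀ᶠ j in atTop, S ⊆ closedBall ((gg a b)^[n j] v) (δ / 4) ∧ 0 < n j - s j ∧
      DifferentiableOn ℂ (ps a b (G j) (s j)) S ∧ InjOn (ps a b (G j) (s j)) S ∧
      (∀ w ∈ S, ∀ i < n j - s j, b.eval ((gg a b)^[i] (ps a b (G j) (s j) w)) ≠ 0) ∧
      (∀ w ∈ S, (gg a b)^[n j - s j] (ps a b (G j) (s j) w) = w) ∧
      ∀ w ∈ S, tD a b (n j - s j) (ps a b (G j) (s j) w) * deriv (ps a b (G j) (s j)) w = 1 := by
  have hδ := hs.hδ
  filter_upwards [mdu_sub hs hS] with j hj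
  have hlt := hs.sq.lt j
  obtain ⟨hB, hinj, -, -, -, -⟩ := sbrn h hδ (hs.cal j) hlt.le
  have hsub : S ⊆ ball ((gg a b)^[n j] v) δ := hj.trans (closedBall_subset_ball (by linarith))
  refine ⟨hj, Nat.sub_pos_of_lt hlt, hB.diff.mono hsub, hinj.mono hsub, fun w hw => ?_, fun w hw => ?_,
    fun w hw => ?_⟩
  · exact (spt h hδ (hs.cal j) hlt.le (hsub hw)).1
  · exact (spt h hδ (hs.cal j) hlt.le (hsub hw)).2.1
  · exact (spt h hδ (hs.cal j) hlt.le (hsub hw)).2.2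

theorem mdu2 (h : SP d a b L0 θ) (hs : SQS a b v y x0 δ n s G) {S : Set ℂ} (hS : S ⊆ ball y (δ / 8)) {ε : ℝ}
    (hε : 0 < ε) : ∀ᶠ j in atTop, ∀ w ∈ S, ‖ps a b (G j) (s j) w - x0‖ < ε := by
  have hδ := hs.hδ
  have hK := Pool.Agent.H80.AJ.KK_pos
  have h1 : Tendsto (fun j => KK * (Dk a b v (s j) / Dk a b v (n j)) * (δ / 4)) atTop (𝓝 (KK * 0 * (δ / 4))) :=
    (hs.sq.r0.const_mul KK).mul_const _
  rw [mul_zero, zero_mul] at h1
  have h2 : ∀ᶠ j in atTop, KK * (Dk a b v (s j) / Dk a b v (n j)) * (δ / 4) < ε / 2 :=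
    h1.eventually (gt_mem_nhds (by positivity))
  have h3 : ∀ᶠ j in atTop, dist ((gg a b)^[s j] v) x0 < ε / 2 :=
    (Metric.tendsto_nhds.1 hs.sq.x0) (ε / 2) (by positivity)
  filter_upwards [mdu_sub hs hS, h2, h3] with j hj hj2 hj3 w hw
  have hlt := hs.sq.lt j
  obtain ⟨hB, -, hD1, hD2, -, -⟩ := sbrn h hδ (hs.cal j) hlt.le
  have hw1 := hj hw
  have hw2 : w ∈ closedBall ((gg a b)^[n j] v) (δ / 2) := closedBall_subset_closedBall (by linarith) hw1
  have hc : (gg a b)^[n j] v ∈ closedBall ((gg a b)^[n j] v) (δ / 2) := mem_closedBall_self (by positivity)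
  have h4 := skb1 h hδ (hs.cal j) hlt.le hw2 hc
  rw [hB.val] at h4
  have h5 : ‖w - (gg a b)^[n j] v‖ ≤ δ / 4 := by
    rw [← dist_eq_norm]
    exact mem_closedBall.1 hw1
  have h6 : KK * (Dk a b v (s j) / Dk a b v (n j)) * ‖w - (gg a b)^[n j] v‖ ≤
      KK * (Dk a b v (s j) / Dk a b v (n j)) * (δ / 4) := mul_le_mul_of_nonneg_left h5 (by positivity)
  rw [dist_eq_norm] at hj3
  have h7 := norm_sub_le_norm_sub_add_norm_sub (ps a b (G j) (s j) w) ((gg a b)^[s j] v) x0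
  linarith

theorem mdu3 (h : SP d a b L0 θ) (hs : SQS a b v y x0 δ n s G) {S : Set ℂ} (hS : S ⊆ ball y (δ / 8)) :
    Tendsto (fun j => volume (ps a b (G j) (s j) '' S)) atTop (𝓝 0) := by
  rw [ENNReal.tendsto_nhds_zero]
  intro η hη
  have h0 : Tendsto (fun ε : ℝ => volume (ball x0 ε)) (𝓝[>] 0) (𝓝 0) := by
    have h1 : Tendsto (fun ε : ℝ => ENNReal.ofReal ε ^ 2 * NNReal.pi) (𝓝[>] 0)
        (𝓝 (ENNReal.ofReal 0 ^ 2 * NNReal.pi)) := by
      refine ENNReal.Tendsto.mul_const ?_ (Or.inr ENNReal.coe_ne_top)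
      refine ENNReal.Tendsto.pow ?_
      exact (ENNReal.continuous_ofReal.tendsto 0).mono_left nhdsWithin_le_nhds
    rw [ENNReal.ofReal_zero, zero_pow two_ne_zero, zero_mul] at h1
    refine h1.congr fun ε => ?_
    rw [Complex.volume_ball]
  obtain ⟨ε, hε1, hε2⟩ := ((h0.eventually_le_const hη).and self_mem_nhdsWithin).exists
  filter_upwards [mdu2 h hs hS (show 0 < ε from hε2)] with j hj
  refine (measure_mono ?_).trans hε1
  rintro _ ⟨w, hw, rfl⟩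
  rw [mem_ball, dist_eq_norm]
  exact hj w hw

end Pool.Agent.H78.NS
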