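import Pool.Agent.H78.NS.PKD
import Pool.Agent.H78.NS.MDU
import Pool.Agent.H44.DN.NNL

/-!
# Module CHI: the scaled branches converge

PROOF. `ρ = 3 δ / 16`, `ρ' = 5 δ / 32`. Drop finitely many `j`: `‖P (n j) - y‖ < δ / 16`, so `ball y ρ ⊆ closedBall (P (n j)) (δ / 4)`. `ch j` is holomorphic there (`sbrn`), `ch j (P (n j)) = 0` (`Br.val`), and with `r j = Dk (s j) / Dk (n j) > 0`: `‖ch j w - ch j w'‖ ≤ KK ‖w - w'‖` (`skb1`) and `≥ ‖w - w'‖ / (16 KK)` (`skb5`). So `‖ch j‖ ≤ KK δ` on `ball y ρ`.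
`montel1` (H44/DN/NNL): a subsequence `φ` and `χ` holomorphic on `ball y ρ'` with `ch (φ j) w → χ z` for `(j, w) → (∞, z)`, `z ∈ ball y ρ'`. In particular pointwise convergence, so `χ` has the two Lipschitz bounds (`κ = 1 / (16 KK)`), and `χ y = lim ch (P (n j)) = 0` (`‖ch j y‖ ≤ KK ‖y - P (n j)‖ → 0`).
Uniform convergence on the compact set `closedBall y (δ / 8) ⊆ ball y ρ'`: `tendstoLocallyUniformlyOn_iff_filter` / `tendstoLocallyUniformlyOn_iff_tendstoUniformlyOn_of_compact` (from the joint convergence and continuity of `χ`), or directly: equi-Lipschitz and pointwise convergence on a finite net. Derivatives: `TendstoLocallyUniformlyOn.deriv` on the open set `ball y ρ'`, then uniform on `closedBall y (δ / 8)`.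
-/

set_option autoImplicit false

open Filter Topology Polynomial Metric Set MeasureTheory

namespace Pool.Agent.H78.NS

open Pool.Agent.H44.Fatou (rat)
open Pool.Agent.H80.AJ (Br KK)
open Pool.Agent.H61.TT Pool.Agent.H57.CP Pool.Agent.H3.NC
open Pool.Agent.H1.PU (KA)

variable {d : ℕ} {a b : Polynomial ℂ} {L0 θ δ : ℝ} {v y x0 : ℂ} {n s : ℕ → ℕ} {G : ℕ → ℂ → ℂ}

theorem chi (h : SP d a b L0 θ) (hs : SQS a b v y x0 δ n s G) : ∃ (φ : ℕ → ℕ) (χ : ℂ → ℂ) (κ : ℝ), StrictMono φ ∧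
    0 < κ ∧ DifferentiableOn ℂ χ (ball y (δ / 8)) ∧ χ y = 0 ∧
    (∀ w ∈ ball y (δ / 8), ∀ w' ∈ ball y (δ / 8), κ * ‖w - w'‖ ≤ ‖χ w - χ w'‖) ∧
    TendstoUniformlyOn (fun j => ch a b v (n (φ j)) (s (φ j)) (G (φ j))) χ atTop (ball y (δ / 8)) ∧
    TendstoUniformlyOn (fun j => deriv (ch a b v (n (φ j)) (s (φ j)) (G (φ j)))) (deriv χ) atTop (ball y (δ / 8)) := by
  have hδ := hs.hδ
  have hK := Pool.Agent.H80.AJ.KK_pos
  obtain ⟨N0, hN0⟩ := Metric.tendsto_atTop.1 hs.yl (δ / 16) (by positivity)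
  obtain ⟨F, hF⟩ : ∃ F : ℕ → ℂ → ℂ, ∀ j, F j = ch a b v (n (j + N0)) (s (j + N0)) (G (j + N0)) :=
    ⟨_, fun _ => rfl⟩
  have hPy : ∀ j, dist ((gg a b)^[n (j + N0)] v) y < δ / 16 := fun j => hN0 _ (by omega)
  have hr : ∀ j, 0 < Dk a b v (s (j + N0)) / Dk a b v (n (j + N0)) := fun j =>
    div_pos (hs.sq.pos _ _ (hs.sq.lt _).le) (hs.sq.pos _ _ le_rfl)
  have hcl : ∀ j, ∀ w ∈ ball y (3 * δ / 16), w ∈ closedBall ((gg a b)^[n (j + N0)] v) (δ / 4) := by
    intro j w hw
    rw [mem_ball] at hw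
    rw [mem_closedBall]
    have h1 := hPy j
    rw [dist_comm] at h1
    have h2 := dist_triangle w y ((gg a b)^[n (j + N0)] v)
    linarith
  have hcl2 : ∀ j, ∀ w ∈ closedBall ((gg a b)^[n (j + N0)] v) (δ / 4),
      w ∈ closedBall ((gg a b)^[n (j + N0)] v) (δ / 2) := fun j w hw =>
    closedBall_subset_closedBall (by linarith) hw
  have hsub : ∀ j w w', F j w - F j w' = (ps a b (G (j + N0)) (s (j + N0)) w -
      ps a b (G (j + N0)) (s (j + N0)) w') /
        ((Dk a b v (s (j + N0)) / Dk a b v (n (j + N0)) : ℝ) : ℂ) := by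
    intro j w w'
    rw [hF]
    unfold ch
    rw [← sub_div, sub_sub_sub_cancel_right]
  have hnsub : ∀ j w w', ‖F j w - F j w'‖ = ‖ps a b (G (j + N0)) (s (j + N0)) w -
      ps a b (G (j + N0)) (s (j + N0)) w'‖ / (Dk a b v (s (j + N0)) / Dk a b v (n (j + N0))) := by
    intro j w w'
    rw [hsub, norm_div, Complex.norm_real, Real.norm_of_nonneg (hr j).le]
  have hlow : ∀ j, ∀ w ∈ ball y (3 * δ / 16), ∀ w' ∈ ball y (3 * δ / 16),
      1 / (16 * KK) * ‖w - w'‖ ≤ ‖F j w - F j w'‖ := by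
    intro j w hw w' hw'
    have h1 := skb5 h hδ (hs.cal (j + N0)) (hs.sq.lt _).le (hcl j w hw) (hcl j w' hw')
    rw [hnsub, le_div_iff₀ (hr j)]
    refine le_trans (le_of_eq ?_) h1
    ring
  have hv0 : ∀ j, F j ((gg a b)^[n (j + N0)] v) = 0 := by
    intro j
    obtain ⟨hB, -, -, -, -, -⟩ := sbrn h hδ (hs.cal (j + N0)) (hs.sq.lt _).le
    rw [hF]
    unfold ch
    rw [hB.val, sub_self, zero_div]
  have hnF : ∀ j, ∀ w ∈ ball y (3 * δ / 16),
      ‖F j w‖ ≤ KK * ‖w - (gg a b)^[n (j + N0)] v‖ := by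
    intro j w hw
    have h1 := skb1 h hδ (hs.cal (j + N0)) (hs.sq.lt _).le (hcl2 j w (hcl j w hw))
      (mem_closedBall_self (x := (gg a b)^[n (j + N0)] v) (by positivity))
    have h2 := hnsub j w ((gg a b)^[n (j + N0)] v)
    rw [hv0, sub_zero] at h2
    rw [h2, div_le_iff₀ (hr j)]
    refine h1.trans (le_of_eq ?_)
    ring
  have hdF : ∀ j, DifferentiableOn ℂ (F j) (ball y (3 * δ / 16)) := by
    intro j
    obtain ⟨hB, -, -, -, -, -⟩ := sbrn h hδ (hs.cal (j + N0)) (hs.sq.lt _).le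
    rw [hF]
    unfold ch
    refine ((hB.diff.mono ?_).sub_const _).div_const _
    intro w hw
    have h1 := hcl j w hw
    rw [mem_closedBall] at h1
    rw [mem_ball]
    linarith
  have hbF : ∀ j, ∀ w ∈ ball y (3 * δ / 16), ‖F j w‖ ≤ KK * δ := by
    intro j w hw
    refine (hnF j w hw).trans (mul_le_mul_of_nonneg_left ?_ hK.le)
    have h1 := hcl j w hw
    rw [mem_closedBall, dist_eq_norm] at h1
    linarith
  obtain ⟨σ, χ, hσ, hχd, hχ⟩ := Pool.Agent.H44.DN.montel1 (ρ := 3 * δ / 16) (ρ' := 5 * δ / 32)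
    (by positivity) (by linarith) hdF hbF
  have hpt : ∀ z ∈ ball y (5 * δ / 32), Tendsto (fun j => F (σ j) z) atTop (𝓝 (χ z)) := by
    intro z hz
    exact (hχ z hz).comp (tendsto_id.prodMk tendsto_const_nhds)
  have hb1 : ball y (5 * δ / 32) ⊆ ball y (3 * δ / 16) := ball_subset_ball (by linarith)
  have hb2 : closedBall y (δ / 8) ⊆ ball y (5 * δ / 32) := closedBall_subset_ball (by linarith)
  have hb3 : ball y (δ / 8) ⊆ ball y (5 * δ / 32) := ball_subset_closedBall.trans hb2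
  have hloc : TendstoLocallyUniformlyOn (fun j => F (σ j)) χ atTop (ball y (5 * δ / 32)) := by
    rw [Metric.tendstoLocallyUniformlyOn_iff]
    intro ε hε z hz
    have h1 := Metric.tendsto_nhds.1 (hχ z hz) (ε / 2) (by positivity)
    obtain ⟨pa, hpa, pb, hpb, hab⟩ := Filter.eventually_prod_iff.1 h1
    have h2 : ContinuousAt χ z := (hχd.differentiableAt (isOpen_ball.mem_nhds hz)).continuousAt
    have h3 := Metric.tendsto_nhds.1 h2 (ε / 2) (by positivity)
    refine ⟨{w | pb w ∧ dist (χ w) (χ z) < ε / 2}, mem_nhdsWithin_of_mem_nhds (hpb.and h3), ?_⟩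
    filter_upwards [hpa] with j hj
    rintro w ⟨hw1, hw2⟩
    have h4 : dist (F (σ j) w) (χ z) < ε / 2 := hab hj hw1
    have h5 := dist_triangle_right (χ w) (F (σ j) w) (χ z)
    linarith
  have hunif : ∀ (F' : ℕ → ℂ → ℂ) (f' : ℂ → ℂ),
      TendstoLocallyUniformlyOn F' f' atTop (ball y (5 * δ / 32)) →
      TendstoUniformlyOn F' f' atTop (ball y (δ / 8)) := by
    intro F' f' hl
    have h1 := (tendstoLocallyUniformlyOn_iff_tendstoUniformlyOn_of_compact
      (isCompact_closedBall y (δ / 8))).1 (hl.mono hb2)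
    exact h1.mono ball_subset_closedBall
  have hder := hloc.deriv (Filter.Eventually.of_forall fun j => (hdF (σ j)).mono hb1) isOpen_ball
  refine ⟨fun j => σ j + N0, χ, 1 / (16 * KK), fun i j hij => Nat.add_lt_add_right (hσ hij) N0,
    by positivity, hχd.mono hb3, ?_, ?_, ?_, ?_⟩
  · have hyb : y ∈ ball y (5 * δ / 32) := mem_ball_self (by positivity)
    refine tendsto_nhds_unique (hpt y hyb) ?_
    rw [tendsto_zero_iff_norm_tendsto_zero]
    have h1 : Tendsto (fun j => KK * ‖y - (gg a b)^[n (σ j + N0)] v‖) atTop (𝓝 (KK * 0)) := by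
      refine Tendsto.const_mul _ ?_
      have h2 : Tendsto (fun j => σ j + N0) atTop atTop :=
        tendsto_atTop_mono (fun j => Nat.le_add_right _ _) hσ.tendsto_atTop
      have h3 := hs.yl.comp h2
      have h4 := (tendsto_iff_norm_sub_tendsto_zero.1 h3)
      refine h4.congr fun j => ?_
      rw [norm_sub_rev]
      rfl
    rw [mul_zero] at h1
    exact squeeze_zero (fun j => norm_nonneg _) (fun j => hnF (σ j) y (hb1 hyb)) h1
  · intro w hw w' hw'
    have h1 := ((hpt w (hb3 hw)).sub (hpt w' (hb3 hw'))).norm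
    exact ge_of_tendsto h1 (Filter.Eventually.of_forall fun j =>
      hlow (σ j) w (hb1 (hb3 hw)) w' (hb1 (hb3 hw')))
  · have h1 := hunif _ _ hloc
    have e : (fun j => F (σ j)) = fun j => ch a b v (n (σ j + N0)) (s (σ j + N0)) (G (σ j + N0)) :=
      funext fun j => hF (σ j)
    rw [e] at h1
    exact h1
  · have h1 := hunif _ _ hder
    have e : (deriv ∘ fun j => F (σ j)) =
        fun j => deriv (ch a b v (n (σ j + N0)) (s (σ j + N0)) (G (σ j + N0))) := by
      funext j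
      rw [Function.comp_apply, hF]
    rw [e] at h1
    exact h1

end Pool.Agent.H78.NS
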