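import Pool.Agent.H78.NS.Defs
import Pool.Agent.H3.NC.FAR
import Pool.Agent.H3.NC.KIN
import Pool.Agent.H44.DN.NNL

/-!
# Module CPT: the normalised limit of the scaled functions

PROOF (compare `end_lower` in H3/NC/LMQ, proved). Drop finitely many `j`. `far_exp` (H3/NC/FAR) for `I = (range (n j)).filter (ε0 < ‖ζ j k‖)`: on `ball 0 (ε0 / 2)` the far sum is `A j + B j x + x ^ 2 R j x`, `‖R j‖ ≤ 2 C`, holomorphic. `M' j = max 1 (max ‖A j‖ ‖B j‖)`.
`montel1` (H44/DN/NNL) for `R j / M' j`, `ρ = ε0 / 2`, `ρ' = ε0 / 3`: a subsequence, limit `R∞` holomorphic on `ball 0 (ε0 / 3)`, bounded by `2 C`. By compactness (`IsCompact.tendsto_subseq`) a further subsequence has `1 / M' → m`, `A / M' → A∞`, `B / M' → B∞`; `max m (max ‖A∞‖ ‖B∞‖) = 1`.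
`F x = τ m + A∞ x + B∞ x ^ 2 + x ^ 3 R∞ x`. If `F = 0` on `ball 0 (ε0 / 3)`: `x = 0` gives `τ m = 0`, `m = 0`; divide by `x` and let `x → 0`: `A∞ = 0`, again: `B∞ = 0` (`R∞` bounded): contradiction.
Convergence on `ball 0 (ε0 / 4)`: `(sum) / M' - F x / x = (near sum - τ / x) / M' + (τ / x) (1 / M' - m) + (A / M' - A∞) + (B / M' - B∞) x + x ^ 2 (R / M' - R∞)` for `x ≠ 0`: the integrals of the norms tend to 0: first `near` (`ball 0 (ε0 / 4) ⊆ ball 0 ε0`, `1 / M' ≤ 1`), second `kin_ball` (H3/NC/KIN), third and fourth uniform, fifth dominated convergence (pointwise convergence from `montel1`, bounded).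
-/

set_option autoImplicit false

open Filter Topology Polynomial Metric Set MeasureTheory

namespace Pool.Agent.H78.NS

open Pool.Agent.H44.Fatou (rat)
open Pool.Agent.H80.AJ (Br KK)
open Pool.Agent.H61.TT Pool.Agent.H57.CP Pool.Agent.H3.NC
open Pool.Agent.H1.PU (KA)

theorem cpt (n : ℕ → ℕ) (β ζ : ℕ → ℕ → ℂ) {ε0 C : ℝ} {τ : ℂ} (hε : 0 < ε0) (hτ : τ ≠ 0)
    (near : Tendsto (fun j => ∫⁻ x in ball (0 : ℂ) ε0,
      ‖(∑ k ∈ (Finset.range (n j)).filter (fun k => ‖ζ j k‖ ≤ ε0), β j k / (x - ζ j k)) - τ / x‖ₑ) atTop (𝓝 0))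
    (far : ∀ᶠ j in atTop, ∑ k ∈ (Finset.range (n j)).filter (fun k => ε0 < ‖ζ j k‖), ‖β j k‖ / ‖ζ j k‖ ^ 3 ≤ C) :
    ∃ (φ : ℕ → ℕ) (M : ℕ → ℝ) (F : ℂ → ℂ), StrictMono φ ∧ (∀ j, 1 ≤ M j) ∧ DifferentiableOn ℂ F (ball 0 (ε0 / 3)) ∧
      (∃ x ∈ ball (0 : ℂ) (ε0 / 3), F x ≠ 0) ∧ Tendsto (fun j => ∫⁻ x in ball (0 : ℂ) (ε0 / 4),
        ‖(∑ k ∈ Finset.range (n (φ j)), β (φ j) k / (x - ζ (φ j) k)) / (M j : ℂ) - F x / x‖ₑ) atTop (𝓝 0) := by
  classical
  obtain ⟨N0, hN0⟩ := eventually_atTop.1 far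
  have hex : ∀ j : ℕ, ∃ (A B : ℂ) (R : ℂ → ℂ), DifferentiableOn ℂ R (ball 0 (ε0 / 2)) ∧
      (∀ x ∈ ball (0 : ℂ) (ε0 / 2), ‖R x‖ ≤ 2 * C) ∧
      ∀ x ∈ ball (0 : ℂ) (ε0 / 2), ∑ k ∈ (Finset.range (n (j + N0))).filter (fun k => ε0 < ‖ζ (j + N0) k‖),
        β (j + N0) k / (x - ζ (j + N0) k) = A + B * x + x ^ 2 * R x := by
    intro j
    exact far_exp hε (fun k hk => (Finset.mem_filter.1 hk).2) (hN0 (j + N0) (by omega))
  choose a b f hf hfC hsum using hex
  have hC0 : 0 ≤ 2 * C := le_trans (norm_nonneg _) (hfC 0 0 (mem_ball_self (by linarith)))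
  set M : ℕ → ℝ := fun k => max 1 (max ‖a k‖ ‖b k‖) with hM
  have hM1 : ∀ k, 1 ≤ M k := fun k => le_max_left _ _
  have hMa : ∀ k, ‖a k‖ ≤ M k := fun k => (le_max_left _ _).trans (le_max_right _ _)
  have hMb : ∀ k, ‖b k‖ ≤ M k := fun k => (le_max_right _ _).trans (le_max_right _ _)
  have hMpos : ∀ k, 0 < M k := fun k => lt_of_lt_of_le one_pos (hM1 k)
  have hMi : ∀ k, (M k)⁻¹ ≤ 1 := fun k => inv_le_one_of_one_le₀ (hM1 k)
  have hMi0 : ∀ k, 0 ≤ (M k)⁻¹ := fun k => (inv_pos.2 (hMpos k)).le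
  set u : ℕ → ℝ × ℂ × ℂ := fun k => ((M k)⁻¹, a k * ((M k)⁻¹ : ℝ), b k * ((M k)⁻¹ : ℝ)) with hu
  have hnr : ∀ k, ∀ w : ℂ, ‖w * ((M k)⁻¹ : ℝ)‖ = ‖w‖ * (M k)⁻¹ := by
    intro k w
    rw [norm_mul, Complex.norm_real, Real.norm_eq_abs, abs_of_nonneg (hMi0 k)]
  set R' : ℝ := ε0 / 3 with hR'
  have hR'0 : 0 < R' := by rw [hR']; linarith
  have hR'R : R' < ε0 / 2 := by rw [hR']; linarith
  set F : ℕ → ℂ → ℂ := fun k z => f k z * ((M k)⁻¹ : ℝ) with hF
  have hFB : ∀ k, ∀ z ∈ ball (0 : ℂ) (ε0 / 2), ‖F k z‖ ≤ 2 * C := by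
    intro k z hz
    rw [hF]
    simp only
    rw [hnr]
    calc ‖f k z‖ * (M k)⁻¹ ≤ 2 * C * 1 := mul_le_mul (hfC k z hz) (hMi k) (hMi0 k) hC0
      _ = 2 * C := mul_one _
  obtain ⟨σ, g, hσ, hgd, hlim⟩ := Pool.Agent.H44.DN.montel1 (F := F) (x := 0) (ρ := ε0 / 2) (ρ' := R')
    (B := 2 * C) hR'0 hR'R (fun k => (hf k).mul_const _) hFB
  have hK : IsCompact (Icc (0:ℝ) 1 ×ˢ (closedBall (0:ℂ) 1 ×ˢ closedBall (0:ℂ) 1)) :=
    isCompact_Icc.prod ((isCompact_closedBall _ _).prod (isCompact_closedBall _ _))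
  have huK : ∀ k, u (σ k) ∈ Icc (0:ℝ) 1 ×ˢ (closedBall (0:ℂ) 1 ×ˢ closedBall (0:ℂ) 1) := by
    intro k
    refine ⟨⟨hMi0 _, hMi _⟩, ?_, ?_⟩
    · rw [mem_closedBall_zero_iff]
      change ‖a (σ k) * ((M (σ k))⁻¹ : ℝ)‖ ≤ 1
      rw [hnr, ← div_eq_mul_inv, div_le_one (hMpos _)]
      exact hMa _
    · rw [mem_closedBall_zero_iff]
      change ‖b (σ k) * ((M (σ k))⁻¹ : ℝ)‖ ≤ 1
      rw [hnr, ← div_eq_mul_inv, div_le_one (hMpos _)]
      exact hMb _
  obtain ⟨⟨m, a0, b0⟩, -, φ, hφ, hφlim⟩ := hK.tendsto_subseq huK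
  set s : ℕ → ℕ := fun k => σ (φ k) with hs
  have hsm : StrictMono s := hσ.comp hφ
  have hm : Tendsto (fun k => (M (s k))⁻¹) atTop (𝓝 m) := (continuous_fst.tendsto _).comp hφlim
  have ha : Tendsto (fun k => a (s k) * ((M (s k))⁻¹ : ℝ)) atTop (𝓝 a0) :=
    ((continuous_fst.comp continuous_snd).tendsto _).comp hφlim
  have hb : Tendsto (fun k => b (s k) * ((M (s k))⁻¹ : ℝ)) atTop (𝓝 b0) :=
    ((continuous_snd.comp continuous_snd).tendsto _).comp hφlim
  have hg : ∀ z ∈ ball (0:ℂ) R', Tendsto (fun k => F (s k) z) atTop (𝓝 (g z)) := by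
    intro z hz
    have h2 : Tendsto (fun k : ℕ => ((φ k, z) : ℕ × ℂ)) atTop (atTop ×ˢ 𝓝 z) :=
      hφ.tendsto_atTop.prodMk tendsto_const_nhds
    exact (hlim z hz).comp h2
  set T : ℂ → ℂ := fun z => τ * m + a0 * z + b0 * z ^ 2 + z ^ 3 * g z with hT
  have hTd : DifferentiableOn ℂ T (ball 0 R') := by
    have h2 : DifferentiableOn ℂ (fun z : ℂ => τ * m + a0 * z + b0 * z ^ 2) (ball 0 R') := by fun_prop
    exact h2.add (DifferentiableOn.mul (by fun_prop) hgd)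
  have hgB : ∀ z ∈ ball (0:ℂ) R', ‖g z‖ ≤ 2 * C := by
    intro z hz
    exact le_of_tendsto (hg z hz).norm (Eventually.of_forall fun k =>
      hFB _ z (ball_subset_ball hR'R.le hz))
  -- the limit is not zero
  have hne : ∃ x ∈ ball (0 : ℂ) R', T x ≠ 0 := by
    by_contra hcon
    push Not at hcon
    have hTall : EqOn T 0 (ball 0 R') := fun x hx => hcon x hx
    have h00 : (0:ℂ) ∈ ball (0:ℂ) R' := mem_ball_self hR'0
    have hτm : τ * m = 0 := by
      have := hTall h00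
      simpa [hT] using this
    have hm0 : m = 0 := by
      have := (mul_eq_zero.1 hτm).resolve_left hτ
      exact_mod_cast this
    have hgc : ContinuousAt g 0 := (hgd.continuousOn).continuousAt (ball_mem_nhds _ hR'0)
    have ha0 : a0 = 0 := by
      have h9 : ContinuousAt (fun z : ℂ => a0 + b0 * z + z ^ 2 * g z) 0 :=
        (by fun_prop : ContinuousAt (fun z : ℂ => a0 + b0 * z) 0).add
          ((by fun_prop : ContinuousAt (fun z : ℂ => z ^ 2) 0).mul hgc)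
      have h10 : Tendsto (fun z : ℂ => a0 + b0 * z + z ^ 2 * g z) (𝓝[≠] 0) (𝓝 a0) := by
        have := h9.tendsto.mono_left (nhdsWithin_le_nhds (s := {(0:ℂ)}ᶜ))
        simpa using this
      refine tendsto_nhds_unique h10 ?_
      refine tendsto_const_nhds.congr' ?_
      filter_upwards [self_mem_nhdsWithin, nhdsWithin_le_nhds (ball_mem_nhds (0:ℂ) hR'0)] with z hz hz2
      have h11 := hTall hz2
      rw [hT] at h11
      simp only [hτm, Pi.zero_apply, zero_add] at h11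
      have h12 : z * (a0 + b0 * z + z ^ 2 * g z) = 0 := by linear_combination h11
      exact ((mul_eq_zero.1 h12).resolve_left hz).symm
    have hb0 : b0 = 0 := by
      have h9 : ContinuousAt (fun z : ℂ => b0 + z * g z) 0 :=
        continuousAt_const.add (continuousAt_id.mul hgc)
      have h10 : Tendsto (fun z : ℂ => b0 + z * g z) (𝓝[≠] 0) (𝓝 b0) := by
        have := h9.tendsto.mono_left (nhdsWithin_le_nhds (s := {(0:ℂ)}ᶜ))
        simpa using this
      refine tendsto_nhds_unique h10 ?_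
      refine tendsto_const_nhds.congr' ?_
      filter_upwards [self_mem_nhdsWithin, nhdsWithin_le_nhds (ball_mem_nhds (0:ℂ) hR'0)] with z hz hz2
      have h11 := hTall hz2
      rw [hT] at h11
      simp only [hτm, ha0, Pi.zero_apply, zero_add, zero_mul] at h11
      have h12 : z ^ 2 * (b0 + z * g z) = 0 := by linear_combination h11
      exact ((mul_eq_zero.1 h12).resolve_left (pow_ne_zero 2 hz)).symm
    subst hm0
    subst ha0
    subst hb0
    have h13 : Tendsto (fun k => max (M (s k))⁻¹ (max ‖a (s k) * ((M (s k))⁻¹ : ℝ)‖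
        ‖b (s k) * ((M (s k))⁻¹ : ℝ)‖)) atTop (𝓝 (max 0 (max ‖(0:ℂ)‖ ‖(0:ℂ)‖))) :=
      hm.max (ha.norm.max hb.norm)
    have h14 : ∀ k, max (M (s k))⁻¹ (max ‖a (s k) * ((M (s k))⁻¹ : ℝ)‖
        ‖b (s k) * ((M (s k))⁻¹ : ℝ)‖) = 1 := by
      intro k
      rw [hnr, hnr, ← max_mul_of_nonneg _ _ (hMi0 _)]
      calc max (M (s k))⁻¹ (max ‖a (s k)‖ ‖b (s k)‖ * (M (s k))⁻¹)
          = max (1 * (M (s k))⁻¹) (max ‖a (s k)‖ ‖b (s k)‖ * (M (s k))⁻¹) := by rw [one_mul]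
        _ = M (s k) * (M (s k))⁻¹ := (max_mul_of_nonneg _ _ (hMi0 _)).symm
        _ = 1 := mul_inv_cancel₀ (hMpos _).ne'
    have h16 := tendsto_nhds_unique h13 (tendsto_const_nhds.congr fun k => (h14 k).symm)
    simp at h16
  have hψ : StrictMono (fun k => s k + N0) := fun x y hxy => Nat.add_lt_add_right (hsm hxy) N0
  refine ⟨fun k => s k + N0, fun k => M (s k), T, hψ, fun k => hM1 _, hTd, hne, ?_⟩
  -- convergence
  set V : Set ℂ := ball (0 : ℂ) (ε0 / 4) with hV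
  have hVm : MeasurableSet V := measurableSet_ball
  have hV2 : V ⊆ ball 0 (ε0 / 2) := ball_subset_ball (by linarith)
  have hV3 : V ⊆ ball 0 R' := ball_subset_ball (by rw [hR']; linarith)
  have hV0 : V ⊆ ball 0 ε0 := ball_subset_ball (by linarith)
  have hVfin : volume V < ⊤ := measure_ball_lt_top
  set nr : ℕ → ℂ → ℂ := fun j x =>
    (∑ k ∈ (Finset.range (n j)).filter (fun k => ‖ζ j k‖ ≤ ε0), β j k / (x - ζ j k)) - τ / x with hnrd
  set t1 : ℕ → ENNReal := fun k => ∫⁻ x in ball (0 : ℂ) ε0, ‖nr (s k + N0) x‖ₑ with ht1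
  set t2 : ℕ → ENNReal := fun k => ‖τ‖ₑ * ‖(((M (s k))⁻¹ - m : ℝ) : ℂ)‖ₑ * ENNReal.ofReal (3 * Real.pi * (ε0 / 4)) with ht2
  set t3 : ℕ → ENNReal := fun k => ‖a (s k) * ((M (s k))⁻¹ : ℝ) - a0‖ₑ * volume V with ht3
  set t4 : ℕ → ENNReal := fun k => ‖b (s k) * ((M (s k))⁻¹ : ℝ) - b0‖ₑ * ENNReal.ofReal ε0 * volume V with ht4
  set t5 : ℕ → ENNReal := fun k => ∫⁻ x in V, ‖x ^ 2 * (F (s k) x - g x)‖ₑ with ht5
  have hbound : ∀ k, ∫⁻ x in V, ‖(∑ i ∈ Finset.range (n (s k + N0)), β (s k + N0) i / (x - ζ (s k + N0) i)) /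
      (M (s k) : ℂ) - T x / x‖ₑ ≤ t1 k + (t2 k + (t3 k + (t4 k + t5 k))) := by
    intro k
    have hpt : ∀ᵐ x ∂(volume.restrict V), ‖(∑ i ∈ Finset.range (n (s k + N0)), β (s k + N0) i / (x - ζ (s k + N0) i)) /
        (M (s k) : ℂ) - T x / x‖ₑ ≤ ‖nr (s k + N0) x‖ₑ + (‖τ‖ₑ * ‖(((M (s k))⁻¹ - m : ℝ) : ℂ)‖ₑ * ‖(x - 0)⁻¹‖ₑ +
          (‖a (s k) * ((M (s k))⁻¹ : ℝ) - a0‖ₑ + (‖b (s k) * ((M (s k))⁻¹ : ℝ) - b0‖ₑ * ENNReal.ofReal ε0 +
            ‖x ^ 2 * (F (s k) x - g x)‖ₑ))) := by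
      have h0 : ∀ᵐ x : ℂ ∂(volume.restrict V), x ≠ 0 := by
        refine ae_restrict_of_ae ?_
        exact (measure_eq_zero_iff_ae_notMem.1 (measure_singleton (0 : ℂ)))
      filter_upwards [h0, ae_restrict_mem hVm] with x hx0 hxV
      have hx2 : x ∈ ball (0 : ℂ) (ε0 / 2) := hV2 hxV
      have hsplit : ∑ i ∈ Finset.range (n (s k + N0)), β (s k + N0) i / (x - ζ (s k + N0) i) =
          (nr (s k + N0) x + τ / x) + (a (s k) + b (s k) * x + x ^ 2 * f (s k) x) := by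
        rw [← hsum (s k) x hx2, hnrd]
        simp only
        rw [sub_add_cancel]
        rw [← Finset.sum_filter_add_sum_filter_not (Finset.range (n (s k + N0))) (fun i => ‖ζ (s k + N0) i‖ ≤ ε0)]
        congr 1
        refine Finset.sum_congr ?_ fun _ _ => rfl
        ext i
        simp only [Finset.mem_filter, not_le]
      have hMne : (M (s k) : ℂ) ≠ 0 := by exact_mod_cast (hMpos (s k)).ne'
      have hid : (∑ i ∈ Finset.range (n (s k + N0)), β (s k + N0) i / (x - ζ (s k + N0) i)) / (M (s k) : ℂ) - T x / x =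
          nr (s k + N0) x * ((M (s k))⁻¹ : ℝ) + (τ * (((M (s k))⁻¹ - m : ℝ) : ℂ) * (x - 0)⁻¹ +
            ((a (s k) * ((M (s k))⁻¹ : ℝ) - a0) + ((b (s k) * ((M (s k))⁻¹ : ℝ) - b0) * x +
              x ^ 2 * (F (s k) x - g x)))) := by
        rw [hsplit, hT, hF]
        simp only
        push_cast
        rw [sub_zero]
        field_simp
        ring
      rw [hid]
      have e1 : ‖nr (s k + N0) x * ((M (s k))⁻¹ : ℝ)‖ₑ ≤ ‖nr (s k + N0) x‖ₑ := by
        rw [← ofReal_norm, ← ofReal_norm]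
        refine ENNReal.ofReal_le_ofReal ?_
        rw [hnr]
        exact mul_le_of_le_one_right (norm_nonneg _) (hMi _)
      have e2 : ‖τ * (((M (s k))⁻¹ - m : ℝ) : ℂ) * (x - 0)⁻¹‖ₑ =
          ‖τ‖ₑ * ‖(((M (s k))⁻¹ - m : ℝ) : ℂ)‖ₑ * ‖(x - 0)⁻¹‖ₑ := by
        rw [enorm_mul, enorm_mul]
      have e4 : ‖(b (s k) * ((M (s k))⁻¹ : ℝ) - b0) * x‖ₑ ≤
          ‖b (s k) * ((M (s k))⁻¹ : ℝ) - b0‖ₑ * ENNReal.ofReal ε0 := by
        rw [enorm_mul]
        gcongr
        rw [← ofReal_norm]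
        refine ENNReal.ofReal_le_ofReal ?_
        have := hV0 hxV
        rw [mem_ball_zero_iff] at this
        exact this.le
      refine (enorm_add_le _ _).trans (add_le_add e1 ?_)
      refine (enorm_add_le _ _).trans (add_le_add e2.le ?_)
      refine (enorm_add_le _ _).trans (add_le_add le_rfl ?_)
      exact (enorm_add_le _ _).trans (add_le_add e4 le_rfl)
    refine (lintegral_mono_ae hpt).trans ?_
    have hm1 : Measurable fun x : ℂ => ‖nr (s k + N0) x‖ₑ := by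
      rw [hnrd]
      simp only
      refine Measurable.enorm (Measurable.sub ?_ (by fun_prop))
      exact Finset.measurable_fun_sum _ fun i _ => by fun_prop
    have hm2 : Measurable fun x : ℂ => ‖τ‖ₑ * ‖(((M (s k))⁻¹ - m : ℝ) : ℂ)‖ₑ * ‖(x - 0)⁻¹‖ₑ := by fun_prop
    rw [lintegral_add_left hm1, lintegral_add_left hm2, lintegral_add_left measurable_const,
      lintegral_add_left measurable_const]
    refine add_le_add (lintegral_mono_set hV0) (add_le_add ?_ (add_le_add ?_ (add_le_add ?_ le_rfl)))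
    · have hm3 : Measurable fun x : ℂ => ‖(x - 0)⁻¹‖ₑ := by fun_prop
      rw [lintegral_const_mul _ hm3]
      exact mul_le_mul_right (kin_ball 0 (by linarith : (0:ℝ) < ε0 / 4)) _
    · rw [lintegral_const, Measure.restrict_apply_univ]
    · rw [lintegral_const, Measure.restrict_apply_univ]
  have hl1 : Tendsto t1 atTop (𝓝 0) := near.comp hψ.tendsto_atTop
  have hl2 : Tendsto t2 atTop (𝓝 0) := by
    have h1 : Tendsto (fun k => ‖(((M (s k))⁻¹ - m : ℝ) : ℂ)‖ₑ) atTop (𝓝 0) := by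
      have h2 : Tendsto (fun k => (((M (s k))⁻¹ - m : ℝ) : ℂ)) atTop (𝓝 0) := by
        have h3 : Tendsto (fun k => (M (s k))⁻¹ - m) atTop (𝓝 0) := by
          have := hm.sub_const m
          rwa [sub_self] at this
        have := (Complex.continuous_ofReal.tendsto _).comp h3
        rwa [Complex.ofReal_zero] at this
      have := h2.enorm
      rwa [enorm_zero] at this
    have h4 := ENNReal.Tendsto.mul_const (b := ENNReal.ofReal (3 * Real.pi * (ε0 / 4)))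
      (ENNReal.Tendsto.const_mul (a := ‖τ‖ₑ) h1 (Or.inr enorm_ne_top)) (Or.inr ENNReal.ofReal_ne_top)
    rwa [mul_zero, zero_mul] at h4
  have hl3 : Tendsto t3 atTop (𝓝 0) := by
    have h1 : Tendsto (fun k => ‖a (s k) * ((M (s k))⁻¹ : ℝ) - a0‖ₑ) atTop (𝓝 0) := by
      have h2 := (ha.sub_const a0).enorm
      rwa [sub_self, enorm_zero] at h2
    have h4 := ENNReal.Tendsto.mul_const (b := volume V) h1 (Or.inr hVfin.ne)
    rwa [zero_mul] at h4
  have hl4 : Tendsto t4 atTop (𝓝 0) := by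
    have h1 : Tendsto (fun k => ‖b (s k) * ((M (s k))⁻¹ : ℝ) - b0‖ₑ) atTop (𝓝 0) := by
      have h2 := (hb.sub_const b0).enorm
      rwa [sub_self, enorm_zero] at h2
    have h4 := ENNReal.Tendsto.mul_const (b := volume V)
      (ENNReal.Tendsto.mul_const (b := ENNReal.ofReal ε0) h1 (Or.inr ENNReal.ofReal_ne_top)) (Or.inr hVfin.ne)
    rwa [zero_mul, zero_mul] at h4
  have hl5 : Tendsto t5 atTop (𝓝 0) := by
    have h1 : Tendsto t5 atTop (𝓝 (∫⁻ x in V, (0 : ENNReal))) := by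
      refine tendsto_lintegral_of_dominated_convergence' (fun _ => ENNReal.ofReal (ε0 ^ 2 * (4 * C))) ?_ ?_ ?_ ?_
      · intro k
        have hc : ContinuousOn (fun x : ℂ => x ^ 2 * (F (s k) x - g x)) V := by
          refine ContinuousOn.mul (by fun_prop) (ContinuousOn.sub ?_ (hgd.continuousOn.mono hV3))
          exact ((hf (s k)).continuousOn.mono hV2).mul continuousOn_const
        exact (hc.aestronglyMeasurable hVm).enorm
      · intro k
        refine (ae_restrict_iff' hVm).2 (Eventually.of_forall fun x hx => ?_)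
        change ‖x ^ 2 * (F (s k) x - g x)‖ₑ ≤ ENNReal.ofReal (ε0 ^ 2 * (4 * C))
        rw [← ofReal_norm]
        refine ENNReal.ofReal_le_ofReal ?_
        rw [norm_mul, norm_pow]
        have h2 : ‖x‖ ≤ ε0 := by
          have := hV0 hx
          rw [mem_ball_zero_iff] at this
          exact this.le
        have h3 : ‖F (s k) x - g x‖ ≤ 4 * C := by
          refine (norm_sub_le _ _).trans ?_
          have := hFB (s k) x (hV2 hx)
          have := hgB x (hV3 hx)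
          linarith
        exact mul_le_mul (pow_le_pow_left₀ (norm_nonneg _) h2 2) h3 (norm_nonneg _) (by positivity)
      · rw [lintegral_const, Measure.restrict_apply_univ]
        exact ENNReal.mul_ne_top ENNReal.ofReal_ne_top hVfin.ne
      · refine (ae_restrict_iff' hVm).2 (Eventually.of_forall fun x hx => ?_)
        have h2 : Tendsto (fun k => x ^ 2 * (F (s k) x - g x)) atTop (𝓝 (x ^ 2 * (g x - g x))) :=
          tendsto_const_nhds.mul ((hg x (hV3 hx)).sub_const _)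
        rw [sub_self, mul_zero] at h2
        have := h2.enorm
        rwa [enorm_zero] at this
    rwa [lintegral_zero] at h1
  have hall : Tendsto (fun k => t1 k + (t2 k + (t3 k + (t4 k + t5 k)))) atTop (𝓝 0) := by
    have := hl1.add (hl2.add (hl3.add (hl4.add hl5)))
    simpa using this
  exact tendsto_of_tendsto_of_tendsto_of_le_of_le tendsto_const_nhds hall (fun _ => zero_le) hbound

end Pool.Agent.H78.NS
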