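import Pool.Agent.H78.NS.PKD
import Pool.Agent.H78.NS.CPT
import Pool.Agent.H78.NS.CHI
import Pool.Agent.H3.NC.L1N
import Pool.Agent.H3.NC.FRC

/-!
# Module PKE: the package exists along a subsequence

PROOF. `nd`: `φ1, ε0, T, c'`; `hs.sub` (PKD) for `φ1`. `l1n` (H3/NC/L1N): the near part tends to `τ / x`, `τ = ∑' c' ≠ 0` (`ND.tau`), in `L ^ 1(ball 0 ε0)`; `frc` (H3/NC/FRC): the far bound. `cpt` with `β j k = be (s j) k`, `ζ j k = ze (n j) (s j) k`: `φ2, M, F`; `ε1 = ε0 / 4`: `F` is holomorphic on `ball 0 (ε0 / 3) ⊇ ball 0 ε1`, and not identically 0 on `ball 0 ε1` (identity theorem). `chi` for the new sequence: `φ3, χ`.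
`ω j = r j tD (n j) v / tD (s j) v` has norm 1 (`r j = Dk (s j) / Dk (n j) > 0`, `hs.sq.pos`): a subsequence `φ4` converges to `ω`, `‖ω‖ = 1` (`isCompact_sphere`). `ζ j = (x0 - P (s j)) / r j`: either `‖ζ j‖ → ∞` along the whole sequence, or there is a subsequence `φ5` on which `ζ` is bounded (`tendsto_atTop` negated: frequently `‖ζ j‖ ≤ B`, `extraction_of_frequently_atTop`), and a further one on which it converges (`tendsto_subseq_of_bounded`).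
All the limits (`cF`, `cχ`, `cχd`, `cω`, `M1`) pass to subsequences (`Tendsto.comp`, `StrictMono.tendsto_atTop`; for `TendstoUniformlyOn`: `fun u hu => (..).eventually ..` composed). `φ` is the composition of all, `M` is composed with the later ones.
-/

set_option autoImplicit false

open Filter Topology Polynomial Metric Set MeasureTheory

namespace Pool.Agent.H78.NS

open Pool.Agent.H44.Fatou (rat)
open Pool.Agent.H80.AJ (Br KK)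
open Pool.Agent.H61.TT Pool.Agent.H57.CP Pool.Agent.H3.NC
open Pool.Agent.H1.PU (KA)

variable {d : ℕ} {a b : Polynomial ℂ} {L0 θ δ : ℝ} {v y x0 : ℂ} {n s : ℕ → ℕ} {G : ℕ → ℂ → ℂ}

/-- a sequence has a convergent subsequence or one whose norm tends to infinity -/
private theorem pke_alt (Z : ℕ → ℂ) : ∃ φ : ℕ → ℕ, StrictMono φ ∧
    ((∃ ζ : ℂ, Tendsto (fun j => Z (φ j)) atTop (𝓝 ζ)) ∨ Tendsto (fun j => ‖Z (φ j)‖) atTop atTop) := by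
  by_cases h : Tendsto (fun j => ‖Z j‖) atTop atTop
  · exact ⟨id, strictMono_id, Or.inr h⟩
  · rw [Filter.tendsto_atTop] at h
    push Not at h
    obtain ⟨B, hB⟩ := h
    obtain ⟨φ, hφ, hφ2⟩ := Filter.extraction_of_frequently_atTop hB
    have hbd : ∀ j, Z (φ j) ∈ closedBall (0 : ℂ) B := by
      intro j
      rw [mem_closedBall_zero_iff]
      exact (hφ2 j).le
    obtain ⟨ζ, -, ψ, hψ, hψ2⟩ := (isCompact_closedBall (0 : ℂ) B).tendsto_subseq (x := fun j => Z (φ j)) hbd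
    exact ⟨φ ∘ ψ, hφ.comp hψ, Or.inl ⟨ζ, hψ2⟩⟩

private theorem pke_unif {F : ℕ → ℂ → ℂ} {f : ℂ → ℂ} {S : Set ℂ} (h : TendstoUniformlyOn F f atTop S) {φ : ℕ → ℕ}
    (hφ : StrictMono φ) : TendstoUniformlyOn (fun j => F (φ j)) f atTop S := fun u hu =>
  hφ.tendsto_atTop.eventually (h u hu)

private theorem pke_id {F : ℂ → ℂ} {ε0 : ℝ} (hε : 0 < ε0) (hF : DifferentiableOn ℂ F (ball 0 (ε0 / 3)))
    (hn : ∃ x ∈ ball (0 : ℂ) (ε0 / 3), F x ≠ 0) : ∃ x ∈ ball (0 : ℂ) (ε0 / 4), F x ≠ 0 := by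
  by_contra hcon
  push Not at hcon
  obtain ⟨x, hx, hx2⟩ := hn
  have hA : AnalyticOnNhd ℂ F (ball 0 (ε0 / 3)) := hF.analyticOnNhd isOpen_ball
  have h0 : F =ᶠ[𝓝 (0 : ℂ)] 0 := by
    filter_upwards [ball_mem_nhds (0 : ℂ) (show 0 < ε0 / 4 by positivity)] with z hz
    exact hcon z hz
  exact hx2 (hA.eqOn_zero_of_preconnected_of_eventuallyEq_zero (convex_ball _ _).isPreconnected
    (mem_ball_self (by positivity)) h0 hx)

theorem pke (h : SP d a b L0 θ) (hs : SQS a b v y x0 δ n s G)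
    (nd : ∃ (φ : ℕ → ℕ) (ε0 : ℝ) (T : Set ℕ) (c' : ℕ → ℂ), StrictMono φ ∧ 2 * ε0 ≤ δ / 32 ∧
      ND a b v (n ∘ φ) (s ∘ φ) ε0 T c') : ∃ (φ : ℕ → ℕ) (M : ℕ → ℝ) (ε1 : ℝ) (F χ : ℂ → ℂ) (ω : ℂ), StrictMono φ ∧
      PK a b v y x0 δ (n ∘ φ) (s ∘ φ) (G ∘ φ) M ε1 F χ ω := by
  obtain ⟨φ1, ε0, T, c', hφ1, hε0, hnd⟩ := nd
  have hs1 := hs.sub hφ1
  have hε := hnd.hε
  have near := l1n hs1.sq hε0 hnd
  obtain ⟨C, far⟩ := frc hs1.sq hε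
  obtain ⟨φ2, M, F, hφ2, M1, hFd, hFn, hcF⟩ := cpt (n ∘ φ1) (fun j k => be a b v ((s ∘ φ1) j) k)
    (fun j k => ze a b v ((n ∘ φ1) j) ((s ∘ φ1) j) k) hε hnd.tau near far
  have hs2 := hs1.sub hφ2
  obtain ⟨φ3, χ, κ, hφ3, hκ, hχd, hχ0, hχi, hcχ, hcχd⟩ := chi h hs2
  have hs3 := hs2.sub hφ3
  -- the unimodular constants
  obtain ⟨W, hW⟩ : ∃ W : ℕ → ℂ, ∀ j, W j = ((Dk a b v ((((s ∘ φ1) ∘ φ2) ∘ φ3) j) /
      Dk a b v ((((n ∘ φ1) ∘ φ2) ∘ φ3) j) : ℝ) : ℂ) * tD a b ((((n ∘ φ1) ∘ φ2) ∘ φ3) j) v /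
        tD a b ((((s ∘ φ1) ∘ φ2) ∘ φ3) j) v := ⟨_, fun _ => rfl⟩
  have hWn : ∀ j, W j ∈ sphere (0 : ℂ) 1 := by
    intro j
    have h1 := hs3.sq.pos j _ le_rfl
    have h2 := hs3.sq.pos j _ (hs3.sq.lt j).le
    rw [mem_sphere_zero_iff_norm, hW, norm_div, norm_mul, Complex.norm_real,
      Real.norm_of_nonneg (div_pos h2 h1).le]
    have h3 : ‖tD a b ((((n ∘ φ1) ∘ φ2) ∘ φ3) j) v‖ = Dk a b v ((((n ∘ φ1) ∘ φ2) ∘ φ3) j) := rfl
    have h4 : ‖tD a b ((((s ∘ φ1) ∘ φ2) ∘ φ3) j) v‖ = Dk a b v ((((s ∘ φ1) ∘ φ2) ∘ φ3) j) := rfl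
    rw [h3, h4, div_mul_cancel₀ _ h1.ne', div_self h2.ne']
  obtain ⟨ω, hω, φ4, hφ4, hW4⟩ := (isCompact_sphere (0 : ℂ) 1).tendsto_subseq hWn
  have hs4 := hs3.sub hφ4
  obtain ⟨φ5, hφ5, hz⟩ := pke_alt (fun j => (x0 - (gg a b)^[((((s ∘ φ1) ∘ φ2) ∘ φ3) ∘ φ4) j] v) /
    ((Dk a b v (((((s ∘ φ1) ∘ φ2) ∘ φ3) ∘ φ4) j) / Dk a b v (((((n ∘ φ1) ∘ φ2) ∘ φ3) ∘ φ4) j) : ℝ) : ℂ))
  have hs5 := hs4.sub hφ5
  refine ⟨(((φ1 ∘ φ2) ∘ φ3) ∘ φ4) ∘ φ5, fun j => M (φ3 (φ4 (φ5 j))), ε0 / 4, F, χ, ω,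
    (((hφ1.comp hφ2).comp hφ3).comp hφ4).comp hφ5, ?_⟩
  refine {
    sqs := hs5
    M1 := fun j => M1 _
    hε := by positivity
    Fd := hFd.mono (ball_subset_ball (by linarith))
    Fn := pke_id hε hFd hFn
    cF := ?_
    χd := hχd
    χ0 := hχ0
    χi := ⟨κ, hκ, hχi⟩
    cχ := ?_
    cχd := ?_
    hω := ?_
    cω := ?_
    zx := ?_ }
  · exact hcF.comp ((hφ3.comp (hφ4.comp hφ5)).tendsto_atTop)
  · exact pke_unif hcχ (hφ4.comp hφ5)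
  · exact pke_unif hcχd (hφ4.comp hφ5)
  · rwa [mem_sphere_zero_iff_norm] at hω
  · have h1 := hW4.comp hφ5.tendsto_atTop
    refine h1.congr fun j => ?_
    simp only [Function.comp_apply, hW]
  · rcases hz with ⟨ζ, hζ⟩ | hz
    · exact Or.inl ⟨ζ, hζ⟩
    · refine Or.inr (hz.congr fun j => ?_)
      have h1 := hs5.sq.pos j _ le_rfl
      have h2 := hs5.sq.pos j _ (hs5.sq.lt j).le
      rw [norm_div, Complex.norm_real]
      congr 1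
      exact Real.norm_of_nonneg (div_pos h2 h1).le

end Pool.Agent.H78.NS
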