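import Pool.Agent.H78.NS.CVG

/-!
# Module SDE: the choice of the disc

PROOF. `P k = gg^[k] v`. There is `r3 > 0`, `r3 ≤ δ / 8`, such that for all `w` with `0 < ‖w - y‖ < r3`: (a) `‖χ w‖ < ε1`; (b) `χ w ≠ 0`; (c) `F (χ w) ≠ 0`; (d) in the first case of `hp.zx`: `χ w ≠ ζ`.
(a) `χ` is continuous at `y`, `χ y = 0`. (b) `hp.χi` with `w' = y`. (c) `F ≠ 0` somewhere on the connected `ball 0 ε1`, so `F` is not identically 0 near 0 (identity theorem: `AnalyticOnNhd.eqOn_zero_of_preconnected_of_eventuallyEq_zero`), so `F x ≠ 0` for `0 < ‖x‖ < t` for some `t > 0` (`AnalyticAt.eventually_eq_zero_or_eventually_ne_zero`), and `0 < ‖χ w‖ < t` near `y`, `w ≠ y`. (d) `ζ = 0`: (b). `ζ ≠ 0`: `‖χ w‖ < ‖ζ‖` near `y`.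
`P (n j) → y` and the points `P (n j)` are pairwise different (`hinj`, `n` strictly monotone): there is `j0` with `0 < ‖P (n j0) - y‖ < r3 / 2`. `w0 = P (n j0)`. `σ = ‖χ w0 - ζ‖ > 0` in the first case of `zx`, `σ = 1` in the second. Choose `ρ0 > 0` with `ρ0 ≤ δ / (256 KK ^ 2)`, `2 ρ0 < ‖w0 - y‖`, `2 ρ0 < r3 / 2` and `16 KK ρ0 < κ σ`, `8 KK ρ0 < σ`.
So every `w ∈ ball w0 (2 ρ0)` has `0 < ‖w - y‖ < r3`. `q w = ω * deriv χ w ^ 2 * (F (χ w) / χ w)`: holomorphic on `ball w0 (2 ρ0)` (`deriv χ` is holomorphic: `DifferentiableOn.deriv`, `χ` maps it into `ball 0 ε1`), not 0 there (`‖ω‖ = 1`, `deriv χ w ≠ 0` because of `hp.χi`: `κ' ≤ ‖deriv χ w‖`, limit of difference quotients). `cv`: module CVG with `w0, ρ0` (`closedBall w0 ρ0 ⊆ ball w0 (2 ρ0)`).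
`sep`: with `r = Dk (s j) / Dk (n j) > 0`, `c = ch j`, `ζ j = (x0 - P (s j)) / r`: `ψ w - ψ w' = r (c w - c w')`, `ψ w - x0 = r (c w - ζ j)`. Eventually `‖c w - c w'‖ ≤ KK ‖w - w'‖ ≤ 2 KK ρ0` for `w, w' ∈ ball w0 ρ0` (`skb1` with `mdu1`) and `‖c w0 - ζ j‖ ≥ σ / 2` (`hp.cχ` at `w0` and `zx`; in the second case `‖ζ j‖ → ∞`), so `‖c w - ζ j‖ ≥ σ / 2 - KK ρ0 ≥ σ / 4` and `κ σ / 4 > 2 KK ρ0`.
-/

set_option autoImplicit false

open Filter Topology Polynomial Metric Set MeasureTheory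

namespace Pool.Agent.H78.NS

open Pool.Agent.H44.Fatou (rat)
open Pool.Agent.H80.AJ (Br KK)
open Pool.Agent.H61.TT Pool.Agent.H57.CP Pool.Agent.H3.NC
open Pool.Agent.H1.PU (KA)

variable {d : ℕ} {a b : Polynomial ℂ} {L0 θ δ ε1 κ : ℝ} {v y x0 ω : ℂ} {n s : ℕ → ℕ} {G : ℕ → ℂ → ℂ} {M : ℕ → ℝ}
  {F χ : ℂ → ℂ}

/-- the bilipschitz map `χ` has a derivative without zeros -/
private theorem derχ (hp : PK a b v y x0 δ n s G M ε1 F χ ω) {w : ℂ} (hw : w ∈ ball y (δ / 8)) :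
    deriv χ w ≠ 0 := by
  obtain ⟨κ', hκ', hlip⟩ := hp.χi
  have hd : DifferentiableAt ℂ χ w := hp.χd.differentiableAt (isOpen_ball.mem_nhds hw)
  have ht := hasDerivAt_iff_tendsto_slope.1 hd.hasDerivAt
  have ht2 : Tendsto (fun w' => ‖slope χ w w'‖) (𝓝[≠] w) (𝓝 ‖deriv χ w‖) := ht.norm
  have hge : κ' ≤ ‖deriv χ w‖ := by
    refine ge_of_tendsto ht2 ?_
    have h1 : ∀ᶠ w' in 𝓝[≠] w, w' ∈ ball y (δ / 8) :=
      nhdsWithin_le_nhds (isOpen_ball.mem_nhds hw)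
    have h2 : ∀ᶠ w' in 𝓝[≠] w, w' ≠ w := self_mem_nhdsWithin
    filter_upwards [h1, h2] with w' h3 h4
    have hpos : 0 < ‖w' - w‖ := norm_pos_iff.2 (sub_ne_zero.2 h4)
    rw [slope_def_field, norm_div, le_div_iff₀ hpos]
    exact hlip w' h3 w hw
  intro h0
  rw [h0, norm_zero] at hge
  linarith

/-- separation from `x0` at the points near `y` -/
private theorem sepw (h : SP d a b L0 θ) (hp : PK a b v y x0 δ n s G M ε1 F χ ω) :
    ∃ r4 : ℝ, 0 < r4 ∧ r4 ≤ δ / 8 ∧ ∀ w : ℂ, 0 < ‖w - y‖ → ‖w - y‖ < r4 → ∃ σ : ℝ, 0 < σ ∧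
      ∀ᶠ j in atTop, σ * (Dk a b v (s j) / Dk a b v (n j)) ≤ ‖ps a b (G j) (s j) w - x0‖ := by
  have hδ := hp.sqs.hδ
  obtain ⟨κ', hκ', hlip⟩ := hp.χi
  have hr : ∀ j, 0 < Dk a b v (s j) / Dk a b v (n j) := fun j =>
    div_pos (hp.sqs.sq.pos j _ (hp.sqs.sq.lt j).le) (hp.sqs.sq.pos j _ le_rfl)
  have hconv : ∀ w ∈ ball y (δ / 8), Tendsto (fun j => ch a b v (n j) (s j) (G j) w) atTop (𝓝 (χ w)) :=
    fun w hw => hp.cχ.tendsto_at hw
  have hform : ∀ (w : ℂ) (j : ℕ), ‖ps a b (G j) (s j) w - x0‖ =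
      ‖ch a b v (n j) (s j) (G j) w - (x0 - (gg a b)^[s j] v) / ((Dk a b v (s j) / Dk a b v (n j) : ℝ) : ℂ)‖ *
        (Dk a b v (s j) / Dk a b v (n j)) := by
    intro w j
    have hrj := hr j
    have e1 : ch a b v (n j) (s j) (G j) w - (x0 - (gg a b)^[s j] v) / ((Dk a b v (s j) / Dk a b v (n j) : ℝ) : ℂ) =
        (ps a b (G j) (s j) w - x0) / ((Dk a b v (s j) / Dk a b v (n j) : ℝ) : ℂ) := by
      unfold ch
      rw [← sub_div]
      congr 1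
      ring
    rw [e1, norm_div, Complex.norm_real, Real.norm_of_nonneg hrj.le, div_mul_cancel₀ _ hrj.ne']
  rcases hp.zx with ⟨ζ, hζ⟩ | hinf
  · have hex : ∃ r4 : ℝ, 0 < r4 ∧ r4 ≤ δ / 8 ∧ ∀ w : ℂ, 0 < ‖w - y‖ → ‖w - y‖ < r4 → χ w ≠ ζ := by
      by_cases hw1 : ∃ w1 ∈ ball y (δ / 8), w1 ≠ y ∧ χ w1 = ζ
      · obtain ⟨w1, hw1, hne, hχ⟩ := hw1
        rw [mem_ball, dist_eq_norm] at hw1
        refine ⟨‖w1 - y‖, norm_pos_iff.2 (sub_ne_zero.2 hne), hw1.le, ?_⟩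
        intro w _ hlt heq
        have hwb : w ∈ ball y (δ / 8) := by rw [mem_ball, dist_eq_norm]; linarith
        have hw1b : w1 ∈ ball y (δ / 8) := by rw [mem_ball, dist_eq_norm]; exact hw1
        have h1 := hlip w hwb w1 hw1b
        rw [heq, hχ, sub_self, norm_zero] at h1
        have h2 : ‖w - w1‖ ≤ 0 := by
          by_contra hcon
          push Not at hcon
          nlinarith
        have h3 : w = w1 := sub_eq_zero.1 (norm_le_zero_iff.1 h2)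
        rw [h3] at hlt
        exact lt_irrefl _ hlt
      · push Not at hw1
        refine ⟨δ / 8, by positivity, le_rfl, ?_⟩
        intro w hpos hlt
        refine hw1 w (by rw [mem_ball, dist_eq_norm]; exact hlt) ?_
        intro heq
        rw [heq, sub_self, norm_zero] at hpos
        exact lt_irrefl _ hpos
    obtain ⟨r4, hr4, hr4', hne⟩ := hex
    refine ⟨r4, hr4, hr4', ?_⟩
    intro w hw hw'
    have hwb : w ∈ ball y (δ / 8) := by rw [mem_ball, dist_eq_norm]; linarith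
    have hpos : 0 < ‖χ w - ζ‖ := norm_pos_iff.2 (sub_ne_zero.2 (hne w hw hw'))
    refine ⟨‖χ w - ζ‖ / 2, by positivity, ?_⟩
    have ht := ((hconv w hwb).sub hζ).norm
    have hev := ht.eventually (lt_mem_nhds (show ‖χ w - ζ‖ / 2 < ‖χ w - ζ‖ by linarith))
    filter_upwards [hev] with j hj
    rw [hform w j]
    exact mul_le_mul_of_nonneg_right hj.le (hr j).le
  · refine ⟨δ / 8, by positivity, le_rfl, ?_⟩
    intro w hw hw'
    have hwb : w ∈ ball y (δ / 8) := by rw [mem_ball, dist_eq_norm]; linarith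
    refine ⟨1, one_pos, ?_⟩
    have h1 := (hconv w hwb).norm.eventually (gt_mem_nhds (show ‖χ w‖ < ‖χ w‖ + 1 by linarith))
    have h2 := hinf.eventually (eventually_ge_atTop (‖χ w‖ + 2))
    filter_upwards [h1, h2] with j hj1 hj2
    rw [hform w j]
    refine mul_le_mul_of_nonneg_right ?_ (hr j).le
    have e2 : ‖x0 - (gg a b)^[s j] v‖ / (Dk a b v (s j) / Dk a b v (n j)) =
        ‖(x0 - (gg a b)^[s j] v) / ((Dk a b v (s j) / Dk a b v (n j) : ℝ) : ℂ)‖ := by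
      rw [norm_div, Complex.norm_real, Real.norm_of_nonneg (hr j).le]
    rw [e2] at hj2
    have h3 := norm_sub_norm_le ((x0 - (gg a b)^[s j] v) / ((Dk a b v (s j) / Dk a b v (n j) : ℝ) : ℂ))
      (ch a b v (n j) (s j) (G j) w)
    rw [norm_sub_rev] at h3
    linarith

/-- `F` and `χ` near `0` and `y` -/
private theorem nearF (hp : PK a b v y x0 δ n s G M ε1 F χ ω) :
    ∃ r5 : ℝ, 0 < r5 ∧ r5 ≤ δ / 8 ∧ ∀ w : ℂ, 0 < ‖w - y‖ → ‖w - y‖ < r5 →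
      ‖χ w‖ < ε1 ∧ χ w ≠ 0 ∧ F (χ w) ≠ 0 := by
  have hδ := hp.sqs.hδ
  have hε := hp.hε
  obtain ⟨κ', hκ', hlip⟩ := hp.χi
  have han : AnalyticOnNhd ℂ F (ball 0 ε1) := hp.Fd.analyticOnNhd isOpen_ball
  have h0m : (0 : ℂ) ∈ ball (0 : ℂ) ε1 := mem_ball_self hε
  have hne : ∀ᶠ z in 𝓝[≠] (0 : ℂ), F z ≠ 0 := by
    rcases (han 0 h0m).eventually_eq_zero_or_eventually_ne_zero with h1 | h1
    · exfalso
      obtain ⟨x, hx, hFx⟩ := hp.Fn
      exact hFx (han.eqOn_zero_of_preconnected_of_eventuallyEq_zero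
        (convex_ball (0 : ℂ) ε1).isPreconnected h0m h1 hx)
    · exact h1
  rw [eventually_nhdsWithin_iff, Metric.eventually_nhds_iff] at hne
  obtain ⟨t, ht, hFt⟩ := hne
  have hcont : ContinuousAt χ y :=
    (hp.χd.differentiableAt (isOpen_ball.mem_nhds (mem_ball_self (by positivity)))).continuousAt
  have hev : ∀ᶠ w in 𝓝 y, ‖χ w‖ < min t ε1 := by
    have h1 : Tendsto (fun w => ‖χ w‖) (𝓝 y) (𝓝 ‖χ y‖) := hcont.norm
    rw [hp.χ0, norm_zero] at h1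
    exact h1.eventually (gt_mem_nhds (lt_min ht hε))
  rw [Metric.eventually_nhds_iff] at hev
  obtain ⟨r5, hr5, hχ5⟩ := hev
  refine ⟨min r5 (δ / 8), lt_min hr5 (by positivity), min_le_right _ _, ?_⟩
  intro w hw hw'
  have h1 : ‖w - y‖ < r5 := lt_of_lt_of_le hw' (min_le_left _ _)
  have h2 : ‖w - y‖ < δ / 8 := lt_of_lt_of_le hw' (min_le_right _ _)
  have h3 := hχ5 (show dist w y < r5 by rw [dist_eq_norm]; exact h1)
  have h4 : χ w ≠ 0 := by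
    intro h0
    have h5 := hlip w (by rw [mem_ball, dist_eq_norm]; exact h2) y (mem_ball_self (by positivity))
    rw [h0, hp.χ0, sub_self, norm_zero] at h5
    nlinarith
  refine ⟨lt_of_lt_of_le h3 (min_le_right _ _), h4, ?_⟩
  exact hFt (show dist (χ w) 0 < t by rw [dist_zero_right]; exact lt_of_lt_of_le h3 (min_le_left _ _)) h4

theorem sde (h : SP d a b L0 θ) (hp : PK a b v y x0 δ n s G M ε1 F χ ω) {C : ℝ}
    (tel : ∀ j z, z ≠ 0 → z ≠ 1 → (∀ k < n j, (gg a b)^[k] v ≠ z) →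
      ‖aS a b v (n j) z - tD a b (n j) v * An a b v (n j) z‖ ≤ C * (‖z⁻¹‖ + ‖(z - 1)⁻¹‖))
    (hinj : ∀ m k : ℕ, m < k → (gg a b)^[m] v ≠ (gg a b)^[k] v) (hκ : Kap a b x0 κ) :
    ∃ (w0 : ℂ) (ρ0 : ℝ) (q : ℂ → ℂ), SD a b v y x0 δ n s G M w0 ρ0 κ q := by
  have hδ := hp.sqs.hδ
  have hKK := Pool.Agent.H80.AJ.KK_pos
  have hκ0 := hκ.1
  obtain ⟨r4, hr4, hr4', hsep⟩ := sepw h hp
  obtain ⟨r5, hr5, hr5', hnear⟩ := nearF hp
  obtain ⟨r3, hr3, hr34, hr35⟩ : ∃ r3 : ℝ, 0 < r3 ∧ r3 ≤ r4 ∧ r3 ≤ r5 :=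
    ⟨min r4 r5, lt_min hr4 hr5, min_le_left _ _, min_le_right _ _⟩
  -- the point `w0`
  have hev : ∀ᶠ j in atTop, ‖(gg a b)^[n j] v - y‖ < r3 / 2 := by
    have h1 := hp.sqs.yl
    rw [tendsto_iff_norm_sub_tendsto_zero] at h1
    exact h1.eventually (gt_mem_nhds (by positivity))
  obtain ⟨N, hN⟩ := eventually_atTop.1 hev
  have hw0 : ∃ j0 : ℕ, 0 < ‖(gg a b)^[n j0] v - y‖ ∧ ‖(gg a b)^[n j0] v - y‖ < r3 / 2 := by
    by_cases hy : (gg a b)^[n N] v = y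
    · refine ⟨N + 1, ?_, hN (N + 1) (Nat.le_succ N)⟩
      rw [norm_pos_iff, sub_ne_zero]
      intro h1
      exact hinj (n N) (n (N + 1)) (hp.sqs.nm (Nat.lt_succ_self N)) (hy.trans h1.symm)
    · exact ⟨N, norm_pos_iff.2 (sub_ne_zero.2 hy), hN N le_rfl⟩
  obtain ⟨j0, hj0, hj0'⟩ := hw0
  set w0 : ℂ := (gg a b)^[n j0] v with hw0d
  obtain ⟨σ, hσ, hσev⟩ := hsep w0 hj0 (by linarith)
  obtain ⟨ρ0, hρ0, hρ1, hρ2, hρ3, hρ4, hρ5⟩ : ∃ ρ0 : ℝ, 0 < ρ0 ∧ ρ0 ≤ δ / (256 * KK ^ 2) ∧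
      ρ0 ≤ ‖w0 - y‖ / 4 ∧ ρ0 ≤ r3 / 8 ∧ ρ0 ≤ κ * σ / (32 * KK) ∧ ρ0 ≤ σ / (16 * KK) := by
    refine ⟨min (δ / (256 * KK ^ 2)) (min (‖w0 - y‖ / 4) (min (r3 / 8) (min (κ * σ / (32 * KK)) (σ / (16 * KK))))),
      ?_, ?_, ?_, ?_, ?_, ?_⟩
    · refine lt_min (by positivity) (lt_min (by positivity) (lt_min (by positivity) (lt_min (by positivity) (by positivity))))
    · exact min_le_left _ _
    · exact (min_le_right _ _).trans (min_le_left _ _)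
    · exact (min_le_right _ _).trans ((min_le_right _ _).trans (min_le_left _ _))
    · exact (min_le_right _ _).trans ((min_le_right _ _).trans ((min_le_right _ _).trans (min_le_left _ _)))
    · exact (min_le_right _ _).trans ((min_le_right _ _).trans ((min_le_right _ _).trans (min_le_right _ _)))
  have hball : ∀ w ∈ ball w0 (2 * ρ0), 0 < ‖w - y‖ ∧ ‖w - y‖ < r3 := by
    intro w hw
    rw [mem_ball, dist_eq_norm] at hw
    have h1 : ‖w - y‖ ≤ ‖w - w0‖ + ‖w0 - y‖ := norm_sub_le_norm_sub_add_norm_sub w w0 y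
    have h2 : ‖w0 - y‖ ≤ ‖w0 - w‖ + ‖w - y‖ := norm_sub_le_norm_sub_add_norm_sub w0 w y
    rw [norm_sub_rev w0 w] at h2
    constructor <;> linarith
  have hsub : ball w0 (2 * ρ0) ⊆ ball y (δ / 8) := by
    intro w hw
    rw [mem_ball, dist_eq_norm]
    linarith [(hball w hw).2]
  have hsubc : closedBall w0 ρ0 ⊆ ball w0 (2 * ρ0) := closedBall_subset_ball (by linarith)
  have hsubo : ball w0 ρ0 ⊆ ball y (δ / 8) := (ball_subset_closedBall.trans hsubc).trans hsub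
  have hgood : ∀ w ∈ ball w0 (2 * ρ0), ‖χ w‖ < ε1 ∧ χ w ≠ 0 ∧ F (χ w) ≠ 0 := fun w hw =>
    hnear w (hball w hw).1 (lt_of_lt_of_le (hball w hw).2 hr35)
  have hω0 : ω ≠ 0 := by
    intro h0
    have := hp.hω
    rw [h0, norm_zero] at this
    exact zero_ne_one this
  refine ⟨w0, ρ0, fun w => ω * deriv χ w ^ 2 * (F (χ w) / χ w), ?_⟩
  refine ⟨hp.sqs, hρ0, hρ1, hsub, ⟨n j0, rfl⟩, hp.M1, ?_, ?_, ?_, hκ, ?_⟩
  · have hχ' : DifferentiableOn ℂ χ (ball w0 (2 * ρ0)) := hp.χd.mono hsub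
    have h1 : DifferentiableOn ℂ (deriv χ) (ball w0 (2 * ρ0)) := (hp.χd.deriv isOpen_ball).mono hsub
    have h2 : DifferentiableOn ℂ (fun w => F (χ w)) (ball w0 (2 * ρ0)) := by
      refine hp.Fd.comp hχ' ?_
      intro w hw
      rw [mem_ball, dist_zero_right]
      exact (hgood w hw).1
    exact (((differentiableOn_const ω).mul (h1.pow 2)).mul (h2.div hχ' (fun w hw => (hgood w hw).2.1)))
  · intro w hw
    exact mul_ne_zero (mul_ne_zero hω0 (pow_ne_zero 2 (derχ hp (hsub hw)))) (div_ne_zero (hgood w hw).2.2 (hgood w hw).2.1)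
  · exact con h hp tel hρ0 (hsubc.trans hsub) (fun w hw => ⟨(hgood w (hsubc hw)).2.1, (hgood w (hsubc hw)).1⟩)
  · have hmd := mdu1 h hp.sqs hsubo
    filter_upwards [hσev, hmd] with j hj hj2
    intro w hw w' hw'
    have hrj : 0 < Dk a b v (s j) / Dk a b v (n j) :=
      div_pos (hp.sqs.sq.pos j _ (hp.sqs.sq.lt j).le) (hp.sqs.sq.pos j _ le_rfl)
    have hcl : ∀ z ∈ ball w0 ρ0, z ∈ closedBall ((gg a b)^[n j] v) (δ / 2) := by
      intro z hz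
      exact closedBall_subset_closedBall (by linarith) (hj2.1 hz)
    have hw0m : w0 ∈ ball w0 ρ0 := mem_ball_self hρ0
    have h1 := skb1 h hδ (hp.sqs.cal j) (hp.sqs.sq.lt j).le (hcl w hw) (hcl w' hw')
    have h2 := skb1 h hδ (hp.sqs.cal j) (hp.sqs.sq.lt j).le (hcl w hw) (hcl w0 hw0m)
    have h3 : ‖w - w'‖ < 2 * ρ0 := by
      have h4 : ‖w - w'‖ ≤ ‖w - w0‖ + ‖w0 - w'‖ := norm_sub_le_norm_sub_add_norm_sub w w0 w'
      rw [mem_ball, dist_eq_norm] at hw hw'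
      rw [norm_sub_rev w0 w'] at h4
      linarith
    have h4 : ‖w - w0‖ < ρ0 := by rw [mem_ball, dist_eq_norm] at hw; exact hw
    set r : ℝ := Dk a b v (s j) / Dk a b v (n j) with hrd
    have h5 : ‖ps a b (G j) (s j) w0 - x0‖ ≤ ‖ps a b (G j) (s j) w0 - ps a b (G j) (s j) w‖ +
        ‖ps a b (G j) (s j) w - x0‖ := norm_sub_le_norm_sub_add_norm_sub _ _ _
    rw [norm_sub_rev (ps a b (G j) (s j) w0) (ps a b (G j) (s j) w)] at h5
    have h6 : KK * ρ0 ≤ σ / 16 := by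
      have h7 : KK * ρ0 ≤ KK * (σ / (16 * KK)) := mul_le_mul_of_nonneg_left hρ5 hKK.le
      have h8 : KK * (σ / (16 * KK)) = σ / 16 := by field_simp
      linarith
    have h9 : KK * ρ0 ≤ κ * σ / 32 := by
      have h7 : KK * ρ0 ≤ KK * (κ * σ / (32 * KK)) := mul_le_mul_of_nonneg_left hρ4 hKK.le
      have h8 : KK * (κ * σ / (32 * KK)) = κ * σ / 32 := by field_simp
      linarith
    have h10 : ‖ps a b (G j) (s j) w - ps a b (G j) (s j) w0‖ ≤ r * (σ / 16) := by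
      have h11 : KK * r * ‖w - w0‖ ≤ KK * r * ρ0 := mul_le_mul_of_nonneg_left h4.le (by positivity)
      have h12 : KK * r * ρ0 = r * (KK * ρ0) := by ring
      have h13 : r * (KK * ρ0) ≤ r * (σ / 16) := mul_le_mul_of_nonneg_left h6 hrj.le
      linarith
    have h14 : r * (σ * (15 / 16)) ≤ ‖ps a b (G j) (s j) w - x0‖ := by
      have : σ * r = r * (σ * (15 / 16)) + r * (σ / 16) := by ring
      linarith
    have h15 : ‖ps a b (G j) (s j) w - ps a b (G j) (s j) w'‖ ≤ r * (κ * σ / 16) := by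
      have h11 : KK * r * ‖w - w'‖ ≤ KK * r * (2 * ρ0) := mul_le_mul_of_nonneg_left h3.le (by positivity)
      have h12 : KK * r * (2 * ρ0) = r * (2 * (KK * ρ0)) := by ring
      have h13 : r * (2 * (KK * ρ0)) ≤ r * (κ * σ / 16) := mul_le_mul_of_nonneg_left (by linarith) hrj.le
      linarith
    have h16 : κ * (r * (σ * (15 / 16))) ≤ κ * ‖ps a b (G j) (s j) w - x0‖ := mul_le_mul_of_nonneg_left h14 hκ0.le
    have h17 : 0 < r * (κ * σ) := by positivity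
    have h18 : κ * (r * (σ * (15 / 16))) = r * (κ * σ) * (15 / 16) := by ring
    have h19 : r * (κ * σ / 16) = r * (κ * σ) * (1 / 16) := by ring
    linarith

end Pool.Agent.H78.NS
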