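import Pool.Agent.H78.NS.BRS

/-!
# Module VOL: preimages of small sets are small

PROOF. Induction on `l`: `pre^[l + 1] U = pre (pre^[l] U)`; the sets `pre^[l] (U j)` are measurable (`measurableSet_pre`), and contained in a fixed ball: if `T ⊆ closedBall 0 R` then `pre T ⊆ closedBall 0 L` with `L` from `spz` for `R + 1` (`L ≤ ‖z‖` gives `‖gg z‖ ≥ R + 1`). So it is enough: `T j ⊆ closedBall 0 R` measurable, `volume (T j) → 0` implies `volume (pre (T j)) → 0`.
`area` (H61/TT/Area) with `F = 1`: `∫⁻ y in pre (T j), ofReal (‖dg y‖ ^ 2) = ∫⁻ x in T j, card (fs x) ≤ d' * volume (T j)` (`fs x` has at most `max (natDegree a) (natDegree b)` elements: `card_roots'`). For `ε' > 0`: `volume (pre (T j)) ≤ volume (closedBall 0 L ∩ {‖dg‖ ≤ ε'}) + (ε' ^ 2)⁻¹ d' volume (T j)` (Markov: `meas_ge_le_lintegral_div` or directly).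
`volume (closedBall 0 L ∩ {‖dg‖ ≤ ε'}) → volume (closedBall 0 L ∩ {dg = 0}) = 0` for `ε' → 0` (`tendsto_measure_iInter..`, decreasing, finite measure; `{dg = 0}` is finite: `finite_ww` and the finitely many roots of `b`). Choose first `ε'`, then `j`.
-/

set_option autoImplicit false

open Filter Topology Polynomial Metric Set MeasureTheory

namespace Pool.Agent.H78.NS

open Pool.Agent.H44.Fatou (rat)
open Pool.Agent.H80.AJ (Br KK)
open Pool.Agent.H61.TT Pool.Agent.H57.CP Pool.Agent.H3.NC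
open Pool.Agent.H1.PU (KA)

variable {d : ℕ} {a b : Polynomial ℂ} {L0 θ : ℝ}

private theorem vol_card (h : RatD d a b) (x : ℂ) : (fs a b x).card ≤ d := by
  refine (Multiset.toFinset_card_le _).trans ((card_roots' _).trans ?_)
  refine (natDegree_sub_le _ _).trans ?_
  rw [← h.deg]
  exact max_le_max le_rfl (natDegree_C_mul_le _ _)

private theorem vol_one (h : SP d a b L0 θ) {T : ℕ → Set ℂ} {R : ℝ} (hT : ∀ j, MeasurableSet (T j))
    (hb : ∀ j, T j ⊆ closedBall 0 R) (hv : Tendsto (fun j => volume (T j)) atTop (𝓝 0)) :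
    ∃ L : ℝ, (∀ j, pre a b (T j) ⊆ closedBall 0 L) ∧ Tendsto (fun j => volume (pre a b (T j))) atTop (𝓝 0) := by
  obtain ⟨L, -, hL⟩ := spz h (R + 1)
  have hsub : ∀ j, pre a b (T j) ⊆ closedBall 0 L := by
    intro j z hz
    rw [mem_closedBall_zero_iff]
    by_contra hc
    have h1 := (hL z (not_le.1 hc).le).2
    have h2 := hb j hz.2
    rw [mem_closedBall_zero_iff] at h2
    linarith
  refine ⟨L, hsub, ?_⟩
  have hwm : Measurable (fun y : ℂ => ENNReal.ofReal (‖dg a b y‖ ^ 2)) :=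
    (measurable_dg.norm.pow_const 2).ennreal_ofReal
  have hfm : Measurable (fun y : ℂ => (ENNReal.ofReal (‖dg a b y‖ ^ 2))⁻¹) := hwm.inv
  have hne : ∀ᵐ y : ℂ, b.eval y ≠ 0 → ENNReal.ofReal (‖dg a b y‖ ^ 2) * (ENNReal.ofReal (‖dg a b y‖ ^ 2))⁻¹ = 1 := by
    filter_upwards [ae_ww h.rt] with y hy hyb
    have h7 : dg a b y ≠ 0 := div_ne_zero hy (pow_ne_zero 2 hyb)
    have h8 : 0 < ‖dg a b y‖ ^ 2 := by positivity
    exact ENNReal.mul_inv_cancel (ENNReal.ofReal_pos.2 h8).ne' ENNReal.ofReal_ne_top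
  have hle : ∀ y : ℂ, ENNReal.ofReal (‖dg a b y‖ ^ 2) * (ENNReal.ofReal (‖dg a b y‖ ^ 2))⁻¹ ≤ 1 := fun y =>
    ENNReal.mul_inv_le_one _
  set μ' : Measure ℂ := (volume.restrict (closedBall (0 : ℂ) L)).withDensity
    (fun y : ℂ => ENNReal.ofReal (‖dg a b y‖ ^ 2)) with hμ
  have hfin : ∫⁻ y, (ENNReal.ofReal (‖dg a b y‖ ^ 2))⁻¹ ∂μ' ≠ ⊤ := by
    rw [hμ, lintegral_withDensity_eq_lintegral_mul _ hwm hfm]
    refine ne_top_of_le_ne_top ?_ (lintegral_mono (g := fun _ => 1) fun y => hle y)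
    rw [lintegral_const, one_mul, Measure.restrict_apply_univ]
    exact (isCompact_closedBall (0 : ℂ) L).measure_lt_top.ne
  have hsmall : Tendsto (μ' ∘ fun j => pre a b (T j)) atTop (𝓝 0) := by
    have hub : ∀ j, (μ' ∘ fun j => pre a b (T j)) j ≤ (d : ENNReal) * volume (T j) := by
      intro j
      have hpm : MeasurableSet (pre a b (T j)) := measurableSet_pre (hT j)
      show μ' (pre a b (T j)) ≤ _
      rw [hμ, withDensity_apply _ hpm, Measure.restrict_restrict hpm, inter_eq_left.2 (hsub j)]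
      have h1 := area h.rt (hT j) (F := fun _ => 1) measurable_const
      simp only [one_mul] at h1
      rw [← h1]
      refine (lintegral_mono (g := fun _ => (d : ENNReal)) fun x => ?_).trans ?_
      · show ∑ y ∈ fs a b x, (1 : ENNReal) ≤ (d : ENNReal)
        rw [Finset.sum_const, nsmul_eq_mul, mul_one]
        exact_mod_cast vol_card h.rt x
      · rw [lintegral_const, Measure.restrict_apply_univ]
    refine tendsto_of_tendsto_of_tendsto_of_le_of_le tendsto_const_nhds ?_ (fun j => bot_le) hub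
    have := ENNReal.Tendsto.const_mul (a := (d : ENNReal)) hv (Or.inr (ENNReal.natCast_ne_top d))
    simpa using this
  have key := tendsto_setLIntegral_zero hfin hsmall
  refine key.congr fun j => ?_
  have hpm : MeasurableSet (pre a b (T j)) := measurableSet_pre (hT j)
  rw [hμ, setLIntegral_withDensity_eq_setLIntegral_mul _ hwm hfm hpm, Measure.restrict_restrict hpm,
    inter_eq_left.2 (hsub j)]
  have h2 : ∫⁻ y in pre a b (T j), ((fun y : ℂ => ENNReal.ofReal (‖dg a b y‖ ^ 2)) *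
      fun y : ℂ => (ENNReal.ofReal (‖dg a b y‖ ^ 2))⁻¹) y = ∫⁻ y in pre a b (T j), 1 := by
    refine setLIntegral_congr_fun_ae hpm ?_
    filter_upwards [hne] with y hy hyp
    exact hy hyp.1
  rw [h2, lintegral_const, one_mul, Measure.restrict_apply_univ]

theorem vol (h : SP d a b L0 θ) {U : ℕ → Set ℂ} {R : ℝ} (hU : ∀ j, MeasurableSet (U j))
    (hb : ∀ j, U j ⊆ closedBall 0 R) (hv : Tendsto (fun j => volume (U j)) atTop (𝓝 0)) (l : ℕ) :
    Tendsto (fun j => volume ((pre a b)^[l] (U j))) atTop (𝓝 0) := by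
  have key : ∀ l : ℕ, (∀ j, MeasurableSet ((pre a b)^[l] (U j))) ∧ (∃ L : ℝ, ∀ j, (pre a b)^[l] (U j) ⊆ closedBall 0 L) ∧
      Tendsto (fun j => volume ((pre a b)^[l] (U j))) atTop (𝓝 0) := by
    intro l
    induction l with
    | zero => exact ⟨hU, ⟨R, hb⟩, hv⟩
    | succ l ih =>
      obtain ⟨h1, ⟨L, h2⟩, h3⟩ := ih
      obtain ⟨L', h4, h5⟩ := vol_one h h1 h2 h3
      simp only [Function.iterate_succ_apply']
      exact ⟨fun j => measurableSet_pre (h1 j), ⟨L', h4⟩, h5⟩
  exact (key l).2.2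

end Pool.Agent.H78.NS
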