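import Pool.Agent.H78.NS.TAI
import Pool.Agent.H78.NS.ENI
import Pool.Agent.H78.NS.ERT
import Pool.Agent.H78.NS.VOL
import Pool.Agent.H78.NS.L2C
import Pool.Agent.H78.NS.EDN
import Pool.Agent.H78.NS.SDE
import Pool.Agent.H78.NS.PKE
import Pool.Agent.H31.NS.CVT
import Pool.Agent.H31.NS.TEL
import Pool.Agent.H31.NS.AS
import Pool.Agent.H66.NS.Sel
import Pool.Agent.H66.NS.Ner
import Pool.Agent.H66.NS.Prl

/-!
# Module Main: no passive critical value is conical (Julia set = sphere)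
-/

set_option autoImplicit false

open Filter Topology Polynomial Metric Set MeasureTheory

namespace Pool.Agent.H78.NS

open Pool.Agent.H44.Fatou (rat)
open Pool.Agent.H80.AJ (Br KK)
open Pool.Agent.H61.TT Pool.Agent.H57.CP Pool.Agent.H3.NC
open Pool.Agent.H1.PU (KA)

variable {d : ℕ} {a b : Polynomial ℂ} {L0 θ : ℝ}

/-- the last step, for a sequence on which everything holds for all `j` -/
private theorem fin_false (h : SP d a b L0 θ) {c y x0 w0 : ℂ} {δ' δ ρ0 κ : ℝ} {n s : ℕ → ℕ} {G : ℕ → ℂ → ℂ} {M : ℕ → ℝ}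
    {q τ : ℂ → ℂ} (hc : CD a b c y δ') (hd : SD a b (gg a b c) y x0 δ n s G M w0 ρ0 κ q) (hτ : Integrable τ)
    (hcv : Tendsto (fun j => ∫⁻ x : ℂ, ‖aS a b (gg a b c) (n j) x - pf a b (aS a b (gg a b c) (n j)) x - τ x‖ₑ)
      atTop (𝓝 0)) : False := by
  obtain ⟨v, hv⟩ : ∃ v, v = gg a b c := ⟨_, rfl⟩
  rw [← hv] at hd hcv
  have hρ := hd.hρ
  have hS2 : ball w0 ρ0 ⊆ ball y (δ / 8) := (ball_subset_ball (by linarith)).trans hd.sub
  have e1 := mdu1 h hd.sqs hS2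
  have e2 := mdu2 h hd.sqs hS2 one_pos
  obtain ⟨j0, hj0⟩ := eventually_atTop.1 (e1.and e2)
  -- the shifted sequence
  obtain ⟨σ, hσ⟩ : ∃ σ : ℕ → ℕ, σ = fun j => j + j0 := ⟨_, rfl⟩
  have hσt : Tendsto σ atTop atTop := by rw [hσ]; exact tendsto_add_atTop_nat j0
  have hall : ∀ j, _ := fun j => hj0 (σ j) (by rw [hσ]; exact Nat.le_add_left _ _)
  obtain ⟨S, hS⟩ : ∃ S, S = ball w0 ρ0 := ⟨_, rfl⟩
  obtain ⟨ψ, hψ⟩ : ∃ ψ : ℕ → ℂ → ℂ, ψ = fun j => ps a b (G (σ j)) (s (σ j)) := ⟨_, rfl⟩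
  obtain ⟨m, hm⟩ : ∃ m : ℕ → ℕ, m = fun j => n (σ j) - s (σ j) := ⟨_, rfl⟩
  obtain ⟨α, hα⟩ : ∃ α : ℕ → ℂ → ℂ, α = fun j => aS a b v (n (σ j)) := ⟨_, rfl⟩
  obtain ⟨ν, hν⟩ : ∃ ν, ν = nu q S := ⟨_, rfl⟩
  obtain ⟨U, hU⟩ : ∃ U : ℕ → Set ℂ, U = fun j => ψ j '' S := ⟨_, rfl⟩
  obtain ⟨φ, hφ⟩ : ∃ φ : ℕ → ℂ → ℂ, φ = fun j => pb a b (m j) ν := ⟨_, rfl⟩
  obtain ⟨N, hN⟩ : ∃ N : ℕ → ℂ → ℂ, N = fun j => FF a b (U j) (φ j) := ⟨_, rfl⟩
  obtain ⟨E, hE⟩ : ∃ E : ℕ → Set ℂ, E = fun j => EN a b (G (σ j)) (n (σ j)) (s (σ j)) S := ⟨_, rfl⟩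
  obtain ⟨cc, hcc⟩ : ∃ cc : ℕ → ℂ → ℂ, cc = fun j w => deriv (ψ j) w ^ 2 * α j (ψ j w) := ⟨_, rfl⟩
  have hSo : IsOpen S := by rw [hS]; exact isOpen_ball
  have hSm : MeasurableSet S := hSo.measurableSet
  have hSsub : S ⊆ ball w0 (2 * ρ0) := by rw [hS]; exact ball_subset_ball (by linarith)
  have hScl : closedBall w0 ρ0 ⊆ ball w0 (2 * ρ0) := closedBall_subset_ball (by linarith)
  have hqc : ContinuousOn q S := hd.qd.continuousOn.mono hSsub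
  have hνm : Measurable ν := by
    rw [hν]
    exact nu_meas hSm hqc fun w hw => hd.qn w (hSsub hw)
  have hνl : ∀ w, ‖ν w‖ ≤ 1 := by rw [hν]; exact nu_le q S
  have hφm : ∀ j, Measurable (φ j) := fun j => by rw [hφ]; exact pb_meas hνm _
  have hφl : ∀ j z, ‖φ j z‖ ≤ 1 := fun j z => by rw [hφ]; exact pb_le hνl _ z
  have hαm : ∀ j, Measurable (α j) := fun j => by rw [hα]; exact Pool.Agent.H31.NS.aS_meas a b v _
  have hαi : ∀ j, Integrable (α j) := fun j => by rw [hα]; exact Pool.Agent.H31.NS.aS_int a b v _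
  have heni : ∀ j, ‖(∫ z in U j, α j z * (N j z - pb a b 1 (N j) z)) -
      ∫ w in S, cc j w * (ν w - N j w)‖ ≤ 2 * ∫ w in E j, ‖cc j w‖ ∧ MeasurableSet (E j) ∧ MeasurableSet (U j) ∧
      IntegrableOn (cc j) S := by
    intro j
    obtain ⟨⟨a1, a2, a3, a4, a5, a6, a7⟩, -⟩ := hall j
    have h1 := eni (a := a) (b := b) (S := S) hSo (ψ := ψ j) (by rw [hψ, hS]; exact a3) (by rw [hψ, hS]; exact a4)
      (m := m j) (by rw [hm]; exact a2) (by rw [hψ, hS, hm]; exact a5) (by rw [hψ, hS, hm]; exact a6)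
      (by rw [hψ, hS, hm]; exact a7) hνm hνl (hαm j) (hαi j) (E := E j) ?_ (N := N j) ?_
    · obtain ⟨b1, b2, b3, b4⟩ := h1
      refine ⟨?_, b2, by rw [hU]; exact b3, by rw [hcc]; exact b4⟩
      rw [hU, hcc]
      exact b1
    · rw [hE, hψ, hm]
      rfl
    · rw [hN, hU, hφ]
  have hUv : Tendsto (fun j => volume (U j)) atTop (𝓝 0) := by
    have h1 := (mdu3 h hd.sqs hS2).comp hσt
    rw [hU, hψ, hS]
    exact h1
  have hUb : ∀ j, U j ⊆ closedBall 0 (‖x0‖ + 1) := by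
    intro j z hz
    rw [hU] at hz
    obtain ⟨w, hw, rfl⟩ := hz
    rw [mem_closedBall_zero_iff]
    have h1 := (hall j).2 w (by rw [← hS]; exact hw)
    rw [hψ]
    have h2 : ‖ps a b (G (σ j)) (s (σ j)) w‖ ≤ ‖ps a b (G (σ j)) (s (σ j)) w - x0‖ + ‖x0‖ := by
      have := norm_add_le (ps a b (G (σ j)) (s (σ j)) w - x0) x0
      rwa [sub_add_cancel] at this
    linarith
  have hEv : Tendsto (fun j => volume (E j)) atTop (𝓝 0) := by
    have h1 := (ert h hd).comp hσt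
    rw [hE, hS]
    exact h1
  have hES : ∀ j, E j ⊆ S := fun j w hw => by
    rw [hE] at hw
    exact hw.1
  have hI : Tendsto (fun j => ∫ z in U j, α j z * (N j z - pb a b 1 (N j) z)) atTop (𝓝 0) := by
    rw [hN]
    refine tai h.rt (fun j => (heni j).2.2.1) hUv hφm hφl hαm hαi hτ ?_
    rw [hα]
    exact hcv.comp hσt
  obtain ⟨κq, hκq, hκq2⟩ : ∃ κq : ℝ, 0 < κq ∧ ∀ w ∈ S, κq ≤ ‖q w‖ := by
    obtain ⟨w1, hw1, hw2⟩ := (isCompact_closedBall w0 ρ0).exists_isMinOn ⟨w0, mem_closedBall_self hρ.le⟩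
      ((hd.qd.continuousOn.mono hScl).norm)
    refine ⟨‖q w1‖, norm_pos_iff.2 (hd.qn w1 (hScl hw1)), fun w hw => ?_⟩
    exact hw2 (show w ∈ closedBall w0 ρ0 from ball_subset_closedBall (by rw [← hS]; exact hw))
  obtain ⟨B, hB⟩ : ∃ B : ℝ, ∀ w ∈ S, ‖q w‖ ≤ B := by
    obtain ⟨w1, hw1, hw2⟩ := (isCompact_closedBall w0 ρ0).exists_isMaxOn ⟨w0, mem_closedBall_self hρ.le⟩
      ((hd.qd.continuousOn.mono hScl).norm)
    refine ⟨‖q w1‖, fun w hw => ?_⟩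
    exact hw2 (show w ∈ closedBall w0 ρ0 from ball_subset_closedBall (by rw [← hS]; exact hw))
  have hSv : volume S ≠ ⊤ := by rw [hS]; exact measure_ball_lt_top.ne
  have hNm : ∀ j, Measurable (N j) := fun j => by rw [hN]; exact ff_meas (heni j).2.2.1 (hφm j)
  have hNl : ∀ j w, ‖N j w‖ ≤ 1 := fun j w => by rw [hN]; exact ff_le (hφl j) w
  have hl2 := l2c hSm hSv hqc hκq hκq2 hB (c := cc) (M := fun j => M (σ j)) (fun j => hd.M1 _) (fun j => (heni j).2.2.2)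
    hNm hNl (fun j => (heni j).2.1) hES hEv (by
      have h1 := hd.cv.comp hσt
      rw [hcc, hψ, hα, hS]
      exact h1) hI (fun j => by
      have h1 := (heni j).1
      rw [hν] at h1
      exact h1)
  -- the critical point
  obtain ⟨m0, u0, hu0, hm0⟩ := h.tr c w0 ρ0 hρ
  obtain ⟨f1, f2, f3⟩ := sbd h hm0
  obtain ⟨i0, hi0⟩ := hd.w0o
  have hit : ∀ l, (gg a b)^[m0 + 1 + l] u0 = (gg a b)^[l] v := by
    intro l
    rw [Nat.add_comm, Function.iterate_add_apply, Function.iterate_succ_apply', f1, ← hv]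
  refine end_false h (w0 := w0) (ρ0 := ρ0) (q := q) (hd.qd.mono (by rw [← hS]; exact hSsub))
    (fun w hw => hd.qn w (hSsub (by rw [hS]; exact hw))) (U := U) (φ := φ) (fun j => (heni j).2.2.1) hφm hφl
    (vol h (fun j => (heni j).2.2.1) hUb hUv) ?_ (i := m0 + 1 + i0) (u0 := u0) hu0 ?_ ?_ ?_
  · rw [← hS]
    rw [hN] at hl2
    exact hl2
  · intro l hl
    rcases lt_trichotomy l m0 with h1 | h1 | h1
    · exact f3 l h1
    · rw [h1, f1]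
      exact hc.cb
    · obtain ⟨t, rfl⟩ := Nat.exists_eq_add_of_le (show m0 + 1 ≤ l from h1)
      rw [hit, hv]
      exact hc.ob t
  · rw [hit, ← hi0]
    exact mem_ball_self hρ
  · rw [show m0 + 1 + i0 = m0 + (1 + i0) by ring, tD_add, f1, tD_add]
    have h1 : tD a b 1 c = 0 := by
      unfold tD
      rw [Finset.prod_range_one]
      show Pool.Agent.H61.TT.dg a b c = 0
      unfold Pool.Agent.H61.TT.dg
      rw [hc.cw, zero_div]
    rw [h1, zero_mul, mul_zero]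

theorem sph_false (h : SP d a b L0 θ) {c y : ℂ} {δ : ℝ} (hc : CD a b c y δ) (hp : PasS d a b c) : False := by
  obtain ⟨x0, n, s, G, hs⟩ := Pool.Agent.H66.NS.sel h hc
  obtain ⟨φ1, τ, hφ1, hτ, hcv⟩ := Pool.Agent.H31.NS.cvt h hc hp hs
  have hs1 := hs.sub hφ1
  obtain ⟨φ2, M, ε1, F, χ, ω, hφ2, hpk⟩ := pke h hs1 (Pool.Agent.H66.NS.near_data h hc.ob hs1.sq)
  obtain ⟨C, hC0, hC⟩ := Pool.Agent.H31.NS.aS_an h hc hp hpk.sqs
  obtain ⟨κ, hκ⟩ := Pool.Agent.H66.NS.kap h x0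
  obtain ⟨w0, ρ0, q, hd⟩ := sde h hpk (C := 3 * C) (fun j z hz0 hz1 hz => by
    refine (hC j z hz0 hz1 fun k hk => (hz k hk).symm).trans ?_
    have h1 : 0 < ‖z‖ := norm_pos_iff.2 hz0
    have h2 : 0 < ‖z - 1‖ := norm_pos_iff.2 (sub_ne_zero.2 hz1)
    have h3 : ‖z‖ ≤ ‖z - 1‖ + 1 := by
      have := norm_add_le (z - 1) 1
      rwa [sub_add_cancel, norm_one] at this
    have h4 : 1 ≤ ‖z‖ + ‖z - 1‖ := by
      have := norm_sub_le z (z - 1)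
      rwa [sub_sub_cancel, norm_one] at this
    rw [norm_inv, norm_inv, mul_comm 3 C, mul_assoc]
    refine mul_le_mul_of_nonneg_left ?_ hC0
    rw [show 3 * (‖z‖⁻¹ + ‖z - 1‖⁻¹) = (3 * (‖z - 1‖ + ‖z‖)) / (‖z‖ * ‖z - 1‖) by field_simp]
    apply div_le_div_of_nonneg_right _ (by positivity)
    linarith) hc.inj hκ
  exact fin_false h hc hd hτ (hcv.comp hφ2.tendsto_atTop)

end Pool.Agent.H78.NS
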