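import Pool.Agent.H3.NC.Defs
import Pool.Agent.H1.PU.Defs

/-!
# THEOREM NC for Julia set = sphere: definitions

Chart: `0`, `1`, `∞` are repelling FIXED points of `g = a / b`. So every orbit which ends in the plane stays in the plane. `SP`: the setting (`con`: near infinity `g` contracts the plane metric; `ni`: high iterates are not injective on discs; `tr`: backward orbits are dense).
`CD`: `c` is a critical point in the plane, the orbit of `v = g c` stays in the plane and is infinite, there are conical times `n` of `v` with branches on `ball (g^n v) δ` and `g^n v` arbitrarily close to `y`.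
`PasS`: `c` is passive: the velocities `(g^n)'(v) Lam η c n` of `g^n v` are bounded by `C (1 + |g^n v| ^ 2)`.
`aS n z = (g^n)'(v) ∑_(k<n) KA (g^k v) z / (g^k)'(v)`, `KA x z = x (x - 1) / (z (z - 1) (z - x))` (H1/PU). `ps G s = g^s ∘ G`: the branch `ψ_s`.
`SQS`: the selected sequence: conical times `n j` with branches `G j`, record times `s j` (SQ of H3/NC, `η = δ / 32`), `P (n j) → y`, `P (s j) → x0`.
`SD`: the disc `ball w0 ρ0`, `w0` on the orbit of `v`, on which `(ψ_s' ^ 2 aS ∘ ψ_s) / M j → q` in `L ^ 1`, `q` holomorphic without zeros; `sep`: `ψ_s (ball w0 ρ0)` is small compared with its distance to `x0`, `κ` a constant of the cycle of `x0`.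
`pb k φ = (g^k)^* φ` (pull back of a Beltrami form), `FF U φ`: the first entry field of `φ` on `U`.
-/

set_option autoImplicit false

open Filter Topology Polynomial Metric Set MeasureTheory

namespace Pool.Agent.H78.NS

open Pool.Agent.H44.Fatou (rat)
open Pool.Agent.H80.AJ (Br KK)
open Pool.Agent.H61.TT Pool.Agent.H57.CP Pool.Agent.H3.NC
open Pool.Agent.H1.PU (KA)

/-- the setting for Julia set = sphere, in the chart where `0`, `1`, `∞` are repelling fixed points -/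
structure SP (d : ℕ) (a b : Polynomial ℂ) (L0 θ : ℝ) : Prop where
  rt : RatD d a b
  inf : rat a b OnePoint.infty = OnePoint.infty
  b0 : b.eval 0 ≠ 0
  b1 : b.eval 1 ≠ 0
  f0 : gg a b 0 = 0
  f1 : gg a b 1 = 1
  hL : 0 < L0
  hθ0 : 0 < θ
  hθ : θ < 1
  con : ∀ z : ℂ, L0 ≤ ‖z‖ → b.eval z ≠ 0 ∧ ‖dg a b z‖ ≤ θ
  ni : ∀ (y : ℂ) (ρ : ℝ), 0 < ρ → ∃ N : ℕ, ∀ m : ℕ, N < m →
    ¬ InjOn (fun z : ℂ => (rat a b)^[m] (z : OnePoint ℂ)) (ball y ρ)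
  rep : ∀ (x : ℂ) (p : ℕ), 0 < p → (rat a b)^[p] (x : OnePoint ℂ) = (x : OnePoint ℂ) → 1 < ‖tD a b p x‖
  tr : ∀ (x y : ℂ) (ρ : ℝ), 0 < ρ → ∃ (m : ℕ) (u : ℂ), u ∈ ball y ρ ∧ (rat a b)^[m] (u : OnePoint ℂ) = (x : OnePoint ℂ)

/-- the critical point `c` and the conical times of `v = g c` -/
structure CD (a b : Polynomial ℂ) (c y : ℂ) (δ : ℝ) : Prop where
  cb : b.eval c ≠ 0
  cw : (ww a b).eval c = 0
  ob : ∀ k : ℕ, b.eval ((gg a b)^[k] (gg a b c)) ≠ 0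
  inj : ∀ m n : ℕ, m < n → (gg a b)^[m] (gg a b c) ≠ (gg a b)^[n] (gg a b c)
  hδ : 0 < δ
  con : ∀ (N : ℕ) (ε : ℝ), 0 < ε → ∃ n : ℕ, N ≤ n ∧ ‖(gg a b)^[n] (gg a b c) - y‖ < ε ∧
    ∃ G : ℂ → ℂ, Cal a b (gg a b c) δ n G

/-- `c` is passive -/
def PasS (d : ℕ) (a b : Polynomial ℂ) (c : ℂ) : Prop :=
  ∀ η : Polynomial ℂ, η.natDegree ≤ 2 * d → ∃ C : ℝ, ∀ n : ℕ,
    ‖Lam a b η c n‖ * ‖tD a b n (gg a b c)‖ ≤ C * (1 + ‖(gg a b)^[n] (gg a b c)‖ ^ 2)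

/-- the integrable functions `a_n` -/
noncomputable def aS (a b : Polynomial ℂ) (v : ℂ) (n : ℕ) (z : ℂ) : ℂ :=
  tD a b n v * ∑ k ∈ Finset.range n, (tD a b k v)⁻¹ * KA ((gg a b)^[k] v) z

/-- the push forward of quadratic differentials -/
noncomputable def pf (a b : Polynomial ℂ) (α : ℂ → ℂ) (x : ℂ) : ℂ := ∑ y ∈ fs a b x, α y / dg a b y ^ 2

/-- the branch `ψ_s` -/
noncomputable def ps (a b : Polynomial ℂ) (G : ℂ → ℂ) (s : ℕ) : ℂ → ℂ := (gg a b)^[s] ∘ G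

/-- the selected sequence -/
structure SQS (a b : Polynomial ℂ) (v y x0 : ℂ) (δ : ℝ) (n s : ℕ → ℕ) (G : ℕ → ℂ → ℂ) : Prop where
  hδ : 0 < δ
  sq : SQ a b v (δ / 32) x0 n s
  nm : StrictMono n
  cal : ∀ j, Cal a b v δ (n j) (G j)
  yl : Tendsto (fun j => (gg a b)^[n j] v) atTop (𝓝 y)

/-- a constant of the cycle of `x0` -/
def Kap (a b : Polynomial ℂ) (x0 : ℂ) (κ : ℝ) : Prop := 0 < κ ∧ ∀ q : ℕ, 0 < q →
  (rat a b)^[q] (x0 : OnePoint ℂ) = (x0 : OnePoint ℂ) → ∃ ε : ℝ, 0 < ε ∧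
    ∀ z : ℂ, ‖z - x0‖ < ε → (1 + κ) * ‖z - x0‖ ≤ ‖(gg a b)^[q] z - x0‖

/-- the disc and the limit `q` -/
structure SD (a b : Polynomial ℂ) (v y x0 : ℂ) (δ : ℝ) (n s : ℕ → ℕ) (G : ℕ → ℂ → ℂ) (M : ℕ → ℝ) (w0 : ℂ) (ρ0 κ : ℝ)
    (q : ℂ → ℂ) : Prop where
  sqs : SQS a b v y x0 δ n s G
  hρ : 0 < ρ0
  hρs : ρ0 ≤ δ / (256 * KK ^ 2)
  sub : ball w0 (2 * ρ0) ⊆ ball y (δ / 8)
  w0o : ∃ i : ℕ, w0 = (gg a b)^[i] v
  M1 : ∀ j, 1 ≤ M j
  qd : DifferentiableOn ℂ q (ball w0 (2 * ρ0))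
  qn : ∀ w ∈ ball w0 (2 * ρ0), q w ≠ 0
  cv : Tendsto (fun j => ∫⁻ w in ball w0 ρ0, ‖deriv (ps a b (G j) (s j)) w ^ 2 * aS a b v (n j) (ps a b (G j) (s j) w) /
    (M j : ℂ) - q w‖ₑ) atTop (𝓝 0)
  kap : Kap a b x0 κ
  sep : ∀ᶠ j in atTop, ∀ w ∈ ball w0 ρ0, ∀ w' ∈ ball w0 ρ0,
    ‖ps a b (G j) (s j) w - ps a b (G j) (s j) w'‖ < κ * ‖ps a b (G j) (s j) w - x0‖

/-- the pull back of a Beltrami form -/
noncomputable def pb (a b : Polynomial ℂ) (k : ℕ) (φ : ℂ → ℂ) (z : ℂ) : ℂ :=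
  φ ((gg a b)^[k] z) * ((starRingEnd ℂ) (tD a b k z) / tD a b k z)

open Classical in
/-- the first entry field -/
noncomputable def FF (a b : Polynomial ℂ) (U : Set ℂ) (φ : ℂ → ℂ) (z : ℂ) : ℂ :=
  if h : ∃ k : ℕ, z ∈ (pre a b)^[k] U then pb a b (Nat.find h) φ z else 0

/-- the early returns -/
def EN (a b : Polynomial ℂ) (G : ℂ → ℂ) (n s : ℕ) (S : Set ℂ) : Set ℂ :=
  {w | w ∈ S ∧ ∃ k : ℕ, 0 < k ∧ k < n - s ∧ (gg a b)^[k] (ps a b G s w) ∈ ps a b G s '' S}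

end Pool.Agent.H78.NS
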