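import Pool.Agent.H61.TT.Area
import Pool.Agent.H78.NS.Defs

/-!
# Module CAR: the area formula for complex functions

PROOF of `car`. `area` (H61/TT/Area) is the formula for `ENNReal` valued functions, `area_piece` also gives measurability: for `f : ℂ → ENNReal` measurable `x ↦ ∑ y ∈ fs x, f y` is a.e. equal to `∑' k, ∑ y ∈ fs x, (A k).indicator f y` (measurable), for the pieces `A k` of `inj_cover` (as in the proof of `area`).
Write `F = F1 - F2 + i (F3 - F4)` with the positive and negative parts of the real and imaginary parts. For each part `p ≥ 0` put `f y = ENNReal.ofReal (p y / ‖dg y‖ ^ 2)`, measurable; `area` with `T = univ` (`pre univ = {b ≠ 0}`, conull: finitely many roots of `b`) and `ae_ww` (a.e. `dg y ≠ 0`): `∫⁻ x, ∑ y, f y = ∫⁻ y, ofReal (p y) < ∞`.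
So `x ↦ ∑ y ∈ fs x, p y / ‖dg y‖ ^ 2` (the `toReal` of the `ENNReal` sum, finite a.e.) is integrable with integral `∫ p` (`integral_toReal`, `integral_eq_lintegral_of_nonneg_ae`). Add the four parts.
Alternative: `lintegral_image..` replaced by `integral_image_eq_integral_abs_det_fderiv_smul` on the pieces `A k` and `hasSum_integral_iUnion`.
-/

set_option autoImplicit false

open Filter Topology Polynomial Metric Set MeasureTheory

namespace Pool.Agent.H78.NS

open Pool.Agent.H44.Fatou (rat)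
open Pool.Agent.H80.AJ (Br KK)
open Pool.Agent.H61.TT Pool.Agent.H57.CP Pool.Agent.H3.NC
open Pool.Agent.H1.PU (KA)

variable {d : ℕ} {a b : Polynomial ℂ}

private theorem car_ae (h : RatD d a b) {f : ℂ → ENNReal} (hf : Measurable f) :
    AEMeasurable (fun x => ∑ y ∈ fs a b x, f y) volume := by
  obtain ⟨A, hA, hdis, hinj, hU⟩ := inj_cover h
  have hsub : ∀ k, A k ⊆ {y | b.eval y ≠ 0 ∧ (ww a b).eval y ≠ 0} := by
    intro k
    rw [← hU]
    exact subset_iUnion A k
  have hp := fun k => (area_piece h (hA k) MeasurableSet.univ (hinj k) (hsub k) hf).1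
  refine ⟨fun x => ∑' k, ∑ y ∈ fs a b x, (A k).indicator f y, Measurable.tsum hp, ?_⟩
  have hfin : ∀ᵐ x : ℂ, RegV d a b x := (reg_finite h).measure_zero volume
  filter_upwards [hfin] with x hx
  have h2 : ∀ y ∈ fs a b x, f y = ∑' k, (A k).indicator f y := by
    intro y hy
    have h3 : y ∈ ⋃ k, A k := by
      rw [hU]
      exact ⟨hx.hb y hy, hx.hw y hy⟩
    obtain ⟨k, hk⟩ := mem_iUnion.1 h3
    rw [tsum_eq_single k]
    · exact (indicator_of_mem hk f).symm
    · intro j hj
      apply indicator_of_notMem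
      intro hyj
      exact (Set.disjoint_left.1 (hdis hj)) hyj hk
  rw [Finset.sum_congr rfl h2]
  exact (Summable.tsum_finsetSum (fun y _ => ENNReal.summable)).symm

private theorem car_pos (h : RatD d a b) {p : ℂ → ℝ} (h0 : ∀ y, 0 ≤ p y) (hm : Measurable p)
    (hi : Integrable p) :
    Integrable (fun x => ∑ y ∈ fs a b x, p y / ‖dg a b y‖ ^ 2) ∧
      ∫ x, ∑ y ∈ fs a b x, p y / ‖dg a b y‖ ^ 2 = ∫ y, p y := by
  have hfm : Measurable fun y => ENNReal.ofReal (p y / ‖dg a b y‖ ^ 2) :=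
    (hm.div (measurable_dg.norm.pow_const 2)).ennreal_ofReal
  have hS0 : ∀ x, 0 ≤ ∑ y ∈ fs a b x, p y / ‖dg a b y‖ ^ 2 := fun x =>
    Finset.sum_nonneg fun y _ => div_nonneg (h0 y) (by positivity)
  have hSo : ∀ x, ENNReal.ofReal (∑ y ∈ fs a b x, p y / ‖dg a b y‖ ^ 2) =
      ∑ y ∈ fs a b x, ENNReal.ofReal (p y / ‖dg a b y‖ ^ 2) := fun x =>
    ENNReal.ofReal_sum_of_nonneg fun y _ => div_nonneg (h0 y) (by positivity)
  have hae := car_ae h hfm
  have hSm : AEStronglyMeasurable (fun x => ∑ y ∈ fs a b x, p y / ‖dg a b y‖ ^ 2) volume := by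
    refine (hae.ennreal_toReal.congr (Eventually.of_forall fun x => ?_)).aestronglyMeasurable
    show (∑ y ∈ fs a b x, ENNReal.ofReal (p y / ‖dg a b y‖ ^ 2)).toReal = _
    rw [← hSo x, ENNReal.toReal_ofReal (hS0 x)]
  have hint : ∫⁻ x, ENNReal.ofReal (∑ y ∈ fs a b x, p y / ‖dg a b y‖ ^ 2) =
      ∫⁻ y, ENNReal.ofReal (p y) := by
    have h1 := area h (MeasurableSet.univ : MeasurableSet (univ : Set ℂ)) hfm
    rw [setLIntegral_univ] at h1
    rw [lintegral_congr hSo, h1]
    have hbf : ∀ᵐ y : ℂ, b.eval y ≠ 0 := by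
      rw [ae_iff]
      simp only [not_not]
      exact (finite_setOfPred_isRoot (b_ne h)).measure_zero volume
    have h2 : (pre a b univ : Set ℂ) =ᵐ[volume] univ := by
      filter_upwards [hbf] with y hy
      apply propext
      exact ⟨fun _ => trivial, fun _ => ⟨hy, trivial⟩⟩
    rw [setLIntegral_congr h2, setLIntegral_univ]
    refine lintegral_congr_ae ?_
    filter_upwards [hbf, ae_ww h] with y hy hw
    have h3 : dg a b y ≠ 0 := div_ne_zero hw (pow_ne_zero 2 hy)
    have h4 : 0 < ‖dg a b y‖ ^ 2 := by positivity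
    rw [← ENNReal.ofReal_mul (div_nonneg (h0 y) h4.le), div_mul_cancel₀ _ h4.ne']
  refine ⟨⟨hSm, ?_⟩, ?_⟩
  · rw [hasFiniteIntegral_iff_ofReal (Eventually.of_forall hS0), hint]
    exact (hasFiniteIntegral_iff_ofReal (Eventually.of_forall h0)).1 hi.2
  · rw [integral_eq_lintegral_of_nonneg_ae (Eventually.of_forall hS0) hSm, hint,
      ← integral_eq_lintegral_of_nonneg_ae (Eventually.of_forall h0) hi.1]

private theorem car_real (h : RatD d a b) {p : ℂ → ℝ} (hm : Measurable p) (hi : Integrable p) :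
    Integrable (fun x => ∑ y ∈ fs a b x, p y / ‖dg a b y‖ ^ 2) ∧
      ∫ x, ∑ y ∈ fs a b x, p y / ‖dg a b y‖ ^ 2 = ∫ y, p y := by
  obtain ⟨h1, h2⟩ := car_pos h (p := fun y => max (p y) 0) (fun y => le_max_right _ _)
    (hm.max measurable_const) hi.pos_part
  obtain ⟨h3, h4⟩ := car_pos h (p := fun y => max (-p y) 0) (fun y => le_max_right _ _)
    (hm.neg.max measurable_const) hi.neg_part
  have hs : ∀ x : ℝ, max x 0 - max (-x) 0 = x := by
    intro x
    rcases le_total 0 x with hx | hx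
    · rw [max_eq_left hx, max_eq_right (by linarith), sub_zero]
    · rw [max_eq_right hx, max_eq_left (by linarith)]
      ring
  have e : (fun x => ∑ y ∈ fs a b x, p y / ‖dg a b y‖ ^ 2) = fun x =>
      (∑ y ∈ fs a b x, max (p y) 0 / ‖dg a b y‖ ^ 2) -
        ∑ y ∈ fs a b x, max (-p y) 0 / ‖dg a b y‖ ^ 2 := by
    funext x
    rw [← Finset.sum_sub_distrib]
    refine Finset.sum_congr rfl fun y _ => ?_
    rw [← sub_div, hs]
  rw [e]
  refine ⟨h1.sub h3, ?_⟩
  rw [integral_sub h1 h3, h2, h4, ← integral_sub hi.pos_part hi.neg_part]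
  exact integral_congr_ae (Eventually.of_forall fun y => hs (p y))

theorem car (h : RatD d a b) {F : ℂ → ℂ} (hm : Measurable F) (hF : Integrable F) :
    Integrable (fun x => ∑ y ∈ fs a b x, F y / ((‖dg a b y‖ ^ 2 : ℝ) : ℂ)) ∧
      ∫ x, ∑ y ∈ fs a b x, F y / ((‖dg a b y‖ ^ 2 : ℝ) : ℂ) = ∫ y, F y := by
  obtain ⟨h1, h2⟩ := car_real h (p := fun y => (F y).re) (Complex.measurable_re.comp hm) hF.re
  obtain ⟨h3, h4⟩ := car_real h (p := fun y => (F y).im) (Complex.measurable_im.comp hm) hF.im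
  have e : (fun x => ∑ y ∈ fs a b x, F y / ((‖dg a b y‖ ^ 2 : ℝ) : ℂ)) = fun x =>
      ((∑ y ∈ fs a b x, (F y).re / ‖dg a b y‖ ^ 2 : ℝ) : ℂ) +
        ((∑ y ∈ fs a b x, (F y).im / ‖dg a b y‖ ^ 2 : ℝ) : ℂ) * Complex.I := by
    funext x
    rw [Complex.ofReal_sum, Complex.ofReal_sum, Finset.sum_mul, ← Finset.sum_add_distrib]
    refine Finset.sum_congr rfl fun y _ => ?_
    rw [Complex.ofReal_div, Complex.ofReal_div]
    conv_lhs => rw [← Complex.re_add_im (F y)]
    ring
  rw [e]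
  refine ⟨h1.ofReal.add (h3.ofReal.mul_const _), ?_⟩
  rw [integral_add h1.ofReal (h3.ofReal.mul_const _), integral_mul_const,
    integral_complex_ofReal, integral_complex_ofReal, h2, h4]
  exact integral_re_add_im hF

end Pool.Agent.H78.NS
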