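import Pool.Agent.H78.NS.PKD
import Pool.Agent.H78.NS.MDU
import Pool.Agent.H3.NC.KIN

/-!
# Module CVG: convergence of the push forwards on a small disc

PROOF. `S = ball w0 ρ0`, `ψ = ps (G j) (s j)`, `r = Dk (s j) / Dk (n j)`, `c = ch j = (ψ - P s) / r`, `ω j = r tD n v / tD s v`, `Φ x = ∑_(k<n) be k / (x - ze k)`. Eventually (`mdu1`) `ψ` is holomorphic and injective on `S`, so is `c`, `deriv ψ = r deriv c`.
IDENTITY: `ψ w - P k = r (c w - ze k)` and `tD n v * (tD k v)⁻¹ = (tD n v / tD s v) be k`, so `deriv ψ w ^ 2 * (tD n v * An (ψ w)) = ω j * deriv c w ^ 2 * Φ (c w)`.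
ERROR: `deriv ψ w ^ 2 * (aS (ψ w) - tD n v An (ψ w))` has norm at most `‖deriv ψ w‖ ^ 2 C (‖(ψ w)⁻¹‖ + ‖(ψ w - 1)⁻¹‖)`, its integral over `S` is `C ∫⁻ over ψ '' S of (‖z⁻¹‖ + ‖(z - 1)⁻¹‖)` (change of variables, `lintegral_image_eq_lintegral_abs_det_fderiv_mul`, `abs_det_smulRight` of H61/TT/Area) `≤ 2 C (3 π δ' + volume (ψ '' S) / δ')` for every `δ' > 0` (`kin`, H3/NC/KIN), tends to 0 (`mdu3`). `M j ≥ 1`.
MAIN: (i) `∫⁻_S ‖deriv c‖ ^ 2 ‖(Φ / M - F / x) (c w)‖ = ∫⁻ over c '' S ‖Φ / M - F / x‖ ≤` the integral over `ball 0 ε1` (eventually `c '' S ⊆ ball 0 ε1`: `‖χ‖ ≤ ε' < ε1` on the compact `closedBall w0 ρ0`, uniform convergence), tends to 0 (`hp.cF`); `‖ω j‖ = 1` (or bounded, as convergent).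
(ii) `ω j * deriv c w ^ 2 * (F (c w) / c w) → ω * deriv χ w ^ 2 * (F (χ w) / χ w)` uniformly for `w ∈ S`: `F x / x` is uniformly continuous and bounded on a compact neighbourhood (in `ball 0 ε1`, without 0) of the compact set `χ (closedBall w0 ρ0)`, which contains `c '' S` for large `j`; `deriv χ` is bounded on `closedBall w0 ρ0`. (Or pointwise convergence and a uniform bound: dominated convergence on `S`.)
-/

set_option autoImplicit false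

open Filter Topology Polynomial Metric Set MeasureTheory

namespace Pool.Agent.H78.NS

open Pool.Agent.H44.Fatou (rat)
open Pool.Agent.H80.AJ (Br KK)
open Pool.Agent.H61.TT Pool.Agent.H57.CP Pool.Agent.H3.NC
open Pool.Agent.H1.PU (KA)

variable {d : ℕ} {a b : Polynomial ℂ} {L0 θ δ ε1 : ℝ} {v y x0 ω : ℂ} {n s : ℕ → ℕ} {G : ℕ → ℂ → ℂ} {M : ℕ → ℝ}
  {F χ : ℂ → ℂ}

/-- change of variables for an injective holomorphic function -/
private theorem cvg_cov {g : ℂ → ℂ} {A : Set ℂ} (hA : IsOpen A) (hg : DifferentiableOn ℂ g A)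
    (hi : InjOn g A) (F : ℂ → ENNReal) :
    ∫⁻ x in g '' A, F x = ∫⁻ x in A, ENNReal.ofReal (‖deriv g x‖ ^ 2) * F (g x) := by
  rw [lintegral_image_eq_lintegral_abs_det_fderiv_mul volume hA.measurableSet
    (f' := fun y => (ContinuousLinearMap.smulRight (1 : ℂ →L[ℂ] ℂ) (deriv g y)).restrictScalars ℝ)]
  · refine setLIntegral_congr_fun hA.measurableSet ?_
    intro y hy
    beta_reduce
    rw [Pool.Agent.H61.TT.abs_det_smulRight]
  · intro y hy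
    exact (((hg.differentiableAt (hA.mem_nhds hy)).hasDerivAt.hasFDerivAt).restrictScalars
      ℝ).hasFDerivWithinAt
  · exact hi

/-- the kernel integrated over small sets -/
private theorem cvg_kin {U : ℕ → Set ℂ} (hU : ∀ᶠ j in atTop, MeasurableSet (U j))
    (hv : Tendsto (fun j => volume (U j)) atTop (𝓝 0)) (p : ℂ) :
    Tendsto (fun j => ∫⁻ x in U j, ‖(x - p)⁻¹‖ₑ) atTop (𝓝 0) := by
  rw [ENNReal.tendsto_nhds_zero]
  intro ε hε
  obtain ⟨e, he0, heε⟩ : ∃ e : ℝ, 0 < e ∧ ENNReal.ofReal e ≤ ε := by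
    rcases eq_or_ne ε ⊤ with rfl | hne
    · exact ⟨1, one_pos, le_top⟩
    · exact ⟨ε.toReal, ENNReal.toReal_pos hε.ne' hne, by rw [ENNReal.ofReal_toReal hne]⟩
  have hπ := Real.pi_pos
  obtain ⟨δ', hδ', hδe⟩ : ∃ δ' : ℝ, 0 < δ' ∧ 3 * Real.pi * δ' ≤ e / 2 := by
    refine ⟨e / 2 / (3 * Real.pi), by positivity, le_of_eq ?_⟩
    field_simp
  have h1 : Tendsto (fun j => ENNReal.ofReal δ'⁻¹ * volume (U j)) atTop (𝓝 0) := by
    have h2 := ENNReal.Tendsto.const_mul (a := ENNReal.ofReal δ'⁻¹) hv (Or.inr ENNReal.ofReal_ne_top)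
    rwa [mul_zero] at h2
  have h3 := (ENNReal.tendsto_nhds_zero.1 h1) (ENNReal.ofReal (e / 2)) (ENNReal.ofReal_pos.2 (by positivity))
  filter_upwards [hU, h3] with j hUj h4
  calc ∫⁻ x in U j, ‖(x - p)⁻¹‖ₑ ≤ ENNReal.ofReal (3 * Real.pi * δ') + ENNReal.ofReal δ'⁻¹ * volume (U j) :=
        kin hUj p hδ'
    _ ≤ ENNReal.ofReal (e / 2) + ENNReal.ofReal (e / 2) := add_le_add (ENNReal.ofReal_le_ofReal hδe) h4
    _ = ENNReal.ofReal e := by
        rw [← ENNReal.ofReal_add (by positivity) (by positivity)]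
        congr 1
        ring
    _ ≤ ε := heε

/-- the identity between the scaled functions -/
private theorem cvg_id {v : ℂ} {n s : ℕ} (hs : 0 < Dk a b v s) (hn : 0 < Dk a b v n) (G : ℂ → ℂ) (w : ℂ) :
    deriv (ps a b G s) w ^ 2 * (tD a b n v * An a b v n (ps a b G s w)) =
      (((Dk a b v s / Dk a b v n : ℝ) : ℂ) * tD a b n v / tD a b s v) * deriv (ch a b v n s G) w ^ 2 *
        ∑ k ∈ Finset.range n, be a b v s k / (ch a b v n s G w - ze a b v n s k) := by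
  set r : ℝ := Dk a b v s / Dk a b v n with hr
  have hr0 : 0 < r := div_pos hs hn
  have hrc : (r : ℂ) ≠ 0 := by exact_mod_cast hr0.ne'
  have hts : tD a b s v ≠ 0 := norm_pos_iff.1 hs
  have hsum : ∑ k ∈ Finset.range n, be a b v s k / (ch a b v n s G w - ze a b v n s k) =
      (tD a b s v * (r : ℂ)) * An a b v n (ps a b G s w) := by
    rw [An, Finset.mul_sum]
    refine Finset.sum_congr rfl fun k _ => ?_
    have e1 : ch a b v n s G w - ze a b v n s k = (ps a b G s w - (gg a b)^[k] v) / (r : ℂ) := by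
      unfold ch ze
      rw [← hr, ← sub_div]
      congr 1
      ring
    rw [e1, div_div_eq_mul_div]
    unfold Pool.Agent.H3.NC.be
    rw [div_eq_mul_inv (tD a b s v), mul_assoc, mul_comm ((tD a b k v)⁻¹) (r : ℂ), ← mul_assoc, mul_div_assoc]
  have hder : deriv (ch a b v n s G) w = deriv (ps a b G s) w / (r : ℂ) := by
    have e : ch a b v n s G = fun w => (ps a b G s w - (gg a b)^[s] v) / (r : ℂ) := rfl
    rw [e, deriv_div_const, deriv_sub_const]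
  rw [hsum, hder]
  field_simp

private theorem cvg_unif (hp : PK a b v y x0 δ n s G M ε1 F χ ω) {w0 : ℂ} {ρ0 : ℝ}
    (hsub : closedBall w0 ρ0 ⊆ ball y (δ / 8)) (hc : ∀ w ∈ closedBall w0 ρ0, χ w ≠ 0 ∧ ‖χ w‖ < ε1)
    {e : ℝ} (he : 0 < e) : ∀ᶠ j in atTop, ∀ w ∈ closedBall w0 ρ0,
      ‖ch a b v (n j) (s j) (G j) w‖ < ε1 ∧
      ‖(((Dk a b v (s j) / Dk a b v (n j) : ℝ) : ℂ) * tD a b (n j) v / tD a b (s j) v) *
        deriv (ch a b v (n j) (s j) (G j)) w ^ 2 *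
        (F (ch a b v (n j) (s j) (G j) w) / ch a b v (n j) (s j) (G j) w) -
        ω * deriv χ w ^ 2 * (F (χ w) / χ w)‖ < e := by
  have hχc : ContinuousOn χ (closedBall w0 ρ0) := hp.χd.continuousOn.mono hsub
  have hχdc : ContinuousOn (deriv χ) (closedBall w0 ρ0) := (hp.χd.deriv isOpen_ball).continuousOn.mono hsub
  have hK0 : IsCompact (χ '' closedBall w0 ρ0) := (isCompact_closedBall w0 ρ0).image_of_continuousOn hχc
  have hVo : IsOpen (ball (0 : ℂ) ε1 ∩ {0}ᶜ) := isOpen_ball.inter isOpen_compl_singleton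
  have hK0V : χ '' closedBall w0 ρ0 ⊆ ball (0 : ℂ) ε1 ∩ {0}ᶜ := by
    rintro _ ⟨w, hw, rfl⟩
    exact ⟨mem_ball_zero_iff.2 (hc w hw).2, (hc w hw).1⟩
  obtain ⟨ε2, hε2, hK1⟩ := hK0.exists_cthickening_subset_open hVo hK0V
  have hK1c : IsCompact (cthickening ε2 (χ '' closedBall w0 ρ0)) := hK0.cthickening
  obtain ⟨R, hR⟩ := (isCompact_closedBall w0 ρ0).exists_bound_of_continuousOn hχdc
  obtain ⟨g, hg⟩ : ∃ g : ℂ × ℂ × ℂ → ℂ, g = fun p => p.1 * p.2.1 ^ 2 * (F p.2.2 / p.2.2) := ⟨_, rfl⟩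
  have hgc : ContinuousOn g (closedBall (0 : ℂ) 2 ×ˢ closedBall (0 : ℂ) (R + 1) ×ˢ cthickening ε2 (χ '' closedBall w0 ρ0)) := by
    rw [hg]
    refine ContinuousOn.mul (continuous_fst.continuousOn.mul ((continuous_fst.comp continuous_snd).continuousOn.pow 2)) ?_
    refine ContinuousOn.div ?_ (continuous_snd.comp continuous_snd).continuousOn ?_
    · refine hp.Fd.continuousOn.comp (continuous_snd.comp continuous_snd).continuousOn ?_
      rintro ⟨p1, p2, p3⟩ ⟨-, -, h3⟩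
      exact (hK1 h3).1
    · rintro ⟨p1, p2, p3⟩ ⟨-, -, h3⟩
      exact (hK1 h3).2
  have hgu := ((isCompact_closedBall (0 : ℂ) 2).prod ((isCompact_closedBall (0 : ℂ) (R + 1)).prod hK1c)).uniformContinuousOn_of_continuous hgc
  rw [Metric.uniformContinuousOn_iff] at hgu
  obtain ⟨η, hη, hgη⟩ := hgu e he
  have h1 := (Metric.tendsto_nhds.1 hp.cω) η hη
  have h2 := (Metric.tendstoUniformlyOn_iff.1 hp.cχ) (min η ε2) (lt_min hη hε2)
  have h3 := (Metric.tendstoUniformlyOn_iff.1 hp.cχd) (min η 1) (lt_min hη one_pos)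
  filter_upwards [h1, h2, h3] with j hj1 hj2 hj3 w hw
  have hn0 : 0 < Dk a b v (n j) := hp.sqs.sq.pos j (n j) le_rfl
  have hs0 : 0 < Dk a b v (s j) := hp.sqs.sq.pos j (s j) (hp.sqs.sq.lt j).le
  have hω1 : ‖((Dk a b v (s j) / Dk a b v (n j) : ℝ) : ℂ) * tD a b (n j) v / tD a b (s j) v‖ = 1 := by
    rw [norm_div, norm_mul, Complex.norm_real, Real.norm_of_nonneg (div_pos hs0 hn0).le]
    change Dk a b v (s j) / Dk a b v (n j) * Dk a b v (n j) / Dk a b v (s j) = 1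
    field_simp
  have e1 := hj2 w (hsub hw)
  have e2 := hj3 w (hsub hw)
  have m1 : ch a b v (n j) (s j) (G j) w ∈ cthickening ε2 (χ '' closedBall w0 ρ0) := by
    refine mem_cthickening_of_dist_le _ (χ w) _ _ ⟨w, hw, rfl⟩ ?_
    rw [dist_comm]
    exact (e1.trans_le (min_le_right _ _)).le
  have m2 : χ w ∈ cthickening ε2 (χ '' closedBall w0 ρ0) := self_subset_cthickening _ ⟨w, hw, rfl⟩
  have m3 : deriv χ w ∈ closedBall (0 : ℂ) (R + 1) := by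
    rw [mem_closedBall_zero_iff]
    have := hR w hw
    linarith
  have m4 : deriv (ch a b v (n j) (s j) (G j)) w ∈ closedBall (0 : ℂ) (R + 1) := by
    rw [mem_closedBall_zero_iff]
    have h5 := hR w hw
    have h6 : ‖deriv (ch a b v (n j) (s j) (G j)) w‖ ≤
        ‖deriv (ch a b v (n j) (s j) (G j)) w - deriv χ w‖ + ‖deriv χ w‖ := by
      have := norm_add_le (deriv (ch a b v (n j) (s j) (G j)) w - deriv χ w) (deriv χ w)
      rwa [sub_add_cancel] at this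
    have h7 : ‖deriv (ch a b v (n j) (s j) (G j)) w - deriv χ w‖ < 1 := by
      rw [← dist_eq_norm, dist_comm]
      exact e2.trans_le (min_le_right _ _)
    linarith
  refine ⟨mem_ball_zero_iff.1 (hK1 m1).1, ?_⟩
  have h8 := hgη (((Dk a b v (s j) / Dk a b v (n j) : ℝ) : ℂ) * tD a b (n j) v / tD a b (s j) v,
    deriv (ch a b v (n j) (s j) (G j)) w, ch a b v (n j) (s j) (G j) w)
    ⟨by rw [mem_closedBall_zero_iff]; dsimp only; rw [hω1]; norm_num, m4, m1⟩ (ω, deriv χ w, χ w)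
    ⟨by rw [mem_closedBall_zero_iff]; dsimp only; rw [hp.hω]; norm_num, m3, m2⟩ (by
      rw [Prod.dist_eq, Prod.dist_eq]
      refine max_lt hj1 (max_lt ?_ ?_)
      · dsimp only
        rw [dist_comm]
        exact e2.trans_le (min_le_left _ _)
      · dsimp only
        rw [dist_comm]
        exact e1.trans_le (min_le_left _ _))
  rw [hg, dist_eq_norm] at h8
  exact h8

theorem con (h : SP d a b L0 θ) (hp : PK a b v y x0 δ n s G M ε1 F χ ω) {C : ℝ}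
    (tel : ∀ j z, z ≠ 0 → z ≠ 1 → (∀ k < n j, (gg a b)^[k] v ≠ z) →
      ‖aS a b v (n j) z - tD a b (n j) v * An a b v (n j) z‖ ≤ C * (‖z⁻¹‖ + ‖(z - 1)⁻¹‖)) {w0 : ℂ} {ρ0 : ℝ}
    (hρ : 0 < ρ0) (hsub : closedBall w0 ρ0 ⊆ ball y (δ / 8)) (hc : ∀ w ∈ closedBall w0 ρ0, χ w ≠ 0 ∧ ‖χ w‖ < ε1) :
    Tendsto (fun j => ∫⁻ w in ball w0 ρ0, ‖deriv (ps a b (G j) (s j)) w ^ 2 * aS a b v (n j) (ps a b (G j) (s j) w) /
      (M j : ℂ) - ω * deriv χ w ^ 2 * (F (χ w) / χ w)‖ₑ) atTop (𝓝 0) := by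
  have hS : ball w0 ρ0 ⊆ ball y (δ / 8) := ball_subset_closedBall.trans hsub
  have hmd := mdu1 h hp.sqs hS
  have hC0 : 0 ≤ |C| := abs_nonneg C
  have tel' : ∀ j z, z ∉ {z : ℂ | z = 0 ∨ z = 1 ∨ ∃ k < n j, (gg a b)^[k] v = z} →
      ‖aS a b v (n j) z - tD a b (n j) v * An a b v (n j) z‖ ≤ |C| * (‖z⁻¹‖ + ‖(z - 1)⁻¹‖) := by
    intro j z hz
    refine (tel j z (fun h0 => hz (Or.inl h0)) (fun h1 => hz (Or.inr (Or.inl h1)))
      (fun k hk he => hz (Or.inr (Or.inr ⟨k, hk, he⟩)))).trans ?_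
    gcongr
    exact le_abs_self C
  -- measurability of the images
  have hUm : ∀ᶠ j in atTop, MeasurableSet (ps a b (G j) (s j) '' ball w0 ρ0) := by
    filter_upwards [hmd] with j hj
    obtain ⟨-, -, hd, hi, -⟩ := hj
    exact measurableSet_ball.image_of_continuousOn_injOn hd.continuousOn hi
  have hvol := mdu3 h hp.sqs hS
  have hA : Tendsto (fun j => ENNReal.ofReal |C| * ((∫⁻ z in ps a b (G j) (s j) '' ball w0 ρ0, ‖(z - 0)⁻¹‖ₑ) +
      ∫⁻ z in ps a b (G j) (s j) '' ball w0 ρ0, ‖(z - 1)⁻¹‖ₑ)) atTop (𝓝 0) := by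
    have h1 := (cvg_kin hUm hvol 0).add (cvg_kin hUm hvol 1)
    rw [add_zero] at h1
    have h2 := ENNReal.Tendsto.const_mul (a := ENNReal.ofReal |C|) h1 (Or.inr ENNReal.ofReal_ne_top)
    rwa [mul_zero] at h2
  have hAB := hA.add hp.cF
  rw [add_zero] at hAB
  rw [ENNReal.tendsto_nhds_zero]
  intro ε hε
  obtain ⟨e, he0, heε⟩ : ∃ e : ℝ, 0 < e ∧ ENNReal.ofReal e ≤ ε := by
    rcases eq_or_ne ε ⊤ with rfl | hne
    · exact ⟨1, one_pos, le_top⟩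
    · exact ⟨ε.toReal, ENNReal.toReal_pos hε.ne' hne, by rw [ENNReal.ofReal_toReal hne]⟩
  obtain ⟨V, hV0, hV⟩ : ∃ V : ℝ, 0 ≤ V ∧ volume (ball w0 ρ0) = ENNReal.ofReal V :=
    ⟨(volume (ball w0 ρ0)).toReal, ENNReal.toReal_nonneg, (ENNReal.ofReal_toReal measure_ball_lt_top.ne).symm⟩
  obtain ⟨e', he', hee⟩ : ∃ e' : ℝ, 0 < e' ∧ e' * V ≤ e / 2 := by
    refine ⟨e / (2 * (V + 1)), by positivity, ?_⟩
    rw [div_mul_eq_mul_div, div_le_div_iff₀ (by positivity) (by positivity)]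
    nlinarith
  have h4 := (ENNReal.tendsto_nhds_zero.1 hAB) (ENNReal.ofReal (e / 2)) (ENNReal.ofReal_pos.2 (by positivity))
  filter_upwards [hmd, cvg_unif hp hsub hc he', h4] with j hj1 hj2 hj3
  obtain ⟨-, -, hd, hi, -⟩ := hj1
  have hn0 : 0 < Dk a b v (n j) := hp.sqs.sq.pos j (n j) le_rfl
  have hs0 : 0 < Dk a b v (s j) := hp.sqs.sq.pos j (s j) (hp.sqs.sq.lt j).le
  have hr0 : 0 < Dk a b v (s j) / Dk a b v (n j) := div_pos hs0 hn0
  have hrc : ((Dk a b v (s j) / Dk a b v (n j) : ℝ) : ℂ) ≠ 0 := by exact_mod_cast hr0.ne'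
  obtain ⟨ψ, hψ⟩ : ∃ ψ, ψ = ps a b (G j) (s j) := ⟨_, rfl⟩
  obtain ⟨κ, hκ⟩ : ∃ κ, κ = ch a b v (n j) (s j) (G j) := ⟨_, rfl⟩
  obtain ⟨Φ, hΦ⟩ : ∃ Φ : ℂ → ℂ, Φ = fun x => (∑ k ∈ Finset.range (n j), be a b v (s j) k /
    (x - ze a b v (n j) (s j) k)) / (M j : ℂ) - F x / x := ⟨_, rfl⟩
  obtain ⟨o, ho⟩ : ∃ o : ℂ, o = ((Dk a b v (s j) / Dk a b v (n j) : ℝ) : ℂ) * tD a b (n j) v / tD a b (s j) v := ⟨_, rfl⟩
  have ho1 : ‖o‖ = 1 := by
    rw [ho, norm_div, norm_mul, Complex.norm_real, Real.norm_of_nonneg hr0.le]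
    change Dk a b v (s j) / Dk a b v (n j) * Dk a b v (n j) / Dk a b v (s j) = 1
    field_simp
  have hκd : DifferentiableOn ℂ κ (ball w0 ρ0) := by
    rw [hκ]
    exact (hd.sub_const _).div_const _
  have hκi : InjOn κ (ball w0 ρ0) := by
    intro w hw w' hw' hww
    apply hi hw hw'
    rw [hκ] at hww
    unfold ch at hww
    rw [div_left_inj' hrc] at hww
    exact sub_left_inj.1 hww
  have hκim : κ '' ball w0 ρ0 ⊆ ball 0 ε1 := by
    rintro _ ⟨w, hw, rfl⟩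
    rw [mem_ball_zero_iff, hκ]
    exact (hj2 w (ball_subset_closedBall hw)).1
  have hMj := hp.M1 j
  have hMc : (M j : ℂ) ≠ 0 := by
    have : M j ≠ 0 := by linarith
    exact_mod_cast this
  rw [← hψ] at hd hi hj3 ⊢
  have hpt : ∀ w ∈ ball w0 ρ0, ψ w ∉ {z : ℂ | z = 0 ∨ z = 1 ∨ ∃ k < n j, (gg a b)^[k] v = z} → ‖deriv ψ w ^ 2 * aS a b v (n j) (ψ w) / (M j : ℂ) - ω * deriv χ w ^ 2 * (F (χ w) / χ w)‖ₑ ≤
      ENNReal.ofReal (‖deriv ψ w‖ ^ 2) * (ENNReal.ofReal |C| * (‖(ψ w - 0)⁻¹‖ₑ + ‖(ψ w - 1)⁻¹‖ₑ)) +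
        (ENNReal.ofReal (‖deriv κ w‖ ^ 2) * ‖Φ (κ w)‖ₑ + ENNReal.ofReal e') := by
    intro w hw hwB
    have hid := cvg_id hs0 hn0 (G j) w
    rw [← ho, ← hψ, ← hκ] at hid
    have hdec : deriv ψ w ^ 2 * aS a b v (n j) (ψ w) / (M j : ℂ) - ω * deriv χ w ^ 2 * (F (χ w) / χ w) =
        deriv ψ w ^ 2 * (aS a b v (n j) (ψ w) - tD a b (n j) v * An a b v (n j) (ψ w)) / (M j : ℂ) +
        (o * deriv κ w ^ 2 * Φ (κ w) + (o * deriv κ w ^ 2 * (F (κ w) / κ w) - ω * deriv χ w ^ 2 * (F (χ w) / χ w))) := by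
      have e1 : deriv ψ w ^ 2 * (aS a b v (n j) (ψ w) - tD a b (n j) v * An a b v (n j) (ψ w)) / (M j : ℂ) =
          deriv ψ w ^ 2 * aS a b v (n j) (ψ w) / (M j : ℂ) -
            (deriv ψ w ^ 2 * (tD a b (n j) v * An a b v (n j) (ψ w))) / (M j : ℂ) := by
        ring
      rw [e1, hid, hΦ]
      ring
    rw [hdec]
    refine (enorm_add_le _ _).trans (add_le_add ?_ ((enorm_add_le _ _).trans (add_le_add ?_ ?_)))
    · have e1 : ENNReal.ofReal |C| * (‖(ψ w - 0)⁻¹‖ₑ + ‖(ψ w - 1)⁻¹‖ₑ) =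
          ENNReal.ofReal (|C| * (‖(ψ w)⁻¹‖ + ‖(ψ w - 1)⁻¹‖)) := by
        rw [sub_zero, ENNReal.ofReal_mul hC0, ENNReal.ofReal_add (norm_nonneg _) (norm_nonneg _), ofReal_norm, ofReal_norm]
      rw [e1, ← ENNReal.ofReal_mul (by positivity), ← ofReal_norm]
      apply ENNReal.ofReal_le_ofReal
      rw [norm_div, norm_mul, norm_pow, Complex.norm_real, Real.norm_of_nonneg (by linarith : 0 ≤ M j)]
      refine (div_le_self (by positivity) hMj).trans ?_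
      exact mul_le_mul_of_nonneg_left (tel' j (ψ w) hwB) (by positivity)
    · rw [enorm_mul, enorm_mul, ← ofReal_norm o, ho1, ENNReal.ofReal_one, one_mul, ← ofReal_norm (deriv κ w ^ 2), norm_pow]
    · rw [← ofReal_norm]
      apply ENNReal.ofReal_le_ofReal
      have := (hj2 w (ball_subset_closedBall hw)).2
      rw [← ho, ← hκ] at this
      exact this.le
  have hfinB : {z : ℂ | z = 0 ∨ z = 1 ∨ ∃ k < n j, (gg a b)^[k] v = z}.Finite := by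
    refine ((Set.finite_singleton (0 : ℂ)).union ((Set.finite_singleton (1 : ℂ)).union
      ((Finset.range (n j)).finite_toSet.image fun k => (gg a b)^[k] v))).subset ?_
    rintro z (rfl | rfl | ⟨k, hk, rfl⟩)
    · exact Or.inl rfl
    · exact Or.inr (Or.inl rfl)
    · exact Or.inr (Or.inr ⟨k, by simpa using hk, rfl⟩)
  have hfin : {w : ℂ | w ∈ ball w0 ρ0 ∧ ψ w ∈ {z : ℂ | z = 0 ∨ z = 1 ∨ ∃ k < n j, (gg a b)^[k] v = z}}.Finite := by
    refine Set.Finite.of_finite_image (f := ψ) (hfinB.subset ?_) (hi.mono fun w hw => hw.1)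
    rintro _ ⟨w, hw, rfl⟩
    exact hw.2
  have hae : ∀ᵐ w ∂(volume.restrict (ball w0 ρ0)),
      ‖deriv ψ w ^ 2 * aS a b v (n j) (ψ w) / (M j : ℂ) - ω * deriv χ w ^ 2 * (F (χ w) / χ w)‖ₑ ≤
      ENNReal.ofReal (‖deriv ψ w‖ ^ 2) * (ENNReal.ofReal |C| * (‖(ψ w - 0)⁻¹‖ₑ + ‖(ψ w - 1)⁻¹‖ₑ)) +
        (ENNReal.ofReal (‖deriv κ w‖ ^ 2) * ‖Φ (κ w)‖ₑ + ENNReal.ofReal e') := by
    rw [ae_restrict_iff' measurableSet_ball]
    filter_upwards [compl_mem_ae_iff.2 (hfin.measure_zero volume)] with w hw hwb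
    exact hpt w hwb fun hB => hw ⟨hwb, hB⟩
  have hψm : AEMeasurable ψ (volume.restrict (ball w0 ρ0)) := hd.continuousOn.aemeasurable measurableSet_ball
  have hAm : AEMeasurable (fun w => ENNReal.ofReal (‖deriv ψ w‖ ^ 2) *
      (ENNReal.ofReal |C| * (‖(ψ w - 0)⁻¹‖ₑ + ‖(ψ w - 1)⁻¹‖ₑ))) (volume.restrict (ball w0 ρ0)) := by
    have m1 : Measurable fun w => ENNReal.ofReal (‖deriv ψ w‖ ^ 2) :=
      ((measurable_deriv ψ).norm.pow_const 2).ennreal_ofReal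
    have m2 : AEMeasurable (fun w => ‖(ψ w - 0)⁻¹‖ₑ) (volume.restrict (ball w0 ρ0)) := ((hψm.sub_const 0).inv).enorm
    have m3 : AEMeasurable (fun w => ‖(ψ w - 1)⁻¹‖ₑ) (volume.restrict (ball w0 ρ0)) := ((hψm.sub_const 1).inv).enorm
    have m4 : AEMeasurable (fun w => ‖(ψ w - 0)⁻¹‖ₑ + ‖(ψ w - 1)⁻¹‖ₑ) (volume.restrict (ball w0 ρ0)) := m2.add m3
    exact m1.aemeasurable.mul (m4.const_mul _)
  calc ∫⁻ w in ball w0 ρ0, ‖deriv ψ w ^ 2 * aS a b v (n j) (ψ w) / (M j : ℂ) - ω * deriv χ w ^ 2 * (F (χ w) / χ w)‖ₑ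
      ≤ ∫⁻ w in ball w0 ρ0, (ENNReal.ofReal (‖deriv ψ w‖ ^ 2) * (ENNReal.ofReal |C| * (‖(ψ w - 0)⁻¹‖ₑ + ‖(ψ w - 1)⁻¹‖ₑ)) +
        (ENNReal.ofReal (‖deriv κ w‖ ^ 2) * ‖Φ (κ w)‖ₑ + ENNReal.ofReal e')) :=
        lintegral_mono_ae hae
    _ = (∫⁻ w in ball w0 ρ0, ENNReal.ofReal (‖deriv ψ w‖ ^ 2) * (ENNReal.ofReal |C| * (‖(ψ w - 0)⁻¹‖ₑ + ‖(ψ w - 1)⁻¹‖ₑ))) +
        ((∫⁻ w in ball w0 ρ0, ENNReal.ofReal (‖deriv κ w‖ ^ 2) * ‖Φ (κ w)‖ₑ) + ENNReal.ofReal e' * volume (ball w0 ρ0)) := by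
        rw [lintegral_add_left' hAm, lintegral_add_right _ measurable_const, lintegral_const, Measure.restrict_apply_univ]
    _ = ENNReal.ofReal |C| * ((∫⁻ z in ψ '' ball w0 ρ0, ‖(z - 0)⁻¹‖ₑ) + ∫⁻ z in ψ '' ball w0 ρ0, ‖(z - 1)⁻¹‖ₑ) +
        ((∫⁻ x in κ '' ball w0 ρ0, ‖Φ x‖ₑ) + ENNReal.ofReal e' * volume (ball w0 ρ0)) := by
        rw [← cvg_cov isOpen_ball hd hi (fun z => ENNReal.ofReal |C| * (‖(z - 0)⁻¹‖ₑ + ‖(z - 1)⁻¹‖ₑ)),
          ← cvg_cov isOpen_ball hκd hκi (fun x => ‖Φ x‖ₑ), lintegral_const_mul _ (by fun_prop),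
          lintegral_add_left (by fun_prop)]
    _ ≤ ENNReal.ofReal |C| * ((∫⁻ z in ψ '' ball w0 ρ0, ‖(z - 0)⁻¹‖ₑ) + ∫⁻ z in ψ '' ball w0 ρ0, ‖(z - 1)⁻¹‖ₑ) +
        ((∫⁻ x in ball (0 : ℂ) ε1, ‖Φ x‖ₑ) + ENNReal.ofReal (e / 2)) := by
        refine add_le_add le_rfl (add_le_add (lintegral_mono_set hκim) ?_)
        rw [hV, ← ENNReal.ofReal_mul he'.le]
        exact ENNReal.ofReal_le_ofReal hee
    _ ≤ ENNReal.ofReal (e / 2) + ENNReal.ofReal (e / 2) := by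
        rw [← add_assoc]
        refine add_le_add ?_ le_rfl
        rw [hΦ]
        exact hj3
    _ = ENNReal.ofReal e := by
        rw [← ENNReal.ofReal_add (by positivity) (by positivity)]
        congr 1
        ring
    _ ≤ ε := heε

end Pool.Agent.H78.NS
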