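import Pool.Agent.H78.NS.Defs

/-!
# Module UNI: high iterates are not injective on discs, uniformly

PROOF. `closedBall 0 R` is compact: finitely many centres `y i` with `closedBall 0 R ⊆ ⋃ ball (y i) (ρ / 2)` (`IsCompact.finite_cover_balls`), `N` the maximum of the numbers of `h.ni (y i) (ρ / 2)`. For `‖w‖ ≤ R`: `w ∈ ball (y i) (ρ / 2)`, so `ball (y i) (ρ / 2) ⊆ ball w ρ`: not injective on the smaller ball implies not injective on the larger one (`InjOn.mono`).
-/

set_option autoImplicit false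

open Filter Topology Polynomial Metric Set MeasureTheory

namespace Pool.Agent.H78.NS

open Pool.Agent.H44.Fatou (rat)
open Pool.Agent.H80.AJ (Br KK)
open Pool.Agent.H61.TT Pool.Agent.H57.CP Pool.Agent.H3.NC
open Pool.Agent.H1.PU (KA)

variable {d : ℕ} {a b : Polynomial ℂ} {L0 θ : ℝ}

theorem uni (h : SP d a b L0 θ) (R : ℝ) {ρ : ℝ} (hρ : 0 < ρ) : ∃ N : ℕ, ∀ w : ℂ, ‖w‖ ≤ R → ∀ m : ℕ, N < m →
    ¬ InjOn (fun z : ℂ => (rat a b)^[m] (z : OnePoint ℂ)) (ball w ρ) := by
  have hn : ∀ y : ℂ, ∃ N : ℕ, ∀ m : ℕ, N < m →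
      ¬ InjOn (fun z : ℂ => (rat a b)^[m] (z : OnePoint ℂ)) (ball y (ρ / 2)) := fun y => h.ni y (ρ / 2) (by linarith)
  choose N' hN' using hn
  obtain ⟨t, -, ht⟩ := (isCompact_closedBall (0 : ℂ) R).elim_nhds_subcover (fun y => ball y (ρ / 2))
    (fun y _ => ball_mem_nhds y (by linarith))
  refine ⟨t.sup N', fun w hw m hm hinj => ?_⟩
  have hw' : w ∈ closedBall (0 : ℂ) R := by
    rw [mem_closedBall, dist_zero_right]
    exact hw
  have h1 := ht hw'
  simp only [Set.mem_iUnion] at h1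
  obtain ⟨y, hy, hwy⟩ := h1
  refine hN' y m (lt_of_le_of_lt (Finset.le_sup hy) hm) (hinj.mono ?_)
  intro z hz
  rw [mem_ball] at hz hwy ⊢
  calc dist z w ≤ dist z y + dist w y := dist_triangle_right z w y
    _ < ρ := by linarith

end Pool.Agent.H78.NS
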