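import Pool.Agent.H78.NS.MDU
import Pool.Agent.H78.NS.UNI

/-!
# Module ERL: lacunarity of the returns to `ψ_s(S)`

PROOF. Write `P i = gg^[i] v`, `r i = Dk i / Dk (n j)`, `ψ i = ps (G j) i`, `S = ball w0 ρ0`, `m = n j - s j`. `ρ = δ / (128 KK ^ 2 K)` (`≤ δ / 8`, as `1 ≤ KK`, `1 ≤ K`), `N` from `uni` with `R = ‖w0‖ + ρ0`, `ρ`. Take `j` with `S ⊆ closedBall (P (n j)) (δ / 4)` (`mdu1`).
Let `w1, w1', w2, w2' ∈ S` with `ψ (s + k) w1 = ψ s w1'`, `ψ (s + l) w2 = ψ s w2'`, `k < l < m`, `N < l - k` and suppose `Dk (s + l) < K Dk (s + k)`, i.e. `r (s + l) < K r (s + k)`. `r s ≤ r (s + k)` (`hs.sq.mn`).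
For `u ∈ ball w2 ρ` (in `closedBall (P n) (δ / 2)`): `‖ψ (s+l) u - ψ (s+k) w1‖ ≤ ‖ψ (s+l) u - ψ (s+l) w2‖ + ‖ψ s w2' - ψ s w1'‖ ≤ KK r (s+l) ρ + KK r s (2 ρ0) < KK K r (s+k) ρ + 2 KK r (s+k) ρ0 ≤ r (s+k) δ / (64 KK)` (`skb1`, `hρs`: `2 KK ρ0 ≤ δ / (128 KK)`).
So `ψ (s+l) u ∈ ψ (s+k) '' ball w1 (δ / 4)` (`skb3`). `(rat a b)^[n - (s+k)]` is injective on this image (it maps `ψ (s+k) p` to `p`: `Br.inv`, `sbrn`). Now `(rat a b)^[l - k]` is injective on `ball w2 ρ`: if `u, u'` there have the same image, then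
`(rat a b)^[n - (s+k)] (ψ (s+l) u) = (rat a b)^[l - k] ((rat a b)^[n - (s+l)] (ψ (s+l) u)) = (rat a b)^[l - k] u`, the same for `u'`, so `ψ (s+l) u = ψ (s+l) u'`, `u = u'` (apply `(rat a b)^[n - (s+l)]`). Against `uni` (`‖w2‖ ≤ R`, `l - k > N`). (Compare LAC in H3/NC.)
-/

set_option autoImplicit false

open Filter Topology Polynomial Metric Set MeasureTheory

namespace Pool.Agent.H78.NS

open Pool.Agent.H44.Fatou (rat)
open Pool.Agent.H80.AJ (Br KK)
open Pool.Agent.H61.TT Pool.Agent.H57.CP Pool.Agent.H3.NC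
open Pool.Agent.H1.PU (KA)

variable {d : ℕ} {a b : Polynomial ℂ} {L0 θ δ : ℝ} {v y x0 : ℂ} {n s : ℕ → ℕ} {G : ℕ → ℂ → ℂ}

theorem erl (h : SP d a b L0 θ) (hs : SQS a b v y x0 δ n s G) {w0 : ℂ} {ρ0 : ℝ} (hρ : 0 < ρ0)
    (hρs : ρ0 ≤ δ / (256 * KK ^ 2)) (hsub : ball w0 (2 * ρ0) ⊆ ball y (δ / 8)) {K : ℝ} (hK : 1 ≤ K) :
    ∃ N : ℕ, ∀ᶠ j in atTop, ∀ k l : ℕ, k < l → l < n j - s j → N < l - k →
      (∃ w ∈ ball w0 ρ0, ps a b (G j) (s j + k) w ∈ ps a b (G j) (s j) '' ball w0 ρ0) →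
      (∃ w ∈ ball w0 ρ0, ps a b (G j) (s j + l) w ∈ ps a b (G j) (s j) '' ball w0 ρ0) →
      K * Dk a b v (s j + k) ≤ Dk a b v (s j + l) := by
  have hKK : 0 < KK := Pool.Agent.H80.AJ.KK_pos
  have hKK1 : 1 ≤ KK := Pool.Agent.H80.AJ.one_le_KK
  have hK0 : 0 < K := by linarith
  have hδ : 0 < δ := hs.hδ
  obtain ⟨ρ, hρd⟩ : ∃ ρ : ℝ, ρ = δ / (128 * KK ^ 2 * K) := ⟨_, rfl⟩
  have hρp : 0 < ρ := by
    rw [hρd]
    positivity
  have hρ1 : ρ ≤ δ / 4 := by
    rw [hρd, div_le_div_iff₀ (by positivity) (by norm_num)]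
    have h1 : 1 ≤ KK ^ 2 := one_le_pow₀ hKK1
    have h2 : 1 ≤ KK ^ 2 * K := one_le_mul_of_one_le_of_one_le h1 hK
    nlinarith
  have hρ2 : KK * K * ρ = δ / (128 * KK) := by
    rw [hρd]
    field_simp
  have hρ3 : KK * (2 * ρ0) ≤ δ / (128 * KK) := by
    rw [le_div_iff₀ (by positivity)] at hρs ⊢
    nlinarith
  obtain ⟨N, hN⟩ := uni h (‖w0‖ + ρ0) hρp
  have hS : ball w0 ρ0 ⊆ ball y (δ / 8) := (ball_subset_ball (by linarith)).trans hsub
  refine ⟨N, ?_⟩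
  filter_upwards [mdu1 h hs hS] with j hj
  obtain ⟨hj1, -⟩ := hj
  rintro k l hkl hln hNl ⟨w1, hw1, w1', hw1', e1⟩ ⟨w2, hw2, w2', hw2', e2⟩
  by_contra hcon
  push Not at hcon
  have hsn : s j < n j := hs.sq.lt j
  have hG : Cal a b v δ (n j) (G j) := hs.cal j
  obtain ⟨hbk, -, hDn, hDk, -⟩ := sbrn h hδ hG (by omega : s j + k ≤ n j)
  obtain ⟨hbl, -, -, hDl, -⟩ := sbrn h hδ hG (by omega : s j + l ≤ n j)
  have hmn : Dk a b v (s j) ≤ Dk a b v (s j + k) := hs.sq.mn j (s j + k) (by omega)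
  have hrk0 : 0 < Dk a b v (s j + k) / Dk a b v (n j) := by positivity
  have hrl : Dk a b v (s j + l) / Dk a b v (n j) < K * (Dk a b v (s j + k) / Dk a b v (n j)) := by
    rw [← mul_div_assoc]
    exact div_lt_div_of_pos_right hcon hDn
  have hrs : Dk a b v (s j) / Dk a b v (n j) ≤ Dk a b v (s j + k) / Dk a b v (n j) :=
    div_le_div_of_nonneg_right hmn hDn.le
  have hhalf : ∀ w ∈ ball w0 ρ0, w ∈ closedBall ((gg a b)^[n j] v) (δ / 2) := fun w hw =>
    closedBall_subset_closedBall (by linarith) (hj1 hw)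
  -- the two points
  have hdist : ‖ps a b (G j) (s j + l) w2 - ps a b (G j) (s j + k) w1‖ ≤
      δ / (128 * KK) * (Dk a b v (s j + k) / Dk a b v (n j)) := by
    rw [← e2, ← e1]
    have h1 := skb1 h hδ hG (by omega : s j ≤ n j) (hhalf w2' hw2') (hhalf w1' hw1')
    have h2 : ‖w2' - w1'‖ ≤ 2 * ρ0 := by
      rw [mem_ball, dist_eq_norm] at hw1' hw2'
      have h3 : w2' - w1' = (w2' - w0) - (w1' - w0) := by ring
      rw [h3]
      have h4 := norm_sub_le (w2' - w0) (w1' - w0)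
      linarith
    calc ‖ps a b (G j) (s j) w2' - ps a b (G j) (s j) w1'‖
        ≤ KK * (Dk a b v (s j) / Dk a b v (n j)) * ‖w2' - w1'‖ := h1
      _ ≤ KK * (Dk a b v (s j + k) / Dk a b v (n j)) * (2 * ρ0) :=
          mul_le_mul (mul_le_mul_of_nonneg_left hrs hKK.le) h2 (norm_nonneg _) (by positivity)
      _ = (KK * (2 * ρ0)) * (Dk a b v (s j + k) / Dk a b v (n j)) := by ring
      _ ≤ δ / (128 * KK) * (Dk a b v (s j + k) / Dk a b v (n j)) := mul_le_mul_of_nonneg_right hρ3 hrk0.le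
  have key : ∀ u ∈ ball w2 ρ, u ∈ ball ((gg a b)^[n j] v) δ ∧
      ∃ p ∈ ball ((gg a b)^[n j] v) δ, ps a b (G j) (s j + k) p = ps a b (G j) (s j + l) u := by
    intro u hu
    have hu1 : ‖u - w2‖ < ρ := by
      rw [mem_ball, dist_eq_norm] at hu
      exact hu
    have hw2P : ‖w2 - (gg a b)^[n j] v‖ ≤ δ / 4 := by
      have := hj1 hw2
      rwa [mem_closedBall, dist_eq_norm] at this
    have hu2 : ‖u - (gg a b)^[n j] v‖ < δ / 2 := by
      have h3 : u - (gg a b)^[n j] v = (u - w2) + (w2 - (gg a b)^[n j] v) := by ring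
      rw [h3]
      have h4 := norm_add_le (u - w2) (w2 - (gg a b)^[n j] v)
      linarith
    refine ⟨?_, ?_⟩
    · rw [mem_ball, dist_eq_norm]
      linarith
    have hu3 : u ∈ closedBall ((gg a b)^[n j] v) (δ / 2) := by
      rw [mem_closedBall, dist_eq_norm]
      exact hu2.le
    have h1 := skb1 h hδ hG (by omega : s j + l ≤ n j) hu3 (hhalf w2 hw2)
    have h2 : KK * (Dk a b v (s j + l) / Dk a b v (n j)) * ‖u - w2‖ ≤
        KK * (Dk a b v (s j + l) / Dk a b v (n j)) * ρ :=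
      mul_le_mul_of_nonneg_left hu1.le (by positivity)
    have h3 : KK * (Dk a b v (s j + l) / Dk a b v (n j)) * ρ <
        δ / (128 * KK) * (Dk a b v (s j + k) / Dk a b v (n j)) := by
      calc KK * (Dk a b v (s j + l) / Dk a b v (n j)) * ρ
          < KK * (K * (Dk a b v (s j + k) / Dk a b v (n j))) * ρ :=
            mul_lt_mul_of_pos_right (mul_lt_mul_of_pos_left hrl hKK) hρp
        _ = (KK * K * ρ) * (Dk a b v (s j + k) / Dk a b v (n j)) := by ring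
        _ = δ / (128 * KK) * (Dk a b v (s j + k) / Dk a b v (n j)) := by rw [hρ2]
    have h4 : ps a b (G j) (s j + l) u ∈ ball (ps a b (G j) (s j + k) w1)
        (δ / 4 * (Dk a b v (s j + k) / Dk a b v (n j)) / (16 * KK)) := by
      rw [mem_ball, dist_eq_norm]
      have h5 : ps a b (G j) (s j + l) u - ps a b (G j) (s j + k) w1 =
          (ps a b (G j) (s j + l) u - ps a b (G j) (s j + l) w2) +
          (ps a b (G j) (s j + l) w2 - ps a b (G j) (s j + k) w1) := by ring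
      rw [h5]
      have h6 := norm_add_le (ps a b (G j) (s j + l) u - ps a b (G j) (s j + l) w2)
        (ps a b (G j) (s j + l) w2 - ps a b (G j) (s j + k) w1)
      have h7 : δ / 4 * (Dk a b v (s j + k) / Dk a b v (n j)) / (16 * KK) =
          δ / (128 * KK) * (Dk a b v (s j + k) / Dk a b v (n j)) +
          δ / (128 * KK) * (Dk a b v (s j + k) / Dk a b v (n j)) := by
        field_simp
        ring
      rw [h7]
      linarith
    obtain ⟨p, hp, hpe⟩ := skb3 h hδ hG (by omega : s j + k ≤ n j) (hj1 hw1) (by positivity) le_rfl h4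
    refine ⟨p, ?_, hpe⟩
    have hw1P : ‖w1 - (gg a b)^[n j] v‖ ≤ δ / 4 := by
      have := hj1 hw1
      rwa [mem_closedBall, dist_eq_norm] at this
    rw [mem_ball, dist_eq_norm] at hp ⊢
    have h8 : p - (gg a b)^[n j] v = (p - w1) + (w1 - (gg a b)^[n j] v) := by ring
    rw [h8]
    have h9 := norm_add_le (p - w1) (w1 - (gg a b)^[n j] v)
    linarith
  have hw2R : ‖w2‖ ≤ ‖w0‖ + ρ0 := by
    rw [mem_ball, dist_eq_norm] at hw2
    have h3 : w2 = w0 + (w2 - w0) := by ring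
    rw [h3]
    have h4 := norm_add_le w0 (w2 - w0)
    linarith
  apply hN w2 hw2R (l - k) hNl
  intro u hu u' hu' heq
  obtain ⟨hub, q, hq, hqe⟩ := key u hu
  obtain ⟨hub', q', hq', hqe'⟩ := key u' hu'
  have hval : ∀ w p : ℂ, w ∈ ball ((gg a b)^[n j] v) δ → p ∈ ball ((gg a b)^[n j] v) δ →
      ps a b (G j) (s j + k) p = ps a b (G j) (s j + l) w →
      (p : OnePoint ℂ) = (rat a b)^[l - k] (w : OnePoint ℂ) := by
    intro w p hw hp he
    have h1 := hbk.inv p hp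
    have h2 := hbl.inv w hw
    rw [← h1, he, show n j - (s j + k) = (l - k) + (n j - (s j + l)) by omega, Function.iterate_add_apply, h2]
  have e3 := hval u q hub hq hqe
  have e4 := hval u' q' hub' hq' hqe'
  have e5 : (q : OnePoint ℂ) = (q' : OnePoint ℂ) := by
    rw [e3, e4]
    exact heq
  have e6 : q = q' := OnePoint.coe_injective e5
  have e7 : ps a b (G j) (s j + l) u = ps a b (G j) (s j + l) u' := by rw [← hqe, ← hqe', e6]
  have f1 := hbl.inv u hub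
  have f2 := hbl.inv u' hub'
  rw [e7, f2] at f1
  exact (OnePoint.coe_injective f1).symm

end Pool.Agent.H78.NS
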