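import Pool.Agent.H61.TT.Area
import Pool.Agent.H78.NS.Defs

/-!
# Module FFM: the first entry field

PROOF. `mem_pre'`: `z ∈ pre^[k + 1] U` iff `b.eval z ≠ 0` and `gg z ∈ pre^[k] U` (induction on `k`: `Function.iterate_succ_apply'`, `pre^[k + 1] U = pre (pre^[k] U)` for all `k`).
`pb_zero`: `tD 0 z = 1`. `pb_add`: `tD (k + l) z = tD k z * tD l (gg^[k] z)` (`tD_add`, H57/CP/BAS), `Function.iterate_add_apply`. `pb_le`: `‖conj t / t‖ ≤ 1` (also for `t = 0`). `pb_meas`: `gg` is measurable (`measurable_gg`, iterates: `Measurable.iterate`), `tD k` is a finite product of `dg ∘ gg^[i]` (`measurable_dg`, `Finset.measurable_prod`).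
`ff_in`: `Nat.find h = 0` (`pre^[0] U = U`), `pb_zero`. `ff_off`: if `z` enters at the first time `k`, then `k ≥ 1` and `gg z` enters at the first time `k - 1` (`mem_pre'`; `Nat.find` of the predicate of `gg z`: `Nat.find_eq_iff` or `Nat.find_comp_succ`): `FF z = pb k φ z = pb 1 (pb (k - 1) φ) z = pb 1 FF z` (`pb_add`). If `z` does not enter, `gg z` does not enter (`b.eval z ≠ 0`) and both sides are 0.
`ff_le`: `pb_le`. `ff_meas`: `FF = ∑' k` or the countable gluing: the sets `E k = pre^[k] U \ ⋃ i < k, pre^[i] U` are measurable (`measurableSet_pre`), `FF = pb k φ` on `E k`, `0` off `⋃ E k` (`Measurable.find`, `measurable_of_restrict..`, or: for every measurable set `T`, `FF⁻¹ T` is the countable union of `E k ∩ (pb k φ)⁻¹ T` and, if `0 ∈ T`, the complement of `⋃ E k`).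
`ff_it`: induction on `m`: `FF z = pb 1 FF z = FF (gg z) * (conj (tD 1 z) / tD 1 z)`, and the claim for `gg z` with `m - 1`; `pb_add`.
-/

set_option autoImplicit false

open Filter Topology Polynomial Metric Set MeasureTheory

namespace Pool.Agent.H78.NS

open Pool.Agent.H44.Fatou (rat)
open Pool.Agent.H80.AJ (Br KK)
open Pool.Agent.H61.TT Pool.Agent.H57.CP Pool.Agent.H3.NC
open Pool.Agent.H1.PU (KA)

variable {a b : Polynomial ℂ}

theorem mem_pre' {k : ℕ} {U : Set ℂ} {z : ℂ} :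
    z ∈ (pre a b)^[k + 1] U ↔ b.eval z ≠ 0 ∧ gg a b z ∈ (pre a b)^[k] U := by
  rw [Function.iterate_succ_apply']
  rfl

theorem pb_zero (φ : ℂ → ℂ) (z : ℂ) : pb a b 0 φ z = φ z := by
  simp [pb, tD]

theorem pb_add (k l : ℕ) (φ : ℂ → ℂ) (z : ℂ) : pb a b (k + l) φ z = pb a b k (pb a b l φ) z := by
  unfold pb
  rw [tD_add, map_mul, add_comm k l, Function.iterate_add_apply]
  ring

theorem pb_le {φ : ℂ → ℂ} (hφ : ∀ z, ‖φ z‖ ≤ 1) (k : ℕ) (z : ℂ) : ‖pb a b k φ z‖ ≤ 1 := by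
  unfold pb
  rw [norm_mul, norm_div, RCLike.norm_conj]
  have h1 := hφ ((gg a b)^[k] z)
  have h2 : ‖tD a b k z‖ / ‖tD a b k z‖ ≤ 1 := div_self_le_one _
  have h3 : 0 ≤ ‖tD a b k z‖ / ‖tD a b k z‖ := by positivity
  exact mul_le_one₀ h1 h3 h2

theorem pb_meas {φ : ℂ → ℂ} (hφ : Measurable φ) (k : ℕ) : Measurable (pb a b k φ) := by
  have hg : ∀ i : ℕ, Measurable ((gg a b)^[i]) := fun i => Measurable.iterate measurable_gg i
  have ht : Measurable (tD a b k) := by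
    unfold tD
    exact Finset.measurable_fun_prod _ (fun i _ => measurable_dg.comp (hg i))
  unfold pb
  exact (hφ.comp (hg k)).mul ((Complex.continuous_conj.measurable.comp ht).div ht)

private theorem ff_find {U : Set ℂ} (φ : ℂ → ℂ) {z : ℂ} {k : ℕ} (hk : z ∈ (pre a b)^[k] U)
    (hl : ∀ i < k, z ∉ (pre a b)^[i] U) : FF a b U φ z = pb a b k φ z := by
  classical
  have h : ∃ k : ℕ, z ∈ (pre a b)^[k] U := ⟨k, hk⟩
  unfold FF
  rw [dif_pos h]
  congr 1
  rw [Nat.find_eq_iff]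
  exact ⟨hk, hl⟩

private theorem ff_none {U : Set ℂ} (φ : ℂ → ℂ) {z : ℂ} (h : ∀ k, z ∉ (pre a b)^[k] U) :
    FF a b U φ z = 0 := by
  unfold FF
  rw [dif_neg]
  rintro ⟨k, hk⟩
  exact h k hk

private theorem ff_first {U : Set ℂ} {z : ℂ} (h : ∃ k : ℕ, z ∈ (pre a b)^[k] U) :
    ∃ k : ℕ, z ∈ (pre a b)^[k] U ∧ ∀ i < k, z ∉ (pre a b)^[i] U := by
  classical
  exact ⟨Nat.find h, Nat.find_spec h, fun i hi => Nat.find_min h hi⟩

theorem ff_in {U : Set ℂ} (φ : ℂ → ℂ) {z : ℂ} (hz : z ∈ U) : FF a b U φ z = φ z := by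
  rw [ff_find (k := 0) φ hz (fun i hi => absurd hi (Nat.not_lt_zero i)), pb_zero]

theorem ff_off {U : Set ℂ} (φ : ℂ → ℂ) {z : ℂ} (hz : z ∉ U) (hb : b.eval z ≠ 0) :
    FF a b U φ z = pb a b 1 (FF a b U φ) z := by
  have hpb : ∀ ψ : ℂ → ℂ, pb a b 1 ψ z = ψ (gg a b z) * ((starRingEnd ℂ) (tD a b 1 z) / tD a b 1 z) := by
    intro ψ
    rfl
  by_cases h : ∃ k : ℕ, z ∈ (pre a b)^[k] U
  · obtain ⟨k, hk, hl⟩ := ff_first h
    rw [ff_find φ hk hl]
    cases k with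
    | zero => exact absurd hk hz
    | succ k =>
      rw [add_comm k 1, pb_add, hpb, hpb]
      congr 1
      symm
      apply ff_find
      · exact (mem_pre'.mp hk).2
      · intro i hi hc
        exact hl (i + 1) (by omega) (mem_pre'.mpr ⟨hb, hc⟩)
  · have h1 : ∀ k, z ∉ (pre a b)^[k] U := fun k hk => h ⟨k, hk⟩
    have h2 : ∀ k, gg a b z ∉ (pre a b)^[k] U := fun k hk => h1 (k + 1) (mem_pre'.mpr ⟨hb, hk⟩)
    rw [ff_none φ h1, hpb, ff_none φ h2, zero_mul]

theorem ff_le {U : Set ℂ} {φ : ℂ → ℂ} (hφ : ∀ z, ‖φ z‖ ≤ 1) (z : ℂ) : ‖FF a b U φ z‖ ≤ 1 := by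
  unfold FF
  split_ifs
  · exact pb_le hφ _ z
  · simp

theorem ff_meas {U : Set ℂ} (hU : MeasurableSet U) {φ : ℂ → ℂ} (hφ : Measurable φ) : Measurable (FF a b U φ) := by
  have hp : ∀ k : ℕ, MeasurableSet ((pre a b)^[k] U) := by
    intro k
    induction k with
    | zero => exact hU
    | succ k ih =>
      rw [Function.iterate_succ_apply']
      exact measurableSet_pre ih
  have hE : ∀ k : ℕ, MeasurableSet ((pre a b)^[k] U \ ⋃ i : Fin k, (pre a b)^[(i : ℕ)] U) := by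
    intro k
    exact (hp k).diff (MeasurableSet.iUnion fun i => hp i)
  intro T hT
  have hset : FF a b U φ ⁻¹' T = (⋃ k : ℕ, (((pre a b)^[k] U \ ⋃ i : Fin k, (pre a b)^[(i : ℕ)] U) ∩ pb a b k φ ⁻¹' T)) ∪
      ((⋃ k : ℕ, (pre a b)^[k] U)ᶜ ∩ {_z | (0 : ℂ) ∈ T}) := by
    ext z
    simp only [mem_preimage, mem_union, mem_iUnion, mem_inter_iff, mem_diff, mem_compl_iff, mem_setOf_eq, not_exists]
    constructor
    · intro hz
      by_cases h : ∃ k : ℕ, z ∈ (pre a b)^[k] U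
      · obtain ⟨k, hk, hl⟩ := ff_first h
        rw [ff_find φ hk hl] at hz
        exact Or.inl ⟨k, ⟨hk, fun i => hl i i.2⟩, hz⟩
      · have h1 : ∀ k, z ∉ (pre a b)^[k] U := fun k hk => h ⟨k, hk⟩
        rw [ff_none φ h1] at hz
        exact Or.inr ⟨h1, hz⟩
    · rintro (⟨k, ⟨hk, hl⟩, hz⟩ | ⟨h1, hz⟩)
      · rw [ff_find φ hk (fun i hi => hl ⟨i, hi⟩)]
        exact hz
      · rw [ff_none φ h1]
        exact hz
  rw [hset]
  refine (MeasurableSet.iUnion fun k => (hE k).inter (pb_meas hφ k hT)).union ?_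
  exact (MeasurableSet.iUnion hp).compl.inter (MeasurableSet.const _)

theorem ff_it {U : Set ℂ} (φ : ℂ → ℂ) {m : ℕ} {z : ℂ} (hz : ∀ i < m, b.eval ((gg a b)^[i] z) ≠ 0 ∧ (gg a b)^[i] z ∉ U) :
    FF a b U φ z = pb a b m (FF a b U φ) z := by
  induction m generalizing z with
  | zero => rw [pb_zero]
  | succ m ih =>
    have h0 : b.eval z ≠ 0 ∧ z ∉ U := hz 0 (Nat.succ_pos m)
    rw [ff_off φ h0.2 h0.1, add_comm m 1, pb_add]
    have h1 : FF a b U φ (gg a b z) = pb a b m (FF a b U φ) (gg a b z) := by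
      apply ih
      intro i hi
      have := hz (i + 1) (by omega)
      rw [Function.iterate_succ_apply] at this
      exact this
    show FF a b U φ (gg a b z) * _ = pb a b m (FF a b U φ) (gg a b z) * _
    rw [h1]

end Pool.Agent.H78.NS
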