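import Pool.Agent.H78.NS.CAR
import Pool.Agent.H78.NS.FFM
import Pool.Agent.H31.NS.PFI

/-!
# Module IDA: duality for the first entry field

PROOF. `N = FF U φ`, measurable, `‖N‖ ≤ 1` (module FFM). For a.e. `x` (all `y ∈ fs x` have `dg y ≠ 0`: `RegV`, `reg_finite`): `pf α x * N x = ∑_(y ∈ fs x) α y / dg y ^ 2 * N (gg y) = ∑ (α y * pb 1 N y) / ‖dg y‖ ^ 2`, as `gg y = x` (`mem_fs`), `pb 1 N y = N (gg y) * conj (dg y) / dg y` (`tD 1 y = dg y`) and `conj D / (D ‖D‖ ^ 2) = 1 / D ^ 2`.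
So `∫ pf α * N = ∫ α * pb 1 N` (`car` with `F = α * pb 1 N`, measurable and integrable: `‖pb 1 N‖ ≤ 1`), and `∫ (α - pf α) * N = ∫ α * (N - pb 1 N)` (`integral_sub`; integrable: `Pool.Agent.H31.NS.pf_int`, `Integrable.mul_bdd` or `Integrable.mono`). The integrand is 0 a.e. off `U` (`ff_off`; `b.eval z ≠ 0` a.e.): `setIntegral_eq_integral_of_ae_compl_eq_zero`.
`ida_le`: `‖N - pb 1 N‖ ≤ 2`.
-/

set_option autoImplicit false

open Filter Topology Polynomial Metric Set MeasureTheory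

namespace Pool.Agent.H78.NS

open Pool.Agent.H44.Fatou (rat)
open Pool.Agent.H80.AJ (Br KK)
open Pool.Agent.H61.TT Pool.Agent.H57.CP Pool.Agent.H3.NC
open Pool.Agent.H1.PU (KA)

variable {d : ℕ} {a b : Polynomial ℂ}

private theorem pbo (φ : ℂ → ℂ) (z : ℂ) :
    pb a b 1 φ z = φ (gg a b z) * ((starRingEnd ℂ) (dg a b z) / dg a b z) := by
  unfold pb tD
  simp

private theorem pta {D A N : ℂ} (hD : D ≠ 0) :
    A / D ^ 2 * N = A * (N * ((starRingEnd ℂ) D / D)) / ((‖D‖ ^ 2 : ℝ) : ℂ) := by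
  have h1 : ((‖D‖ ^ 2 : ℝ) : ℂ) = D * (starRingEnd ℂ) D := by
    rw [Complex.mul_conj, Complex.normSq_eq_norm_sq]
  have h2 : (starRingEnd ℂ) D ≠ 0 := by simpa using hD
  rw [h1]
  field_simp

private theorem bne (h : RatD d a b) : b ≠ 0 := by
  rintro rfl
  have h1 := h.cop
  rw [isCoprime_zero_right] at h1
  have h2 := h.deg
  have h3 := h.hd
  rw [Polynomial.natDegree_eq_zero_of_isUnit h1, Polynomial.natDegree_zero] at h2
  simp at h2
  omega

private theorem aeb (h : RatD d a b) : ∀ᵐ z : ℂ, b.eval z ≠ 0 := by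
  have h1 : {z : ℂ | ¬ b.eval z ≠ 0}.Finite := by
    refine (b.roots.toFinset.finite_toSet).subset fun z hz => ?_
    simp only [ne_eq, not_not, mem_setOf_eq] at hz
    simpa [bne h] using hz
  exact h1.measure_zero _

theorem ida (h : RatD d a b) {U : Set ℂ} (hU : MeasurableSet U) {φ : ℂ → ℂ} (hφm : Measurable φ) (hφ : ∀ z, ‖φ z‖ ≤ 1)
    {α : ℂ → ℂ} (hm : Measurable α) (hα : Integrable α) : ∫ x, (α x - pf a b α x) * FF a b U φ x =
      ∫ z in U, α z * (FF a b U φ z - pb a b 1 (FF a b U φ) z) := by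
  have hNm : Measurable (FF a b U φ) := ff_meas hU hφm
  have hNle : ∀ z, ‖FF a b U φ z‖ ≤ 1 := ff_le hφ
  have hoff : ∀ z, z ∉ U → b.eval z ≠ 0 → FF a b U φ z = pb a b 1 (FF a b U φ) z :=
    fun z hz hb => ff_off φ hz hb
  generalize FF a b U φ = N at hNm hNle hoff ⊢
  have hPm : Measurable (pb a b 1 N) := pb_meas hNm 1
  have hPle : ∀ z, ‖pb a b 1 N z‖ ≤ 1 := pb_le hNle 1
  have hpi : Integrable (pf a b α) := (Pool.Agent.H31.NS.pf_int h hm hα).1
  have hi1 : Integrable (fun z => α z * N z) :=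
    hα.mul_bdd hNm.aestronglyMeasurable (ae_of_all _ hNle)
  have hi2 : Integrable (fun z => α z * pb a b 1 N z) :=
    hα.mul_bdd hPm.aestronglyMeasurable (ae_of_all _ hPle)
  have hi3 : Integrable (fun z => pf a b α z * N z) :=
    hpi.mul_bdd hNm.aestronglyMeasurable (ae_of_all _ hNle)
  have hcar := (car h (F := fun z => α z * pb a b 1 N z) (hm.mul hPm) hi2).2
  have hfin : ∀ᵐ x : ℂ, RegV d a b x := by
    rw [ae_iff]
    exact (reg_finite h).measure_zero _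
  have h1 : ∫ x, pf a b α x * N x = ∫ y, α y * pb a b 1 N y := by
    rw [← hcar]
    refine integral_congr_ae ?_
    filter_upwards [hfin] with x hx
    unfold pf
    rw [Finset.sum_mul]
    refine Finset.sum_congr rfl fun y hy => ?_
    have hD : dg a b y ≠ 0 := div_ne_zero (hx.hw y hy) (pow_ne_zero 2 (hx.hb y hy))
    have hgy : gg a b y = x := ((mem_fs h x y).1 hy).2
    rw [pbo, hgy]
    exact pta hD
  have h2 : ∫ x, (α x - pf a b α x) * N x = ∫ z, α z * (N z - pb a b 1 N z) := by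
    have e1 : ∀ x, (α x - pf a b α x) * N x = α x * N x - pf a b α x * N x := fun x => by ring
    have e2 : ∀ z, α z * (N z - pb a b 1 N z) = α z * N z - α z * pb a b 1 N z :=
      fun z => by ring
    simp_rw [e1, e2]
    rw [integral_sub hi1 hi3, integral_sub hi1 hi2, h1]
  rw [h2]
  symm
  apply setIntegral_eq_integral_of_ae_compl_eq_zero
  filter_upwards [aeb h] with z hz hzU
  rw [← hoff z hzU hz, sub_self, mul_zero]

theorem ida_le {U : Set ℂ} (hU : MeasurableSet U) {φ : ℂ → ℂ} (hφm : Measurable φ) (hφ : ∀ z, ‖φ z‖ ≤ 1)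
    {α : ℂ → ℂ} (hm : Measurable α) (hα : Integrable α) :
    ‖∫ z in U, α z * (FF a b U φ z - pb a b 1 (FF a b U φ) z)‖ ≤ 2 * ∫ z in U, ‖α z‖ := by
  have hNle : ∀ z, ‖FF a b U φ z‖ ≤ 1 := ff_le hφ
  have hPle : ∀ z, ‖pb a b 1 (FF a b U φ) z‖ ≤ 1 := pb_le hNle 1
  rw [← integral_const_mul]
  refine norm_integral_le_of_norm_le ((hα.norm.const_mul 2).integrableOn)
    (ae_of_all _ fun z => ?_)
  rw [norm_mul, mul_comm]
  refine mul_le_mul_of_nonneg_right ?_ (norm_nonneg _)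
  calc ‖FF a b U φ z - pb a b 1 (FF a b U φ) z‖ ≤ ‖FF a b U φ z‖ + ‖pb a b 1 (FF a b U φ) z‖ :=
        norm_sub_le _ _
    _ ≤ 2 := by linarith [hNle z, hPle z]

end Pool.Agent.H78.NS
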