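import Pool.Agent.H78.NS.BRS

/-!
# Module KBS: distortion of the branches in the spherical setting

PROOF. `skb1`, `skb2`, `skb3`: copies of `kbe1`, `kbe2`, `kbe3` (H3/NC/KBE, proved) with `sbrn`. `skb4`: derivative at any point of the smaller disc (`distort`, H80/AJ/Distort, both directions, and `sbrn` for the derivative at the centre).
`skb5`: let `u ≠ u'`, `ρ = ‖u - u'‖ ≤ δ / 2`. `u' ∉ ball u ρ` and `ps G k` is injective on `ball (P n) δ ⊇ ball u ρ`, so `ps G k u' ∉ ps G k '' ball u ρ ⊇ ball (ps G k u) (ρ ‖deriv (ps G k) u‖ / 16)` (`univ_cover`), and `‖deriv (ps G k) u‖ ≥ (Dk k / Dk n) / KK` (`skb4`).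
-/

set_option autoImplicit false

open Filter Topology Polynomial Metric Set MeasureTheory

namespace Pool.Agent.H78.NS

open Pool.Agent.H44.Fatou (rat)
open Pool.Agent.H80.AJ (Br KK)
open Pool.Agent.H61.TT Pool.Agent.H57.CP Pool.Agent.H3.NC
open Pool.Agent.H1.PU (KA)

variable {d : ℕ} {a b : Polynomial ℂ} {L0 θ : ℝ}

theorem skb1 (h : SP d a b L0 θ) {v : ℂ} {δ : ℝ} (hδ : 0 < δ) {n : ℕ} {G : ℂ → ℂ} (hG : Cal a b v δ n G) {k : ℕ}
    (hk : k ≤ n) {u u' : ℂ} (hu : u ∈ closedBall ((gg a b)^[n] v) (δ / 2))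
    (hu' : u' ∈ closedBall ((gg a b)^[n] v) (δ / 2)) :
    ‖ps a b G k u - ps a b G k u'‖ ≤ KK * (Dk a b v k / Dk a b v n) * ‖u - u'‖ := by
  obtain ⟨hB, hinj, -, -, -, hder⟩ := sbrn h hδ hG hk
  have hc : (gg a b)^[n] v ∈ closedBall ((gg a b)^[n] v) (δ / 2) := mem_closedBall_self (by positivity)
  have h1 := Pool.Agent.H80.AJ.distort_lip hδ hB.diff hinj hu hu' hc
  rw [hder] at h1
  exact h1

theorem skb2 (h : SP d a b L0 θ) {v : ℂ} {δ : ℝ} (hδ : 0 < δ) {n : ℕ} {G : ℂ → ℂ} (hG : Cal a b v δ n G) {k : ℕ}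
    (hk : k ≤ n) : ball ((gg a b)^[k] v) (δ * (Dk a b v k / Dk a b v n) / 16) ⊆ ps a b G k '' ball ((gg a b)^[n] v) δ := by
  obtain ⟨hB, hinj, -, -, -, hder⟩ := sbrn h hδ hG hk
  have h1 := Pool.Agent.H80.AJ.univ_cover hδ hB.diff hinj
  rw [hB.val, hder] at h1
  exact h1

theorem skb4 (h : SP d a b L0 θ) {v : ℂ} {δ : ℝ} (hδ : 0 < δ) {n : ℕ} {G : ℂ → ℂ} (hG : Cal a b v δ n G) {k : ℕ}
    (hk : k ≤ n) {u : ℂ} (hu : u ∈ closedBall ((gg a b)^[n] v) (δ / 2)) :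
    ‖deriv (ps a b G k) u‖ ≤ KK * (Dk a b v k / Dk a b v n) ∧ Dk a b v k / Dk a b v n ≤ KK * ‖deriv (ps a b G k) u‖ := by
  obtain ⟨hB, hinj, -, -, -, hder⟩ := sbrn h hδ hG hk
  have hc : (gg a b)^[n] v ∈ closedBall ((gg a b)^[n] v) (δ / 2) := mem_closedBall_self (by positivity)
  have h1 := Pool.Agent.H80.AJ.distort hδ hB.diff hinj hu hc
  have h2 := Pool.Agent.H80.AJ.distort hδ hB.diff hinj hc hu
  rw [hder] at h1 h2
  exact ⟨h1, h2⟩

/-- the image of a disc contains a disc -/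
private theorem skb_cov (h : SP d a b L0 θ) {v : ℂ} {δ : ℝ} (hδ : 0 < δ) {n : ℕ} {G : ℂ → ℂ} (hG : Cal a b v δ n G) {k : ℕ}
    (hk : k ≤ n) {w : ℂ} (hw : w ∈ closedBall ((gg a b)^[n] v) (δ / 4)) {ρ : ℝ} (hρ : 0 < ρ) (hρ2 : ρ ≤ δ / 2) :
    ball (ps a b G k w) (ρ * (Dk a b v k / Dk a b v n) / (16 * KK)) ⊆ ps a b G k '' ball w ρ := by
  obtain ⟨hB, hinj, -, -, -, -⟩ := sbrn h hδ hG hk
  have hsub : ball w ρ ⊆ ball ((gg a b)^[n] v) δ := by
    intro x hx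
    rw [mem_ball] at hx ⊢
    rw [mem_closedBall] at hw
    have := dist_triangle x w ((gg a b)^[n] v)
    linarith
  have h1 := Pool.Agent.H80.AJ.univ_cover hρ (hB.diff.mono hsub) (hinj.mono hsub)
  have hw2 : w ∈ closedBall ((gg a b)^[n] v) (δ / 2) := closedBall_subset_closedBall (by linarith) hw
  have h2 := (skb4 h hδ hG hk hw2).2
  refine Subset.trans (ball_subset_ball ?_) h1
  have hK := Pool.Agent.H80.AJ.KK_pos
  rw [div_le_div_iff₀ (by positivity) (by norm_num)]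
  have h3 : ρ * (Dk a b v k / Dk a b v n) ≤ ρ * (KK * ‖deriv (ps a b G k) w‖) :=
    mul_le_mul_of_nonneg_left h2 hρ.le
  calc ρ * (Dk a b v k / Dk a b v n) * 16 ≤ ρ * (KK * ‖deriv (ps a b G k) w‖) * 16 :=
        mul_le_mul_of_nonneg_right h3 (by norm_num)
    _ = ρ * ‖deriv (ps a b G k) w‖ * (16 * KK) := by ring

theorem skb3 (h : SP d a b L0 θ) {v : ℂ} {δ : ℝ} (hδ : 0 < δ) {n : ℕ} {G : ℂ → ℂ} (hG : Cal a b v δ n G) {k : ℕ}
    (hk : k ≤ n) {w : ℂ} (hw : w ∈ closedBall ((gg a b)^[n] v) (δ / 4)) {ρ : ℝ} (hρ : 0 < ρ) (hρ4 : ρ ≤ δ / 4) :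
    ball (ps a b G k w) (ρ * (Dk a b v k / Dk a b v n) / (16 * KK)) ⊆ ps a b G k '' ball w ρ :=
  skb_cov h hδ hG hk hw hρ (by linarith)

theorem skb5 (h : SP d a b L0 θ) {v : ℂ} {δ : ℝ} (hδ : 0 < δ) {n : ℕ} {G : ℂ → ℂ} (hG : Cal a b v δ n G) {k : ℕ}
    (hk : k ≤ n) {u u' : ℂ} (hu : u ∈ closedBall ((gg a b)^[n] v) (δ / 4))
    (hu' : u' ∈ closedBall ((gg a b)^[n] v) (δ / 4)) :
    (Dk a b v k / Dk a b v n) / (16 * KK) * ‖u - u'‖ ≤ ‖ps a b G k u - ps a b G k u'‖ := by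
  by_cases he : u = u'
  · rw [he, sub_self, sub_self, norm_zero, mul_zero]
  obtain ⟨-, hinj, -, -, -, -⟩ := sbrn h hδ hG hk
  have hρ : 0 < ‖u - u'‖ := norm_pos_iff.2 (sub_ne_zero.2 he)
  have hρ2 : ‖u - u'‖ ≤ δ / 2 := by
    rw [mem_closedBall] at hu hu'
    have h1 := dist_triangle_right u u' ((gg a b)^[n] v)
    rw [← dist_eq_norm]
    linarith
  have h1 := skb_cov h hδ hG hk hu hρ hρ2
  have hsub : ball u ‖u - u'‖ ⊆ ball ((gg a b)^[n] v) δ := by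
    intro x hx
    rw [mem_ball] at hx ⊢
    rw [mem_closedBall] at hu
    have := dist_triangle x u ((gg a b)^[n] v)
    linarith
  have hu'b : u' ∈ ball ((gg a b)^[n] v) δ := by
    rw [mem_closedBall] at hu'
    rw [mem_ball]
    linarith
  have h2 : ps a b G k u' ∉ ball (ps a b G k u) (‖u - u'‖ * (Dk a b v k / Dk a b v n) / (16 * KK)) := by
    intro hmem
    obtain ⟨x, hx, hxe⟩ := h1 hmem
    have h3 : x = u' := hinj (hsub hx) hu'b hxe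
    rw [h3, mem_ball, dist_eq_norm, norm_sub_rev] at hx
    exact lt_irrefl _ hx
  rw [mem_ball, not_lt, dist_eq_norm, norm_sub_rev (ps a b G k u')] at h2
  refine le_trans (le_of_eq ?_) h2
  ring

end Pool.Agent.H78.NS
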