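import Pool.Agent.H78.NS.Defs
import Pool.Agent.H3.NC.SEL

/-!
# The package of limits

`ch`: the scaled branch `(ψ_s - g^s v) / (Dk s / Dk n)`. `PK`: the limits `F` (of the scaled functions divided by `M j`, times `x`), `χ` (of `ch`), `ω` (a unimodular constant), and of the scaled position of `x0`.
-/

set_option autoImplicit false

open Filter Topology Polynomial Metric Set MeasureTheory

namespace Pool.Agent.H78.NS

open Pool.Agent.H44.Fatou (rat)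
open Pool.Agent.H80.AJ (Br KK)
open Pool.Agent.H61.TT Pool.Agent.H57.CP Pool.Agent.H3.NC
open Pool.Agent.H1.PU (KA)

variable {a b : Polynomial ℂ}

/-- the scaled branch -/
noncomputable def ch (a b : Polynomial ℂ) (v : ℂ) (n s : ℕ) (G : ℂ → ℂ) (w : ℂ) : ℂ :=
  (ps a b G s w - (gg a b)^[s] v) / ((Dk a b v s / Dk a b v n : ℝ) : ℂ)

/-- the package of limits -/
structure PK (a b : Polynomial ℂ) (v y x0 : ℂ) (δ : ℝ) (n s : ℕ → ℕ) (G : ℕ → ℂ → ℂ) (M : ℕ → ℝ) (ε1 : ℝ)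
    (F χ : ℂ → ℂ) (ω : ℂ) : Prop where
  sqs : SQS a b v y x0 δ n s G
  M1 : ∀ j, 1 ≤ M j
  hε : 0 < ε1
  Fd : DifferentiableOn ℂ F (ball 0 ε1)
  Fn : ∃ x ∈ ball (0 : ℂ) ε1, F x ≠ 0
  cF : Tendsto (fun j => ∫⁻ x in ball (0 : ℂ) ε1, ‖(∑ k ∈ Finset.range (n j), be a b v (s j) k /
    (x - ze a b v (n j) (s j) k)) / (M j : ℂ) - F x / x‖ₑ) atTop (𝓝 0)
  χd : DifferentiableOn ℂ χ (ball y (δ / 8))
  χ0 : χ y = 0
  χi : ∃ κ : ℝ, 0 < κ ∧ ∀ w ∈ ball y (δ / 8), ∀ w' ∈ ball y (δ / 8), κ * ‖w - w'‖ ≤ ‖χ w - χ w'‖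
  cχ : TendstoUniformlyOn (fun j => ch a b v (n j) (s j) (G j)) χ atTop (ball y (δ / 8))
  cχd : TendstoUniformlyOn (fun j => deriv (ch a b v (n j) (s j) (G j))) (deriv χ) atTop (ball y (δ / 8))
  hω : ‖ω‖ = 1
  cω : Tendsto (fun j => ((Dk a b v (s j) / Dk a b v (n j) : ℝ) : ℂ) * tD a b (n j) v / tD a b (s j) v) atTop (𝓝 ω)
  zx : (∃ ζ : ℂ, Tendsto (fun j => (x0 - (gg a b)^[s j] v) / ((Dk a b v (s j) / Dk a b v (n j) : ℝ) : ℂ)) atTop (𝓝 ζ)) ∨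
    Tendsto (fun j => ‖x0 - (gg a b)^[s j] v‖ / (Dk a b v (s j) / Dk a b v (n j))) atTop atTop

theorem SQS.sub {v y x0 : ℂ} {δ : ℝ} {n s : ℕ → ℕ} {G : ℕ → ℂ → ℂ} (h : SQS a b v y x0 δ n s G) {φ : ℕ → ℕ}
    (hφ : StrictMono φ) : SQS a b v y x0 δ (n ∘ φ) (s ∘ φ) (G ∘ φ) :=
  ⟨h.hδ, h.sq.sub hφ, h.nm.comp hφ, fun j => h.cal (φ j), h.yl.comp hφ.tendsto_atTop⟩

end Pool.Agent.H78.NS
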