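import Pool.Agent.H78.NS.IDA

/-!
# Module TAI: comparison with one fixed `α p`

PROOF. `N j = FF (U j) (φ j)`, `t j = α j - pf (α j)` (integrable: `Pool.Agent.H31.NS.pf_int`). By `ida` the integral in the claim is `∫ t j * N j`. Let `e > 0`. There is `p` with `∫⁻ ‖t j - τ‖ₑ ≤ e` for all `j ≥ p`, so `‖∫ t j * N j - ∫ t p * N j‖ ≤ ∫ ‖t j - t p‖ ≤ 2 e` for `j ≥ p` (`‖N j‖ ≤ 1`).
`∫ t p * N j = ∫ z in U j, α p z * (N j z - pb 1 (N j) z)` (`ida` with `α p` and the field of `U j`), of norm at most `2 ∫ z in U j, ‖α p z‖` (`ida_le`), which tends to `0` for `j → ∞` (`p` fixed, `volume (U j) → 0`: `MeasureTheory.tendsto_setIntegral_of_...`, `Integrable.tendsto_setIntegral_nhds_zero` or `tendsto_setLIntegral_zero`). So the limsup is at most `2 e`.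
-/

set_option autoImplicit false

open Filter Topology Polynomial Metric Set MeasureTheory

namespace Pool.Agent.H78.NS

open Pool.Agent.H44.Fatou (rat)
open Pool.Agent.H80.AJ (Br KK)
open Pool.Agent.H61.TT Pool.Agent.H57.CP Pool.Agent.H3.NC
open Pool.Agent.H1.PU (KA)

variable {d : ℕ} {a b : Polynomial ℂ}

theorem tai (h : RatD d a b) {U : ℕ → Set ℂ} (hU : ∀ j, MeasurableSet (U j))
    (hv : Tendsto (fun j => volume (U j)) atTop (𝓝 0)) {φ : ℕ → ℂ → ℂ} (hφm : ∀ j, Measurable (φ j))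
    (hφ : ∀ j z, ‖φ j z‖ ≤ 1) {α : ℕ → ℂ → ℂ} (hm : ∀ j, Measurable (α j)) (hα : ∀ j, Integrable (α j)) {τ : ℂ → ℂ}
    (hτ : Integrable τ) (ht : Tendsto (fun j => ∫⁻ x, ‖α j x - pf a b (α j) x - τ x‖ₑ) atTop (𝓝 0)) :
    Tendsto (fun j => ∫ z in U j, α j z * (FF a b (U j) (φ j) z - pb a b 1 (FF a b (U j) (φ j)) z)) atTop (𝓝 0) := by
  rw [Metric.tendsto_atTop]
  intro e he
  have htI : ∀ j, Integrable (fun x => α j x - pf a b (α j) x) := fun j =>
    (hα j).sub (Pool.Agent.H31.NS.pf_int h (hm j) (hα j)).1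
  have hev : ∀ᶠ j in atTop,
      ∫⁻ x, ‖α j x - pf a b (α j) x - τ x‖ₑ < ENNReal.ofReal (e / 8) := by
    refine (tendsto_order.1 ht).2 _ ?_
    exact ENNReal.ofReal_pos.2 (by positivity)
  obtain ⟨p, hp⟩ := eventually_atTop.1 hev
  have hs : Tendsto (fun j => ∫ z in U j, ‖α p z‖) atTop (𝓝 0) :=
    (hα p).norm.tendsto_setIntegral_nhds_zero hv
  obtain ⟨q, hq⟩ := eventually_atTop.1 ((tendsto_order.1 hs).2 (e / 8) (by positivity))
  refine ⟨max p q, fun j hj => ?_⟩
  have hjp : p ≤ j := le_trans (le_max_left _ _) hj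
  have hjq : q ≤ j := le_trans (le_max_right _ _) hj
  rw [dist_zero_right]
  have hNm : Measurable (FF a b (U j) (φ j)) := ff_meas (hU j) (hφm j)
  have hNle : ∀ z, ‖FF a b (U j) (φ j) z‖ ≤ 1 := ff_le (hφ j)
  have e1 := ida h (hU j) (hφm j) (hφ j) (hm j) (hα j)
  have e2 := ida h (hU j) (hφm j) (hφ j) (hm p) (hα p)
  have e3 := ida_le (a := a) (b := b) (hU j) (hφm j) (hφ j) (hm p) (hα p)
  have hq1 := hq j hjq
  have hi1 : Integrable (fun x => (α j x - pf a b (α j) x) * FF a b (U j) (φ j) x) :=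
    (htI j).mul_bdd hNm.aestronglyMeasurable (ae_of_all _ hNle)
  have hi2 : Integrable (fun x => (α p x - pf a b (α p) x) * FF a b (U j) (φ j) x) :=
    (htI p).mul_bdd hNm.aestronglyMeasurable (ae_of_all _ hNle)
  have e4 : ‖(∫ z in U j, α j z * (FF a b (U j) (φ j) z - pb a b 1 (FF a b (U j) (φ j)) z)) -
      ∫ z in U j, α p z * (FF a b (U j) (φ j) z - pb a b 1 (FF a b (U j) (φ j)) z)‖ₑ ≤
      ENNReal.ofReal (e / 8) + ENNReal.ofReal (e / 8) := by
    rw [← e1, ← e2, ← integral_sub hi1 hi2]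
    refine (enorm_integral_le_lintegral_enorm _).trans ?_
    calc ∫⁻ x, ‖(α j x - pf a b (α j) x) * FF a b (U j) (φ j) x -
          (α p x - pf a b (α p) x) * FF a b (U j) (φ j) x‖ₑ
        ≤ ∫⁻ x, (‖α j x - pf a b (α j) x - τ x‖ₑ + ‖α p x - pf a b (α p) x - τ x‖ₑ) := by
          refine lintegral_mono fun x => ?_
          have h1 : (α j x - pf a b (α j) x) * FF a b (U j) (φ j) x -
              (α p x - pf a b (α p) x) * FF a b (U j) (φ j) x =
              ((α j x - pf a b (α j) x - τ x) - (α p x - pf a b (α p) x - τ x)) *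
                FF a b (U j) (φ j) x := by ring
          have h2 : ‖FF a b (U j) (φ j) x‖ₑ ≤ 1 := by
            rw [← ofReal_norm, ← ENNReal.ofReal_one]
            exact ENNReal.ofReal_le_ofReal (hNle x)
          show ‖(α j x - pf a b (α j) x) * FF a b (U j) (φ j) x -
            (α p x - pf a b (α p) x) * FF a b (U j) (φ j) x‖ₑ ≤ _
          rw [h1, enorm_mul]
          refine (mul_le_mul' le_rfl h2).trans ?_
          rw [mul_one]
          exact enorm_sub_le
      _ = (∫⁻ x, ‖α j x - pf a b (α j) x - τ x‖ₑ) + ∫⁻ x, ‖α p x - pf a b (α p) x - τ x‖ₑ :=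
          lintegral_add_left' ((htI j).sub hτ).aestronglyMeasurable.enorm _
      _ ≤ _ := add_le_add (hp j hjp).le (hp p le_rfl).le
  rw [← ENNReal.ofReal_add (by positivity) (by positivity), ← ofReal_norm,
    ENNReal.ofReal_le_ofReal_iff (by positivity)] at e4
  have e5 := norm_sub_norm_le
    (∫ z in U j, α j z * (FF a b (U j) (φ j) z - pb a b 1 (FF a b (U j) (φ j)) z))
    (∫ z in U j, α p z * (FF a b (U j) (φ j) z - pb a b 1 (FF a b (U j) (φ j)) z))
  linarith

end Pool.Agent.H78.NS
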